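import Pool.Agent.P.MP_5a7d1f_lc.Gro.Step

/-!
Selectors on the tree of nodes, the iterated quantifier, towers and the sealing principle.
-/

set_option synthInstance.maxSize 16384
set_option linter.unusedSectionVars false

namespace Pool.Agent.P.MP_5a7d1f_lc.Nik

open Pool.Agent.Lib.Typed Pool.Agent.P.MP_5a7d1f_lc.Gro

/-- An infinite set of numbers. -/
def Unb (p : ℕ → Prop) : Prop := ∀ m, ∃ n, m ≤ n ∧ p n

/-- Inclusion up to a finite set. -/
def Alm (p q : ℕ → Prop) : Prop := ∃ m, ∀ n, m ≤ n → p n → q n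

/-- Nodes: a column and a finite sequence (newest entry first). -/
abbrev Nd : Type := ℕ × List ℕ

/-- The height of a node. -/
def ht (v : Nd) : ℕ := v.1 + 1 - v.2.length

/-- The iterated quantifier: almost all successors chosen by `σ`, `h` times. -/
def AllT (σ : Nd → ℕ → Prop) (Q : Nd → Prop) : ℕ → Nd → Prop
  | 0, v => Q v
  | h + 1, v => Alm (σ v) fun m => AllT σ Q h (v.1, m :: v.2)

/-- A selector gives each node an infinite set. -/
def Sel (σ : Nd → ℕ → Prop) : Prop := ∀ v, Unb (σ v)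

/-- Pointwise inclusion. -/
def SLe (σ τ : Nd → ℕ → Prop) : Prop := ∀ v m, σ v m → τ v m

/-- Pointwise almost inclusion. -/
def Rk (σ τ : Nd → ℕ → Prop) : Prop := ∀ v, Alm (σ v) (τ v)

theorem Alm.of_le {p q : ℕ → Prop} (h : ∀ n, p n → q n) : Alm p q := ⟨0, fun n _ => h n⟩

theorem Alm.refl (p : ℕ → Prop) : Alm p p := Alm.of_le fun _ h => h

theorem Alm.trans {p q r : ℕ → Prop} (h : Alm p q) (h' : Alm q r) : Alm p r := by
  obtain ⟨a, h⟩ := h
  obtain ⟨b, h'⟩ := h'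
  exact ⟨max a b, fun n k k' => h' n ((le_max_right _ _).trans k) (h n ((le_max_left _ _).trans k) k')⟩

theorem Alm.and {p q r : ℕ → Prop} (h : Alm p q) (h' : Alm p r) : Alm p fun n => q n ∧ r n := by
  obtain ⟨a, h⟩ := h
  obtain ⟨b, h'⟩ := h'
  exact ⟨max a b, fun n k k' =>
    ⟨h n ((le_max_left _ _).trans k) k', h' n ((le_max_right _ _).trans k) k'⟩⟩

theorem Alm.list {X : Type} {p : ℕ → Prop} {q : X → ℕ → Prop} {l : List X}
    (h : ∀ x ∈ l, Alm p (q x)) : Alm p fun n => ∀ x ∈ l, q x n := by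
  induction l with
  | nil => exact Alm.of_le (by simp)
  | cons a l ih =>
    exact ((h a List.mem_cons_self).and (ih fun x hx => h x (List.mem_cons_of_mem _ hx))).trans
      (Alm.of_le fun n k => List.forall_mem_cons.2 k)

theorem Unb.alm {p q : ℕ → Prop} (h : Unb p) (h' : Alm p q) : Unb fun n => p n ∧ q n := by
  obtain ⟨a, h'⟩ := h'
  intro m
  obtain ⟨n, k, k'⟩ := h (max a m)
  exact ⟨n, (le_max_right _ _).trans k, k', h' n ((le_max_left _ _).trans k) k'⟩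

theorem Unb.mono {p q : ℕ → Prop} (h : Unb p) (h' : ∀ n, p n → q n) : Unb q :=
  fun m => (h m).imp fun n k => ⟨k.1, h' n k.2⟩

theorem Unb.exists {p : ℕ → Prop} (h : Unb p) : ∃ n, p n := (h 0).imp fun _ k => k.2

theorem not_alm {p q : ℕ → Prop} : ¬ Alm p q ↔ Unb fun n => p n ∧ ¬ q n := by
  simp [Alm, Unb]

theorem not_unb {p q : ℕ → Prop} : (¬ Unb fun n => p n ∧ q n) ↔ Alm p fun n => ¬ q n := by
  simp [Alm, Unb]

theorem SLe.rk {σ τ : Nd → ℕ → Prop} (h : SLe σ τ) : Rk σ τ := fun v => Alm.of_le (h v)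

theorem Rk.refl (σ : Nd → ℕ → Prop) : Rk σ σ := fun _ => Alm.refl _

theorem Rk.trans {σ τ ρ : Nd → ℕ → Prop} (h : Rk σ τ) (h' : Rk τ ρ) : Rk σ ρ :=
  fun v => (h v).trans (h' v)

theorem ht_cons {v : Nd} {h : ℕ} (k : ht v = h + 1) (m : ℕ) : ht (v.1, m :: v.2) = h := by
  simp only [ht, List.length_cons] at k ⊢
  omega

theorem AllT.mono {σ : Nd → ℕ → Prop} {Q Q' : Nd → Prop} (hQ : ∀ v, Q v → Q' v) :
    ∀ {h v}, AllT σ Q h v → AllT σ Q' h v
  | 0, v, k => hQ v k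
  | _ + 1, _, k => Alm.trans k (Alm.of_le fun _ k' => AllT.mono hQ k')

theorem AllT.rk {σ τ : Nd → ℕ → Prop} {Q : Nd → Prop} (hσ : Rk τ σ) :
    ∀ {h v}, AllT σ Q h v → AllT τ Q h v
  | 0, _, k => k
  | _ + 1, v, k => (hσ v).trans (Alm.trans k (Alm.of_le fun _ k' => AllT.rk hσ k'))

theorem AllT.and {σ : Nd → ℕ → Prop} {Q Q' : Nd → Prop} :
    ∀ {h v}, AllT σ Q h v → AllT σ Q' h v → AllT σ (fun v => Q v ∧ Q' v) h v
  | 0, _, k, k' => ⟨k, k'⟩
  | _ + 1, _, k, k' => (Alm.and k k').trans (Alm.of_le fun _ k => AllT.and k.1 k.2)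

theorem AllT.exists {σ : Nd → ℕ → Prop} {Q : Nd → Prop} (hσ : Sel σ) :
    ∀ {h v}, AllT σ Q h v → ∃ u, Q u
  | 0, v, k => ⟨v, k⟩
  | _ + 1, v, k => ((hσ v).alm k).exists.elim fun _ k' => AllT.exists hσ k'.2

/-- Only the values of `σ` at the nodes of the same column that are at least as long matter. -/
theorem AllT.congr {σ τ : Nd → ℕ → Prop} {Q : Nd → Prop} : ∀ {h v},
    (∀ u : Nd, u.1 = v.1 → v.2.length ≤ u.2.length → ∀ m, τ u m → σ u m) →
      AllT σ Q h v → AllT τ Q h v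
  | 0, _, _, k => k
  | _ + 1, v, H, k => (Alm.of_le (H v rfl le_rfl)).trans (Alm.trans k (Alm.of_le fun _ k' =>
      AllT.congr (fun u e e' => H u e (le_trans (by simp) e')) k'))

variable {N : Set ZFSet.{0}} [ZFC N] {W X K L : Type} [Coded N W] [Coded N X] [Coded N K]
  [Coded N L]

@[fun_prop] theorem DefF.unb {p : W → ℕ → Prop} (hp : DefF N (fun z : W × ℕ => p z.1 z.2)) :
    DefF N (fun w => Unb (p w)) := by
  simp only [Unb, all_eq]
  fun_prop

@[fun_prop] theorem DefF.alm {p q : W → ℕ → Prop} (hp : DefF N (fun z : W × ℕ => p z.1 z.2))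
    (hq : DefF N (fun z : W × ℕ => q z.1 z.2)) : DefF N (fun w => Alm (p w) (q w)) := by
  simp only [Alm, all_eq, imp_eq]
  fun_prop

@[fun_prop] theorem DefF.natSub {f g : W → ℕ} (hf : DefF N f) (hg : DefF N g) :
    DefF N (fun w => f w - g w) :=
  DefF.of_rel (fun w k => g w + k = f w ∨ (k = 0 ∧ f w < g w)) (by fun_prop) fun w k => by omega

@[fun_prop] theorem DefF.ht {v : W → Nd} (hv : DefF N v) : DefF N (fun w => ht (v w)) := by
  unfold Nik.ht
  fun_prop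

section
variable {σ τ : W → Nd → ℕ → Prop} (hσ : DefF N (fun z : W × Nd × ℕ => σ z.1 z.2.1 z.2.2))
include hσ

@[fun_prop] theorem DefF.sel : DefF N (fun w => Sel (σ w)) := by
  simp only [Sel, all_eq]
  fun_prop

@[fun_prop] theorem DefF.sLe (hτ : DefF N (fun z : W × Nd × ℕ => τ z.1 z.2.1 z.2.2)) :
    DefF N (fun w => SLe (σ w) (τ w)) := by
  simp only [SLe, all_eq, imp_eq]
  fun_prop

@[fun_prop] theorem DefF.rk (hτ : DefF N (fun z : W × Nd × ℕ => τ z.1 z.2.1 z.2.2)) :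
    DefF N (fun w => Rk (σ w) (τ w)) := by
  simp only [Rk, all_eq]
  fun_prop

@[fun_prop] theorem DefF.allT {Q : W → Nd → Prop} {h : W → ℕ} {v : W → Nd}
    (hQ : DefF N (fun z : W × Nd => Q z.1 z.2)) (hh : DefF N h) (hv : DefF N v) :
    DefF N (fun w => AllT (σ w) (Q w) (h w) (v w)) := by
  obtain ⟨a, ha, Ha⟩ := exists_dset hQ
  obtain ⟨s, hs, Hs⟩ := exists_dset (N := N) (W := W × DSet N Nd) (X := Nd)
    (R := fun z u => Alm (σ z.1 u) fun m => z.2.Mem (u.1, m :: u.2)) (by fun_prop)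
  have h1 := DefF.natRec (N := N) (W := W) (a := a) (s := fun w _ S => s (w, S)) ha (by fun_prop)
  refine (DefF.mem (h1.comp (DefF.id.prodMk hh)) hv).congr_iff fun w => ?_
  generalize h w = n
  generalize v w = u
  induction n generalizing u with
  | zero => exact Ha w u
  | succ n ih =>
    refine (Hs _ u).trans ?_
    simp only [ih]
    rfl

end

/-- `σ` lists all definable assignments of sets of numbers to nodes. -/
structure Enu (N : Set ZFSet.{0}) [ZFC N] {K : Type} [Coded N K] (σ : K → Nd → ℕ → Prop) :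
    Prop where
  defn : DefF N (fun z : K × Nd × ℕ => σ z.1 z.2.1 z.2.2)
  all : ∀ τ : Nd → ℕ → Prop, DefF N (fun z : Nd × ℕ => τ z.1 z.2) → ∃ γ, σ γ = τ

section
variable [LinearOrder K]

/-- Below `ε` there are listed infinite subsets of `Q` that lie arbitrarily deep in `t`. -/
def Cof {K : Type} [LinearOrder K] (t e : K → ℕ → Prop) (ε : K) (Q : ℕ → Prop) : Prop :=
  ∀ β, β < ε → ∃ γ, γ < ε ∧ Unb (e γ) ∧ Alm (e γ) (t β) ∧ Alm (e γ) Q

/-- The tail of `t` decides every set of `N`. -/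
def Dec (N : Set ZFSet.{0}) [ZFC N] {K : Type} [LinearOrder K] (t : K → ℕ → Prop) : Prop :=
  ∀ Q : ℕ → Prop, DefF N Q →
    ∃ β, (∀ γ, β ≤ γ → Alm (t γ) Q) ∨ ∀ γ, β ≤ γ → Alm (t γ) fun n => ¬ Q n

/-- `ε` has uncountable cofinality in `N`. -/
def UCof (N : Set ZFSet.{0}) [ZFC N] {K : Type} [Coded N K] [LinearOrder K] (ε : K) : Prop :=
  ∀ c : ℕ → K, DefF N c → (∀ n, c n < ε) → ∃ b, b < ε ∧ ∀ n, c n ≤ b

/-- No set of `N` separates two cofinal families of listed sets. -/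
def Sealed (N : Set ZFSet.{0}) [ZFC N] {K : Type} [LinearOrder K] (t e : K → ℕ → Prop) (ε : K) :
    Prop :=
  ∀ Q : ℕ → Prop, DefF N Q → Cof t e ε Q → ¬ Cof t e ε fun n => ¬ Q n

/-- The sealing principle. -/
def SealP (N : Set ZFSet.{0}) [ZFC N] (K : Type) [Coded N K] [LinearOrder K] : Prop :=
  ∀ t e : K → Nd → ℕ → Prop, DefF N (fun z : K × Nd × ℕ => t z.1 z.2.1 z.2.2) →
    DefF N (fun z : K × Nd × ℕ => e z.1 z.2.1 z.2.2) → (∀ β, Sel (t β)) →
    (∀ v, Dec N fun β => t β v) → ∀ F : K → K, DefF N F →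
    ∃ ε, Cl F ε ∧ UCof N ε ∧ ∀ v, Sealed N (fun β => t β v) (fun γ => e γ v) ε

/-- Below `ε` there are listed selectors, arbitrarily deep in `t`, on which `Q` is large. -/
def BigT {K : Type} [LinearOrder K] (σ t : K → Nd → ℕ → Prop) (ε : K) (Q : Nd → Prop) (h : ℕ)
    (v : Nd) : Prop :=
  ∀ β, β < ε → ∃ γ, γ < ε ∧ Sel (σ γ) ∧ Rk (σ γ) (t β) ∧ AllT (σ γ) Q h v

theorem UCof.bdd {ε : K} (h : UCof N ε) {p : X → Prop} (hp : Ctble N p) {f : X → K}
    (hf : DefF N f) (hlt : ∀ x, f x < ε) : ∃ b, b < ε ∧ ∀ x, p x → f x ≤ b := by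
  obtain ⟨g, hg, H⟩ := hp
  obtain ⟨b, h1, h2⟩ := h (fun n => f (g n)) (by fun_prop) fun n => hlt _
  exact ⟨b, h1, fun x hx => (H x hx).elim fun n e => e ▸ h2 n⟩

@[fun_prop] theorem DefF.bigT [WO N K] {σ t : W → K → Nd → ℕ → Prop} {ε : W → K}
    {Q : W → Nd → Prop} {h : W → ℕ} {v : W → Nd}
    (hσ : DefF N (fun z : W × K × Nd × ℕ => σ z.1 z.2.1 z.2.2.1 z.2.2.2))
    (ht : DefF N (fun z : W × K × Nd × ℕ => t z.1 z.2.1 z.2.2.1 z.2.2.2)) (hε : DefF N ε)
    (hQ : DefF N (fun z : W × Nd => Q z.1 z.2)) (hh : DefF N h) (hv : DefF N v) :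
    DefF N (fun w => BigT (σ w) (t w) (ε w) (Q w) (h w) (v w)) := by
  simp only [BigT, all_eq, imp_eq]
  fun_prop

end

theorem ctble_nd : Ctble N (fun _ : Nd => True) :=
  Sm.prod' (L := ℕ) sm_self (Sm.list' (L := ℕ) sm_self)

variable {A : Type} [Coded N A] [BooleanAlgebra A] [hA : BA N A]

/-- The trace of `b` on the nodes. -/
def hat {N : Set ZFSet.{0}} {A : Type} [Coded N A] [BooleanAlgebra A] (y : List ℕ → Pt N A) (b : A)
    (v : Nd) : Prop := (y v.2).has b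

@[fun_prop] theorem DefF.hat {y : List ℕ → Pt N A} (hy : DefF N y) {b : W → A} {v : W → Nd}
    (hb : DefF N b) (hv : DefF N v) : DefF N (fun w => hat y (b w) (v w)) := by
  unfold Nik.hat
  fun_prop

theorem hat_compl (y : List ℕ → Pt N A) (b : A) : hat y bᶜ = fun v => ¬ hat y b v :=
  funext fun _ => propext Pt.has_compl

theorem hat_inf (y : List ℕ → Pt N A) (a b : A) :
    hat y (a ⊓ b) = fun v => hat y a v ∧ hat y b v := funext fun _ => propext Pt.has_inf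

/-- A tree of elements with disjoint successors, and points in them. -/
structure CTree (N : Set ZFSet.{0}) [ZFC N] {A : Type} [Coded N A] [BooleanAlgebra A] [BA N A]
    (C : List ℕ → A) (y : List ℕ → Pt N A) : Prop where
  defC : DefF N C
  defy : DefF N y
  mem : ∀ s, (y s).has (C s)
  le : ∀ s m, C (m :: s) ≤ C s
  disj : ∀ s m m', m ≠ m' → C (m :: s) ⊓ C (m' :: s) = ⊥

/-- The three properties of a solved task. -/
structure Job {N : Set ZFSet.{0}} {A : Type} [Coded N A] [BooleanAlgebra A]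
    (r t : Nd → ℕ → Prop) (S : ℕ → Prop) (g : ℕ → ℕ) (p : Nd → Pt N A) (b : A) (G : Nd → Prop) :
    Prop where
  root : ∀ n, S n → G (n, [])
  up : ∀ v m, G v → v.2.length < g v.1 → t v m → G (v.1, m :: v.2)
  split : ∀ v, G v → v.2.length = g v.1 →
    (Unb fun m => r v m ∧ (p (v.1, m :: v.2)).has b) ∧
      Unb fun m => r v m ∧ (p (v.1, m :: v.2)).has bᶜ

variable [LinearOrder K]

/-- Listed selectors below `F γ` decide every element below the selector `σ γ`. -/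
def Reap {N : Set ZFSet.{0}} {A K : Type} [Coded N A] [BooleanAlgebra A] [LinearOrder K]
    (σ : K → Nd → ℕ → Prop) (y : List ℕ → Pt N A) (F : K → K) : Prop :=
  ∀ γ v b, Sel (σ γ) → ∃ γ', γ' < F γ ∧ Sel (σ γ') ∧ SLe (σ γ') (σ γ) ∧
    (AllT (σ γ') (hat y b) (ht v) v ∨ AllT (σ γ') (hat y bᶜ) (ht v) v)

/-- `p` is the family of generic limit points at stage `ε`. -/
def Rep {N : Set ZFSet.{0}} {A K : Type} [Coded N A] [BooleanAlgebra A] [LinearOrder K]
    (σ t : K → Nd → ℕ → Prop) (C : List ℕ → A) (y : List ℕ → Pt N A) (ε : K)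
    (p : Nd → Pt N A) : Prop :=
  (∀ v a, (p v).has a ↔ BigT σ t ε (hat y a) (ht v) v) ∧ ∀ v, (p v).has (C v.2)

/-- The output of the recursion. -/
structure Rc (N : Set ZFSet.{0}) [ZFC N] {A K : Type} [Coded N A] [BooleanAlgebra A] [BA N A]
    [Coded N K] [LinearOrder K] (σ : K → Nd → ℕ → Prop) (C : List ℕ → A) (y : List ℕ → Pt N A)
    (g : K → ℕ → ℕ) (t r : K → Nd → ℕ → Prop) (S : K → ℕ → Prop) (b : K → A)
    (G : K → Nd → Prop) : Prop where
  def_t : DefF N (fun z : K × Nd × ℕ => t z.1 z.2.1 z.2.2)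
  def_r : DefF N (fun z : K × Nd × ℕ => r z.1 z.2.1 z.2.2)
  def_S : DefF N (fun z : K × ℕ => S z.1 z.2)
  def_b : DefF N b
  def_G : DefF N (fun z : K × Nd => G z.1 z.2)
  sel : ∀ ε, Sel (t ε)
  mono : ∀ δ ε, δ ≤ ε → Rk (t ε) (t δ)
  monoR : ∀ δ ε, δ < ε → Rk (r ε) (t δ)
  unb : ∀ ε, Unb (S ε)
  monoS : ∀ δ ε, δ ≤ ε → Alm (S ε) (S δ)
  dec : ∀ v, Dec N fun β => t β v
  job : ∀ ε (p : Nd → Pt N A), DefF N p → Rep σ t C y ε p →
    Job (r ε) (t ε) (S ε) (g ε) p (b ε) (G ε)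

/-- Stage `δ` has limit points, and `β` bounds the failures of the complements of `b δ`
and of its complement. -/
def Rdy (N : Set ZFSet.{0}) [ZFC N] {A K : Type} [Coded N A] [BooleanAlgebra A] [BA N A]
    [LinearOrder K] (σ t : K → Nd → ℕ → Prop) (C : List ℕ → A) (y : List ℕ → Pt N A) (b : K → A)
    (β δ : K) : Prop :=
  β < δ ∧ ∃ p : DFun N Nd (Pt N A), Rep σ t C y δ p.app ∧ ∀ v a γ, (a = b δ ∨ a = (b δ)ᶜ) →
    (p.app v).has a → γ < δ → Sel (σ γ) → Rk (σ γ) (t β) → ¬ AllT (σ γ) (hat y aᶜ) (ht v) v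

theorem defF_rdy [WO N K] {σ t : K → Nd → ℕ → Prop} {C : List ℕ → A} {y : List ℕ → Pt N A}
    {b : K → A} (hσ : DefF N (fun z : K × Nd × ℕ => σ z.1 z.2.1 z.2.2))
    (ht : DefF N (fun z : K × Nd × ℕ => t z.1 z.2.1 z.2.2)) (hC : DefF N C) (hy : DefF N y)
    (hb : DefF N b) : DefF N (fun z : K × K => Rdy N σ t C y b z.1 z.2) := by
  simp only [Rdy, Rep, all_eq, imp_eq]
  fun_prop

end Pool.Agent.P.MP_5a7d1f_lc.Nik
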