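import Pool.Agent.P.MP_5a7d1f_lc.Nik.Basic

/-!
Cluster points of sequences of pairs, and a tree of elements.
-/

set_option synthInstance.maxSize 16384
set_option linter.unusedSectionVars false

namespace Pool.Agent.P.MP_5a7d1f_lc.Nik

open Pool.Agent.Lib.Typed Pool.Agent.P.MP_5a7d1f_lc.Gro

variable {N : Set ZFSet.{0}} [ZFC N] [Enum N] {K L : Type} [Coded N K] [Coded N L]
  [LinearOrder K] {A : Type} [Coded N A] [BooleanAlgebra A] [BA N A]

theorem cluster (hP : PairSep N A) {x y : ℕ → Pt N A} (hx : DefF N x) (hy : DefF N y)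
    {S : ℕ → Prop} (hS : DefF N S) (hi : Unb S) (hne : ∀ n, S n → x n ≠ y n) :
    ∃ a a' : Pt N A, a ≠ a' ∧ ∀ b, ¬ (a.has b ↔ a'.has b) →
      Unb fun n => S n ∧ ¬ ((x n).has b ↔ (y n).has b) := by
  classical
  obtain ⟨s, hs, Hs⟩ := choice (N := N) (R := fun m n : ℕ => m ≤ n ∧ S n) (by fun_prop) hi
  obtain ⟨b0, h0⟩ := hP (fun n => x (s n)) (fun n => y (s n)) (by fun_prop) (by fun_prop)
    fun n => hne _ (Hs n).2
  obtain ⟨t, ht, Ht⟩ := choice (N := N)
    (R := fun m n : ℕ => m ≤ n ∧ S n ∧ ¬ ((x n).has b0 ↔ (y n).has b0)) (by fun_prop) fun m => by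
      obtain ⟨n, k1, k2⟩ := h0 m
      exact ⟨s n, k1.trans (Hs n).1, (Hs n).2, k2⟩
  obtain ⟨U, hU⟩ := exists_ultraIn N
  have lim : ∀ z : ℕ → Pt N A, DefF N z → ∃ a : Pt N A, ∀ b, a.has b ↔ ∀ᶠ n in U, (z n).has b :=
    fun z hz => ⟨Pt.mk (fun b => ∀ᶠ n in U, (z n).has b) (hU.ev (by fun_prop))
      (fun a b => by simp only [Pt.has_inf, Filter.eventually_and])
      (fun a => by simp only [Pt.has_compl, Ultrafilter.eventually_not]), fun _ => Iff.rfl⟩
  obtain ⟨a, ha⟩ := lim (fun n => if (x (t n)).has b0 then x (t n) else y (t n)) (by fun_prop)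
  obtain ⟨a', ha'⟩ := lim (fun n => if (x (t n)).has b0 then y (t n) else x (t n)) (by fun_prop)
  have h1 : a.has b0 := (ha b0).2 (Filter.Eventually.of_forall fun n => by
    have := (Ht n).2.2
    split_ifs with k <;> tauto)
  have h2 : a'.has b0ᶜ := (ha' _).2 (Filter.Eventually.of_forall fun n => by
    have := (Ht n).2.2
    rw [Pt.has_compl]
    split_ifs with k <;> tauto)
  refine ⟨a, a', fun e => Pt.has_compl.1 h2 (e ▸ h1), fun b hb m => ?_⟩
  have h3 : ∀ᶠ n in U, ¬ ((x (t n)).has b ↔ (y (t n)).has b) := by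
    by_cases k : a.has b
    · have k' : a'.has bᶜ := Pt.has_compl.2 fun k' => hb ⟨fun _ => k', fun _ => k⟩
      filter_upwards [(ha b).1 k, (ha' _).1 k'] with n k1 k2
      rw [Pt.has_compl] at k2
      split_ifs at k1 k2 <;> tauto
    · have k' : a'.has b := by tauto
      filter_upwards [(ha _).1 (Pt.has_compl.2 k), (ha' _).1 k'] with n k1 k2
      rw [Pt.has_compl] at k1
      split_ifs at k1 k2 <;> tauto
  obtain ⟨n, k1, k2⟩ := (h3.and (hU.le (Filter.eventually_ge_atTop m))).exists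
  exact ⟨t n, le_trans k2 (Ht n).1, (Ht n).2.1, k1⟩

theorem exists_ctree [Infinite A] (hP : PairSep N A) :
    ∃ (C : List ℕ → A) (y : List ℕ → Pt N A), CTree N C y := by
  obtain ⟨x, hx, hi⟩ := exists_points (N := N) (A := A)
  obtain ⟨f, hf, Hf⟩ := choice' (N := N) (p := fun c : A => Unb fun n => (x n).has c)
    (R := fun c b : A => (Unb fun n => (x n).has (c ⊓ b)) ∧ Unb fun n => (x n).has (c ⊓ bᶜ))
    (by fun_prop) fun c hc => by
      obtain ⟨u, hu, Hu⟩ := choice (N := N) (R := fun (m : ℕ) (z : ℕ × ℕ) =>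
          m ≤ z.1 ∧ z.1 < z.2 ∧ (x z.1).has c ∧ (x z.2).has c) (by fun_prop) fun m => by
        obtain ⟨i, k1, k2⟩ := hc m
        obtain ⟨j, k3, k4⟩ := hc (i + 1)
        exact ⟨(i, j), k1, k3, k2, k4⟩
      obtain ⟨b, hb⟩ := hP (fun n => x (u n).1) (fun n => x (u n).2) (by fun_prop) (by fun_prop)
        fun n e => (Hu n).2.1.ne (hi e)
      refine ⟨b, fun m => ?_, fun m => ?_⟩ <;> obtain ⟨n, k1, k2⟩ := hb m <;>
        obtain ⟨k3, k4, k5, k6⟩ := Hu n <;> by_cases k : (x (u n).1).has b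
      · exact ⟨_, k1.trans k3, Pt.has_inf.2 ⟨k5, k⟩⟩
      · exact ⟨_, (k1.trans k3).trans k4.le, Pt.has_inf.2 ⟨k6, by tauto⟩⟩
      · exact ⟨_, (k1.trans k3).trans k4.le, Pt.has_inf.2 ⟨k6, Pt.has_compl.2 (by tauto)⟩⟩
      · exact ⟨_, k1.trans k3, Pt.has_inf.2 ⟨k5, Pt.has_compl.2 k⟩⟩
  let R : A → ℕ → A := fun c m => Nat.rec c (fun _ a => a ⊓ (f a)ᶜ) m
  have hR : DefF N (fun z : A × ℕ => R z.1 z.2) :=
    DefF.natRec (a := fun c : A => c) (s := fun _ _ a => a ⊓ (f a)ᶜ) DefF.id (by fun_prop)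
  have r1 : ∀ c m, R c (m + 1) = R c m ⊓ (f (R c m))ᶜ := fun _ _ => rfl
  have r2 : ∀ c, Antitone (R c) := fun c => antitone_nat_of_succ_le fun m => inf_le_left
  have r3 : ∀ c, (Unb fun n => (x n).has c) → ∀ m, Unb fun n => (x n).has (R c m) := by
    intro c hc m
    induction m with
    | zero => exact hc
    | succ m ih => exact (Hf _ ih).2
  let C : List ℕ → A := fun s => s.foldr (fun m c => R c m ⊓ f (R c m)) ⊤
  have hC : DefF N C := DefF.foldr (F := fun _ m c => R c m ⊓ f (R c m)) (a := fun _ => ⊤)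
    (by fun_prop) (by fun_prop) DefF.id
  have c1 : ∀ s, Unb fun n => (x n).has (C s) := by
    intro s
    induction s with
    | nil => exact fun m => ⟨m, le_rfl, Pt.has_top _⟩
    | cons m s ih => exact (Hf _ (r3 _ ih m)).1
  obtain ⟨j, hj, Hj⟩ := choice (N := N) (R := fun (s : List ℕ) (n : ℕ) => (x n).has (C s))
    (by fun_prop) fun s => (c1 s).exists
  have c2 : ∀ s m m', m < m' → C (m :: s) ⊓ C (m' :: s) = ⊥ := fun s m m' h =>
    le_bot_iff.1 ((inf_le_inf inf_le_right (inf_le_left.trans ((r2 (C s) h).trans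
      inf_le_right))).trans (inf_compl_eq_bot (a := f (R (C s) m))).le)
  refine ⟨C, fun s => x (j s), hC, by fun_prop, Hj, fun s m =>
    inf_le_left.trans (r2 (C s) (Nat.zero_le m)), fun s m m' h => ?_⟩
  rcases lt_or_gt_of_ne h with k | k
  exacts [c2 s m m' k, (inf_comm _ _).trans (c2 s m' m k)]

end Pool.Agent.P.MP_5a7d1f_lc.Nik
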