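import Pool.Agent.P.MP_5a7d1f_lc.Nik.FDefs

/-!
Generic extensions by an initial part of the iteration.
-/

set_option synthInstance.maxSize 16384
set_option linter.unusedSectionVars false

namespace Pool.Agent.P.MP_5a7d1f_lc.Nik

open Pool.Agent.Lib.Forcing Pool.Agent.Lib.Typed Pool.Agent.P.MP_5a7d1f_lc.Gro
open Pool.Agent.P.MP_af0a18_lc

variable {M : Set ZFSet.{0}} [ZFC M] [Enum M] {W K L : Type} [Coded M W] [Coded M K] [Coded M L]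
  [LinearOrder W] [LinearOrder K]

theorem exists_gen' {X : Type} [Coded M X] {V : X → Prop} {Le : X → X → Prop} (hM : IsZFModel M)
    (hc : M.Countable) (po : Po M V Le) {p : X} (hp : V p) :
    ∃ (N : Set ZFSet.{0}) (_ : ZFC N), Enum N ∧ ∃ G, Gen M N V Le G ∧ G p := by
  obtain ⟨P, le, tf⟩ := exists_TF po.defV po.defLe po.refl po.trans
  obtain ⟨H, hpH, hH⟩ := exists_generic hc tf.forcing ((tf.hP _).2 ⟨p, hp, rfl⟩)
  have hN := hM.genericExt tf.forcing tf.memP tf.memL hH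
  have := hN.zfm
  have hMN := subset_genericExt tf.forcing tf.memP hH
  have enum : ∀ x ∈ genericExt M H, ∃ α ∈ genericExt M H, α.IsOrdinal ∧
      Surj (genericExt M H) α x := by
    intro x hx
    obtain ⟨T, hT, v, hv, h2, h3⟩ := exists_cover tf.forcing tf.memP hH hx
    obtain ⟨α, hα, ho, r, hr, h4, h5⟩ := Enum.enum (N := M) T hT
    exact ⟨α, hMN hα, ho, Surj.trans (hMN hα) hx ⟨r, hMN hr, h4, h5⟩
      ⟨v, hv, fun a b h c h' => h2 a b c h h', h3⟩⟩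
  have hZF := zfc_of hN (choice_of_enum enum)
  refine ⟨_, hZF, ⟨enum⟩, In M H, ⟨po, hMN,
    fun _ => tf.valid hH, fun p q h1 h2 h3 =>
      hH.upward _ _ h1 ((tf.hL _ _).2 ⟨tf.valid hH h1, h2, h3⟩), fun _ _ => tf.directed hH,
    tf.nonempty hH, fun hR _ => tf.below hH hR, fun hR => ?_, fun {A} _ _ _ _ hZ => ?_⟩, hpH⟩
  · obtain ⟨Z, h1, -, h2⟩ := tf.eval hH hR
    exact (defF_mem h1).congr_iff fun a => by rw [Same.eq (M := M), h2]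
  · obtain ⟨Z, h1, h2⟩ := hZ.defP
    obtain ⟨S, h3, h4, h5⟩ := tf.nice hH h1 A
    exact ⟨S, h3, h4, fun a => by rw [h2, Same.eq (M := M), h5]⟩

variable {N : Set ZFSet.{0}} [ZFC N] [Coded N W] [Coded N K] [Coded N L] [Same M N W] [Same M N K]
  [Same M N L] {e : K → L × L × ℕ → List (Cond K L)} {d : K → L → L → Cond K L → Prop}

theorem two_of_gen [Succ M L K] (h : It M e d) {β : K} {G : Cond K L → Prop}
    (g : Gen M N Fu (Lb d β) G) {Le : L → L → Prop} (hb : ∀ a, ∀ x ∈ e β a, Fu x)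
    (hn : ∀ η ξ, Le η ξ ↔ ∃ k, ∃ x ∈ e β (η, ξ, k), G x) (po : Po N (fun _ => True) Le)
    (hc : Ccc N (fun _ => True) Le) : ∃ q, G q ∧ Two M (e β) (Lb d β) q := by
  have := h.def_d
  have := h.def_e
  have : Big M L := (inferInstance : Succ M L K).big
  have := Big.nonempty M L
  have pb := h.po_lb β
  have truth : ∀ {η ξ : L}, Le η ξ → ∃ q, G q ∧ Sf (e β) (Lb d β) η ξ q := fun {η ξ} k => by
    obtain ⟨k, x, k1, k2⟩ := (hn η ξ).1 k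
    exact ⟨x, k2, fun r k3 k4 => ⟨r, k3, h.refl _ r, k, x, k1, k4⟩⟩
  obtain ⟨p, hp⟩ := g.ne
  obtain ⟨q, hq, k⟩ := g.below (R := fun q => Two M (e β) (Lb d β) q ∨
      ∃ A : DSet M (Cond K L × L), (∀ y y' s η, A.Mem y → A.Mem y' → Fu s → Lb d β s y.1 →
        Lb d β s y'.1 → Sf (e β) (Lb d β) η y.2 s → Sf (e β) (Lb d β) η y'.2 s → y = y') ∧
        ∀ (C : DFun M ℕ (Cond K L × L)) r, Fu r → Lb d β r q →
          ∃ s, Fu s ∧ Lb d β s r ∧ ∃ y, A.Mem y ∧ (¬ ∃ n, C.app n = y) ∧ Lb d β s y.1)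
    (by simp only [all_eq, imp_eq]; fun_prop) hp
    fun q hq _ => by
      by_cases k : Two M (e β) (Lb d β) q
      · exact ⟨q, hq, h.refl _ q, Or.inl k⟩
      · simp only [Two, Ccc, not_forall] at k
        obtain ⟨A, k1, k2, k3⟩ := k
        obtain ⟨s, k4, k5⟩ := (pb.below q).exists_unc ((h.ccc_lb β).below pb q) A.def_mem DefF.fst
          k1 k3
        refine ⟨s, k4.1, k4.2, Or.inr ⟨A, fun y y' t η e1 e2 e3 e4 e5 e6 e7 => by_contra fun k =>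
          k2 y y' e1 e2 k ⟨(t, η), ⟨e3, pb.trans _ _ _ e4 (k1 y e1).2⟩, ⟨e4, e6⟩, e5, e7⟩,
          fun C r e1 e2 => ?_⟩⟩
        obtain ⟨y, e3, e4, t, e5, e6, e7⟩ := k5 C r ⟨e1, pb.trans _ _ _ e2 k4.2⟩ e2
        exact ⟨t, e5.1, e6, y, e3, e4, e7⟩
  refine k.elim (fun k => ⟨q, hq, k⟩) fun ⟨A, k1, k2⟩ => False.elim ?_
  have := A.def_mem
  obtain ⟨s, k3, k4⟩ := hc.index po (Y := Cond K L × L)
    (g.eval (R := fun y u => A.Mem y ∧ Lb d β u y.1) (by fun_prop)) DefF.snd (fun _ _ => trivial)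
    fun y y' ⟨u, e1, e2, e3⟩ ⟨u', e4, e5, e6⟩ hne ⟨η, _, e7, e8⟩ => by
      obtain ⟨v, e9, e10⟩ := truth e7
      obtain ⟨v', e11, e12⟩ := truth e8
      obtain ⟨a, a1, a2, a3⟩ := g.dir _ _ e1 e4
      obtain ⟨b, b1, b2, b3⟩ := g.dir _ _ e9 e11
      obtain ⟨c, c1, c2, c3⟩ := g.dir _ _ a1 b1
      exact hne (k1 y y' c η e2 e5 (g.valid c c1) (pb.trans _ _ _ c2 (pb.trans _ _ _ a2 e3))
        (pb.trans _ _ _ c2 (pb.trans _ _ _ a3 e6)) (h.sf_mono e10 (pb.trans _ _ _ c3 b2))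
        (h.sf_mono e12 (pb.trans _ _ _ c3 b3)))
  obtain ⟨W, k5, k6⟩ := g.cover (h.ccc_lb β) (L := ℕ) _ s k3
  obtain ⟨C, k7, k8⟩ := ctble_nat.biUnion k5 fun n => (k6 n).1
  obtain ⟨u, e1, y, e2, e3, e4⟩ := g.below
    (R := fun u => ∃ y, A.Mem y ∧ (¬ ∃ n, C n = y) ∧ Lb d β u y.1) (by fun_prop) hq (k2 ⟨C, k7⟩)
  obtain ⟨n, rfl⟩ := k4 y ⟨u, e1, e2, e4⟩
  exact e3 (k8 _ ⟨n, trivial, (k6 n).2⟩)

theorem gf_gb [Succ M L K] (h : It M e d) {H : Cond K L → Prop}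
    (g : Gen M N Fu (LeJ d fun _ => True) H) (β : K) : GF M Fu (Lb d β) (Gb d β H) := by
  have := h.def_d
  have pb := h.po_lb β
  refine ⟨pb, fun _ k => k.1, fun p q ⟨_, r, k1, k2⟩ k3 k4 => ⟨k3, r, k1, pb.trans _ _ _ k2 k4⟩,
    fun p q ⟨_, r, k1, k2⟩ ⟨_, s, k3, k4⟩ => ?_,
    g.ne.imp fun p k => ⟨g.valid p k, p, k, pb.refl p⟩, fun {R} hR {p} ⟨_, r, k1, k2⟩ k3 => ?_⟩
  · obtain ⟨t, k5, k6, k7⟩ := h.dir g β k1 k3
    exact ⟨t, ⟨g.valid t k5, t, k5, pb.refl t⟩, pb.trans _ _ _ k6 k2, pb.trans _ _ _ k7 k4⟩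
  · obtain ⟨u, k4, s, k5, k6, k7⟩ := h.below g (β := β)
      (R := fun u => ∃ s, Fu s ∧ Lb d β u s ∧ R s) (by fun_prop)
      (fun q s k ⟨t, k4, k5, k6⟩ => ⟨t, k4, pb.trans _ _ _ k k5, k6⟩) k1 fun q k4 k5 => by
        obtain ⟨s, k6, k7, k8⟩ := k3 q k4 (pb.trans _ _ _ k5 k2)
        exact ⟨s, k6, k7, s, k6, pb.refl s, k8⟩
    exact ⟨s, ⟨k5, u, k4, k6⟩, k7⟩

theorem gb_iff [Succ M L K] (h : It M e d) {H : Cond K L → Prop}
    (g : Gen M N Fu (LeJ d fun _ => True) H) {β : K} {x : Cond K L} (hx : Below β x) :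
    Gb d β H x ↔ H x := by
  exact ⟨fun ⟨k1, q, k2, k3⟩ => g.up q x k2 k1 fun z hz _ => k3 z hz (hx.2 z hz),
    fun k => ⟨hx.1, x, k, h.refl _ x⟩⟩

/-- The value of a name whose conditions are valid. -/
theorem GF.vl_iff {le : Cond K L → Cond K L → Prop} {n : L → ℕ × ℕ → List (Cond K L)}
    {G : Cond K L → Prop} (g : GF M Fu le G) (hn : ∀ a z, ∀ x ∈ n a z, Fu x) (a : L) (m : ℕ) :
    Vl le n G a m ↔ ∃ k, ∃ x ∈ n a (m, k), G x := by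
  exact ⟨fun ⟨s, k1, k, y, k2, k3⟩ => ⟨k, y, k2, g.up s y k1 (hn _ _ y k2) k3⟩,
    fun ⟨k, x, k1, k2⟩ => ⟨x, k2, k, x, k1, g.po.refl x⟩⟩

end Pool.Agent.P.MP_5a7d1f_lc.Nik
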