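import Pool.Agent.P.MP_5a7d1f_lc.Nik.Truth
import Pool.Agent.P.MP_5a7d1f_lc.Nik.Two

/-!
The generic colouring.
-/

set_option synthInstance.maxSize 16384
set_option linter.unusedSectionVars false

namespace Pool.Agent.P.MP_5a7d1f_lc.Nik

open Pool.Agent.Lib.Typed Pool.Agent.P.MP_5a7d1f_lc.Gro

variable {M : Set ZFSet.{0}} [ZFC M] [Enum M] {W K L : Type} [Coded M W] [Coded M K] [Coded M L]
  [LinearOrder W] [LinearOrder K]

variable {nm : K → L → ℕ × ℕ → List (Cond K L)} {tw : L → W → L} {π : K → L → Elt W K L}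

variable {N : Set ZFSet.{0}} [ZFC N] [Coded N W] [Coded N K] [Coded N L] [Same M N W] [Same M N K]
  [Same M N L] {e : K → L × L × ℕ → List (Cond K L)} {d : K → L → L → Cond K L → Prop}

/-- `q` puts the item `z` into the generic filter of stage `β`. -/
def Cross_In (d : K → L → L → Cond K L → Prop) (nm : K → L → ℕ × ℕ → List (Cond K L))
    (tw : L → W → L) (π : K → L → Elt W K L) (β : K) (z : Item W L) (q : Cond K L) : Prop :=
  ∃ ζ, (β, ζ) ∈ q ∧ MV (Lb d β) (nm β) tw (π β ζ) ∧ Lb d β q (π β ζ).1 ∧ z ∈ (π β ζ).2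

theorem Cross_fresh (l : List (Item W L)) : ∃ c : ℕ, ∀ z ∈ l, z.2.2.2.2 < c := by
  induction l with
  | nil => exact ⟨0, by simp⟩
  | cons y l ih =>
    obtain ⟨c, hc⟩ := ih
    exact ⟨max c (y.2.2.2.2 + 1), List.forall_mem_cons.2
      ⟨lt_max_of_lt_right (Nat.lt_succ_self _), fun z hz => lt_max_of_lt_left (hc z hz)⟩⟩

theorem Cross_cons {le : Cond K L → Cond K L → Prop} {n : L → ℕ × ℕ → List (Cond K L)}
    {x : Cond K L} {l : List (Item W L)} {z : Item W L} (h1 : MV le n tw (x, l))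
    (h2 : OkF le n tw z x) (h3 : ∀ y ∈ l, y.2.2.2.2 < z.2.2.2.2) : MV le n tw (x, z :: l) := by
  refine ⟨List.forall_mem_cons.2 ⟨h2, h1.1⟩, fun y hy y' hy' e1 e2 e3 => ?_⟩
  rcases List.mem_cons.1 hy with rfl | k <;> rcases List.mem_cons.1 hy' with rfl | k'
  exacts [(e3 rfl).elim, ((h3 y' k').ne' e2).elim, ((h3 y k).ne e2).elim,
    h1.2 y k y' k' e1 e2 e3]

theorem Cross_dense [WO M K] (h : It M e d) (aux : Aux M nm tw π) {β : K}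
    (hs : SpecS (Lb d β) (nm β) tw β (π β) (e β)) {θ : L} {η : W} {b b' : L} {q : Cond K L}
    (hq : Fu q) (hok : OkF (Lb d β) (nm β) tw (θ, η, b, b', 0) q) :
    ∃ r, Fu r ∧ LeJ d (fun _ => True) r q ∧ ∃ c : ℕ, Cross_In d nm tw π β (θ, η, b, b', c) r := by
  have pb := h.po_lb β
  obtain ⟨ξ, k1⟩ : ∃ ξ, ∀ ζ, (β, ζ) ∈ q → ζ = ξ := by
    by_cases k : ∃ ξ, (β, ξ) ∈ q
    · exact k.imp fun ξ k ζ k' => hq _ k' _ k rfl
    · exact ⟨θ, fun ζ k' => (k ⟨ζ, k'⟩).elim⟩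
  obtain ⟨s, l, c, s1, s2, s3, s4, s5⟩ : ∃ (s : Cond K L) (l : List (Item W L)) (c : ℕ), Fu s ∧
      Lb d β s q ∧ MV (Lb d β) (nm β) tw (s, l) ∧ (θ, η, b, b', c) ∈ l ∧
      ∀ ζ, MV (Lb d β) (nm β) tw (π β ζ) → Lb d β s (π β ζ).1 → (π β ζ).2 = l →
        FR (Lb d β) (nm β) tw (π β) ζ ξ s := by
    by_cases k : MV (Lb d β) (nm β) tw (π β ξ) ∧ Cmp Fu (Lb d β) q (π β ξ).1
    · obtain ⟨k2, s, k3, k4, k5⟩ := k
      obtain ⟨c, hc⟩ := Cross_fresh (π β ξ).2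
      exact ⟨s, (θ, η, b, b', c) :: (π β ξ).2, c, k3, k4,
        Cross_cons (MV.mono pb k5 k2) (OkF.mono pb k4 hok) hc, List.mem_cons_self,
        fun ζ e1 e2 e3 => Or.inr (Or.inr ⟨e1, e2, fun z hz => e3 ▸ List.mem_cons_of_mem _ hz⟩)⟩
    · refine ⟨q, [(θ, η, b, b', 0)], 0, hq, pb.refl q,
        Cross_cons ⟨by simp, by simp⟩ hok (by simp), List.mem_cons_self, fun ζ _ _ _ => ?_⟩
      rcases not_and_or.1 k with k | k
      exacts [Or.inl k, Or.inr (Or.inl k)]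
  obtain ⟨ζ, hζ⟩ := aux.pi_all β (cut β s) l (below_cut β s1)
  have e1 : MV (Lb d β) (nm β) tw (π β ζ) := hζ ▸ MV.mono pb (cut_le h β s) s3
  have e2 : Lb d β s (π β ζ).1 := hζ ▸ le_cut h β s
  have e3 : (π β ζ).2 = l := by rw [hζ]
  have e4 : Sf (e β) (Lb d β) ζ ξ s := fun r r1 r2 => by
    obtain ⟨k, x, a1, t, a2, a3, a4⟩ := hs.2 ζ ξ r r1 (FR.mono pb r2 (s5 ζ e1 e2 e3))
    exact ⟨t, a2, a3, k, x, a1, a4⟩
  obtain ⟨r, r1, r2, r3, r4⟩ := h.amalg_at s1 hq s2 ζ fun ξ' k => k1 ξ' k ▸ h.d_of_sf e4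
  exact ⟨r, r1, r2, c, ζ, r4, e1, pb.trans _ _ _ r3 e2, e3 ▸ s4⟩

theorem cross [Succ M ℕ W] [Succ M L K] (h : It M e d) (aux : Aux M nm tw π)
    {H : Cond K L → Prop} (g : Gen M N Fu (LeJ d fun _ => True) H) {β : K}
    (hs : SpecS (Lb d β) (nm β) tw β (π β) (e β))
    (h2 : ∀ r, Fu r → ∃ q, Fu q ∧ Lb d β q r ∧ Two M (e β) (Lb d β) q) {θ : L} {a a' : W → L}
    (ha : DefF N a) (ha' : DefF N a')
    (hok : ∀ η, OkS (Lb d β) (nm β) tw (Gb d β H) (θ, η, a η, a' η, 0)) :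
    ∃ η η' m, Vl (Lb d β) (nm β) (Gb d β H) (a η) m ∧ Vl (Lb d β) (nm β) (Gb d β H) (a' η') m := by
  have := h.def_d
  have := h.def_e
  have := aux.def_nm
  have htw := aux.def_tw
  have := aux.def_pi
  have : Nonempty L := ⟨θ⟩
  have pb := h.po_lb β
  have gf := gf_gb h g β
  have hnm : DefF M (fun z : L × ℕ × ℕ => nm β z.1 z.2) := by fun_prop
  have hπ : DefF M (π β) := by fun_prop
  have hf : ∀ ξ, Fu (π β ξ).1 := fun ξ => (aux.pi_below β ξ).1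
  have hb : ∀ y, ∀ x ∈ e β y, Fu x ∧ ∀ z ∈ x, z.1 < β := fun y x hx => (hs.1 y x hx).1
  have hn : ∀ η ξ, LeS (Lb d β) (nm β) tw (Gb d β H) (π β) η ξ ↔
      ∃ k, ∃ x ∈ e β (η, ξ, k), H x := fun η ξ =>
    (gf.name_iff hnm htw hπ hf (by fun_prop) hs η ξ).trans
      (exists_congr fun k => exists_congr fun x => and_congr_right fun hx =>
        gb_iff h g (hs.1 _ x hx).1)
  have hl := gf.le_iff hnm htw hπ hf
  have po : Po N (fun _ : L => True) (LeS (Lb d β) (nm β) tw (Gb d β H) (π β)) := by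
    refine ⟨by fun_prop, (g.eval (A := L × L) (R := fun z x => ∃ k, x ∈ e β (z.1, z.2, k))
      (by fun_prop)).congr_iff fun z => ?_, fun ξ => (hl ξ ξ).2 ?_, fun r q p k1 k2 => ?_⟩
    · rw [hn]
      exact ⟨fun ⟨x, k1, k, k2⟩ => ⟨k, x, k2, k1⟩, fun ⟨k, x, k2, k1⟩ => ⟨x, k1, k, k2⟩⟩
    · by_cases k : Vd (Lb d β) (nm β) tw (Gb d β H) (π β) ξ
      exacts [Or.inr ⟨k, fun _ k => k⟩, Or.inl k]
    · rw [hl] at k1 k2 ⊢
      exact k2.imp_right fun k2 => (k1.resolve_left fun k => k k2.1).imp_right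
        fun k z hz => k z (k2.2 z hz)
  have hI : DefF M (fun z : Item W L × Cond K L => Cross_In d nm tw π β z.1 z.2) := by
    unfold Cross_In
    fun_prop
  have hI' := g.eval (A := Item W L) hI
  obtain ⟨c, hc, Hc⟩ := choice (N := N)
    (R := fun (η : W) (c : ℕ) => ∃ q, H q ∧ Cross_In d nm tw π β (θ, η, a η, a' η, c) q)
    (hI'.comp (f := fun z : W × ℕ => ((θ, z.1, a z.1, a' z.1, z.2) : Item W L)) (by fun_prop))
    fun η => by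
      obtain ⟨x, ⟨-, p, k1, k2⟩, k3⟩ := (gf.ok_iff hnm htw _).2 (hok η)
      obtain ⟨q, k4, c, k5⟩ := g.below
        (R := fun r => ∃ c : ℕ, Cross_In d nm tw π β (θ, η, a η, a' η, c) r) (by fun_prop) k1
        fun q k4 k5 => Cross_dense h aux hs k4
          (OkF.mono pb (pb.trans _ _ _ (k5.mono fun _ _ => trivial) k2) k3)
      exact ⟨c, q, k4, k5⟩
  obtain ⟨η, η', hne, hcc⟩ : ∃ η η', η ≠ η' ∧ c η = c η' := by
    have hW : Succ N ℕ W := Succ.up (M := M) g.sub (g.cover h.ccc)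
    have := hW.ne
    by_contra k
    obtain ⟨b, hb⟩ := (Sm.of_inj (N := N) (L := ℕ) sm_self (p := fun _ : W => True) (by fun_prop)
      hc (fun _ _ => trivial) fun x y _ _ e => by_contra fun k' => k ⟨x, y, k', e⟩).bdd
        (K := W) DefF.id
    exact lt_irrefl b (hb b trivial)
  obtain ⟨p, k1, ξ, k2, m1, m2, m3⟩ := Hc η
  obtain ⟨p', k3, ξ', k4, n1, n2, n3⟩ := Hc η'
  obtain ⟨u, a1, a2⟩ := h.exists_pre g hb hn po
  obtain ⟨v, b1, b2⟩ := h.below g (β := β) (R := fun q => Two M (e β) (Lb d β) q) (by fun_prop)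
    (fun q s k k' => h.two_mono k' k) a1 fun q k _ => h2 q k
  obtain ⟨w, c1, c2, c3⟩ := h.dir g β a1 b1
  obtain ⟨r, r1, r2, r3⟩ := g.dir p p' k1 k3
  obtain ⟨s, s1, s2, s3⟩ := h.dir g β r1 c1
  obtain ⟨ρ, k5, k6⟩ := r2 _ k2 trivial
  obtain ⟨ρ', k7, k8⟩ := r3 _ k4 trivial
  obtain rfl : ρ = ρ' := g.valid r r1 _ k5 _ k7 rfl
  have k9 : ∀ ζ, d β ρ ζ r → LeS (Lb d β) (nm β) tw (Gb d β H) (π β) ρ ζ := fun ζ k =>
    (h.truth g hb hn).2 ⟨s, s1, (h.eq _ _ _ _).1 k s (g.valid s s1) s2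
      ⟨h.pre_mono a2 (pb.trans _ _ _ s3 c2), h.two_mono b2 (pb.trans _ _ _ s3 c3)⟩⟩
  obtain ⟨⟨v1, v2⟩, v3⟩ := ((hl _ _).1 (k9 _ k6)).resolve_left fun k => k ⟨m1, hf ξ, p, k1, m2⟩
  obtain ⟨-, v4⟩ := ((hl _ _).1 (k9 _ k8)).resolve_left fun k => k ⟨n1, hf ξ', p', k3, n2⟩
  rcases v1.2 _ (v3 _ m3) _ (v4 _ n3) rfl hcc hne with ⟨m, e1, -, e2, -⟩ | ⟨m, e1, -, e2, -⟩
  exacts [⟨η, η', m, ⟨_, v2, e1⟩, _, v2, e2⟩, ⟨η', η, m, ⟨_, v2, e1⟩, _, v2, e2⟩]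

end Pool.Agent.P.MP_5a7d1f_lc.Nik
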