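import Pool.Agent.P.MP_5a7d1f_lc.Gro.Defs

/-!
The Nikodym property, relativised to a transitive class `N` of sets.
-/

namespace Pool.Agent.P.MP_5a7d1f_lc.Nik

open Pool.Agent.P.MP_5a7d1f_lc.Gro

variable {A : Type} [BooleanAlgebra A]

/-- `μ` is finitely additive and bounded. -/
def IsMeasure (μ : A → ℝ) : Prop :=
  (∀ a b, a ⊓ b = ⊥ → μ (a ⊔ b) = μ a + μ b) ∧ ∃ C : ℝ, ∀ a, |μ a| ≤ C

/-- The total variation of `μ` is at most `C`. -/
def VarLe (μ : A → ℝ) (C : ℝ) : Prop :=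
  ∀ l : List A, l.Pairwise (fun a b => a ⊓ b = ⊥) → (l.map fun a => |μ a|).sum ≤ C

/-- `A` has the Nikodym property in `N`: every pointwise bounded sequence in `N` of measures
in `N` is bounded in total variation. -/
def NikodymIn (N : Set ZFSet.{0}) (c : A → ZFSet.{0}) : Prop :=
  ∀ μ : ℕ → Fns N c IsMeasure, funCode nat fnCode μ ∈ N →
    (∀ a, ∃ C : ℝ, ∀ n, |(μ n).1 a| ≤ C) → ∃ C : ℝ, ∀ n, VarLe (μ n).1 C

end Pool.Agent.P.MP_5a7d1f_lc.Nik
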