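import Pool.Agent.P.MP_5a7d1f_lc.Nik.FDefs

/-!
Truth lemmas.
-/

set_option synthInstance.maxSize 16384
set_option linter.unusedSectionVars false

namespace Pool.Agent.P.MP_5a7d1f_lc.Nik

open Pool.Agent.Lib.Typed Pool.Agent.P.MP_5a7d1f_lc.Gro

theorem Truth_dich {M : Set ZFSet.{0}} [ZFC M] {X : Type} [Coded M X] {V G : X → Prop}
    {Le : X → X → Prop} (g : GF M V Le G) {R : X → Prop} (hR : DefF M R) :
    ∃ q, G q ∧ (R q ∨ ∀ r, V r → Le r q → ¬ R r) := by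
  obtain ⟨p, hp⟩ := g.ne
  have h1 := g.po.defV
  have h2 := g.po.defLe
  refine g.below (R := fun q => R q ∨ ∀ r, V r → Le r q → ¬ R r)
    (by simp only [all_eq, imp_eq]; fun_prop) hp fun q k1 _ => ?_
  by_cases h : ∃ r, V r ∧ Le r q ∧ R r
  · obtain ⟨r, a1, a2, a3⟩ := h
    exact ⟨r, a1, a2, Or.inl a3⟩
  · exact ⟨q, k1, g.po.refl q, Or.inr fun r a1 a2 a3 => h ⟨r, a1, a2, a3⟩⟩

theorem Truth_list {M : Set ZFSet.{0}} [ZFC M] {X Y : Type} [Coded M X] {V G : X → Prop}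
    {Le : X → X → Prop} (g : GF M V Le G) {P : Y → X → Prop}
    (hP : ∀ z q x, Le q x → P z x → P z q) (l : List Y) (h : ∀ z ∈ l, ∃ x, G x ∧ P z x) :
    ∃ x, G x ∧ ∀ z ∈ l, P z x := by
  induction l with
  | nil => exact g.ne.imp fun x hx => ⟨hx, by simp⟩
  | cons a l ih =>
    obtain ⟨x, a1, a2⟩ := h a List.mem_cons_self
    obtain ⟨y, b1, b2⟩ := ih fun z hz => h z (List.mem_cons_of_mem _ hz)
    obtain ⟨r, c1, c2, c3⟩ := g.dir x y a1 b1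
    exact ⟨r, c1, List.forall_mem_cons.2 ⟨hP _ _ _ c2 a2, fun z hz => hP _ _ _ c3 (b2 z hz)⟩⟩

variable {M : Set ZFSet.{0}} [ZFC M] [Enum M] {W K L : Type} [Coded M W] [Coded M K] [Coded M L]
  [LinearOrder W] [LinearOrder K]

variable {le : Cond K L → Cond K L → Prop} {n : L → ℕ × ℕ → List (Cond K L)} {tw : L → W → L}
  {G : Cond K L → Prop} (g : GF M Fu le G) (hn : DefF M (fun z : L × ℕ × ℕ => n z.1 z.2))
include g hn

theorem Truth_vl2 {a b : L} {m m' : ℕ} {p : Cond K L} (hp : G p) (h : Vl le n G a m)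
    (h' : Vl le n G b m') : ∃ r, G r ∧ le r p ∧ MemF le n a m r ∧ MemF le n b m' r := by
  obtain ⟨s, a1, a2⟩ := h
  obtain ⟨s', b1, b2⟩ := h'
  obtain ⟨t, c1, c2, c3⟩ := g.dir s s' a1 b1
  obtain ⟨r, d1, d2, d3⟩ := g.dir p t hp c1
  exact ⟨r, d1, d2, (a2.mono g.po c2).mono g.po d3, (b2.mono g.po c3).mono g.po d3⟩

theorem GF.inf_iff (a b : L) : (∃ x, G x ∧ InfF le n a b x) ↔
    Unb fun m => Vl le n G a m ∧ Vl le n G b m := by
  have hle := g.po.defLe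
  have hV := g.po.defV
  constructor
  · rintro ⟨x, hx, h⟩ m0
    obtain ⟨q, hq, m, k1, k2, k3⟩ := g.below
      (R := fun r => ∃ m, m0 ≤ m ∧ MemF le n a m r ∧ MemF le n b m r) (by fun_prop) hx
      fun q k1 k2 => h q m0 k1 k2
    exact ⟨m, k1, ⟨q, hq, k2⟩, q, hq, k3⟩
  · intro h
    obtain ⟨q, hq, k | k⟩ := Truth_dich g (R := InfF le n a b) (by fun_prop)
    · exact ⟨q, hq, k⟩
    · exfalso
      obtain ⟨p, hp, m0, H⟩ := g.below (R := fun p => ∃ m0, ∀ r, Fu r → le r p →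
        ¬ ∃ m, m0 ≤ m ∧ MemF le n a m r ∧ MemF le n b m r)
        (by simp only [all_eq, imp_eq]; fun_prop) hq fun r k1 k2 => by
          by_contra hc
          refine k r k1 k2 fun p m0 a1 a2 => ?_
          by_contra hd
          exact hc ⟨p, a1, a2, m0, fun r' b1 b2 b3 => hd ⟨r', b1, b2, b3⟩⟩
      obtain ⟨m, a1, a2, a3⟩ := h m0
      obtain ⟨r, b1, b2, b3, b4⟩ := Truth_vl2 g hn hp a2 a3
      exact H r (g.valid r b1) b2 ⟨m, a1, b3, b4⟩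

theorem GF.fin_iff (a b : L) : (∃ x, G x ∧ FinF le n a b x) ↔
    ¬ Unb fun m => Vl le n G a m ∧ Vl le n G b m := by
  have hle := g.po.defLe
  constructor
  · rintro ⟨x, hx, h⟩ hu
    obtain ⟨y, hy, h'⟩ := (g.inf_iff hn a b).2 hu
    obtain ⟨r, a1, a2, a3⟩ := g.dir x y hx hy
    exact h r (g.valid r a1) a2 (h'.mono g.po a3)
  · intro h
    obtain ⟨q, hq, k | k⟩ := Truth_dich g (R := InfF le n a b) (by fun_prop)
    · exact absurd ((g.inf_iff hn a b).1 ⟨q, hq, k⟩) h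
    · exact ⟨q, hq, k⟩

variable [WO M W] (htw : DefF M (fun z : L × W => tw z.1 z.2))
include htw

theorem GF.dec_iff (θ : L) : (∃ x, G x ∧ DecF le n tw θ x) ↔ DecS le n tw G θ := by
  have hle := g.po.defLe
  have hV := g.po.defV
  constructor
  · rintro ⟨x, hx, h⟩ c c'
    obtain ⟨q, hq, k⟩ := g.below (R := fun r => (∃ m, MemF le n c m r ∧ MemF le n c' m r) ∨
      (∃ h, ∀ η, h ≤ η → FinF le n (tw θ η) c r) ∨ ∃ h, ∀ η, h ≤ η → FinF le n (tw θ η) c' r)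
      (by simp only [all_eq, imp_eq]; fun_prop) hx fun q k1 k2 => h c c' q k1 k2
    rcases k with ⟨m, k1, k2⟩ | ⟨h, k⟩ | ⟨h, k⟩
    · exact Or.inl ⟨m, ⟨q, hq, k1⟩, q, hq, k2⟩
    · exact Or.inr (Or.inl ⟨h, fun η e => (g.fin_iff hn _ _).1 ⟨q, hq, k η e⟩⟩)
    · exact Or.inr (Or.inr ⟨h, fun η e => (g.fin_iff hn _ _).1 ⟨q, hq, k η e⟩⟩)
  · intro h
    have key : ∀ (c : L) (h : W) (p : Cond K L), G p →
        (∀ η, h ≤ η → ¬ Unb fun m => Vl le n G (tw θ η) m ∧ Vl le n G c m) →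
        ∃ r, Fu r ∧ le r p ∧ ∀ η, h ≤ η → FinF le n (tw θ η) c r := by
      intro c h p hp H
      obtain ⟨r, a1, a2, a3 | ⟨η, a3, a4⟩⟩ := g.below (R := fun r => le r p ∧
        ((∀ η, h ≤ η → FinF le n (tw θ η) c r) ∨ ∃ η, h ≤ η ∧ InfF le n (tw θ η) c r))
        (by simp only [all_eq, imp_eq]; fun_prop) hp fun r k1 k2 => by
          by_cases e : ∃ η, h ≤ η ∧ ∃ r', Fu r' ∧ le r' r ∧ InfF le n (tw θ η) c r'
          · obtain ⟨η, b1, r', b2, b3, b4⟩ := e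
            exact ⟨r', b2, b3, g.po.trans _ _ _ b3 k2, Or.inr ⟨η, b1, b4⟩⟩
          · exact ⟨r, k1, g.po.refl r, k2,
              Or.inl fun η b1 r' b2 b3 b4 => e ⟨η, b1, r', b2, b3, b4⟩⟩
      · exact ⟨r, g.valid r a1, a2, a3⟩
      · exact absurd ((g.inf_iff hn _ _).1 ⟨r, a1, a4⟩) (H η a3)
    obtain ⟨q, hq, k | k⟩ := Truth_dich g (R := DecF le n tw θ) (by fun_prop)
    · exact ⟨q, hq, k⟩
    · exfalso
      obtain ⟨p, hp, c, c', H⟩ := g.below (R := fun p => ∃ c c', ∀ r, Fu r → le r p →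
        ¬ ((∃ m, MemF le n c m r ∧ MemF le n c' m r) ∨
          (∃ h, ∀ η, h ≤ η → FinF le n (tw θ η) c r) ∨
            ∃ h, ∀ η, h ≤ η → FinF le n (tw θ η) c' r))
        (by simp only [all_eq, imp_eq]; fun_prop) hq fun r k1 k2 => by
          by_contra hc
          refine k r k1 k2 fun c c' p a1 a2 => ?_
          by_contra hd
          exact hc ⟨p, a1, a2, c, c', fun r' b1 b2 b3 => hd ⟨r', b1, b2, b3⟩⟩
      rcases h c c' with ⟨m, a1, a2⟩ | ⟨h, a⟩ | ⟨h, a⟩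
      · obtain ⟨r, b1, b2, b3, b4⟩ := Truth_vl2 g hn hp a1 a2
        exact H r (g.valid r b1) b2 (Or.inl ⟨m, b3, b4⟩)
      · obtain ⟨r, b1, b2, b3⟩ := key c h p hp a
        exact H r b1 b2 (Or.inr (Or.inl ⟨h, b3⟩))
      · obtain ⟨r, b1, b2, b3⟩ := key c' h p hp a
        exact H r b1 b2 (Or.inr (Or.inr ⟨h, b3⟩))

theorem GF.ok_iff (z : Item W L) : (∃ x, G x ∧ OkF le n tw z x) ↔ OkS le n tw G z := by
  constructor
  · rintro ⟨x, hx, h1, h2, h3⟩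
    exact ⟨(g.dec_iff hn htw _).1 ⟨x, hx, h1⟩, (g.inf_iff hn _ _).1 ⟨x, hx, h2⟩,
      (g.inf_iff hn _ _).1 ⟨x, hx, h3⟩⟩
  · rintro ⟨h1, h2, h3⟩
    obtain ⟨x, a1, a2⟩ := (g.dec_iff hn htw _).2 h1
    obtain ⟨y, b1, b2⟩ := (g.inf_iff hn _ _).2 h2
    obtain ⟨u, c1, c2⟩ := (g.inf_iff hn _ _).2 h3
    obtain ⟨r, d1, d2, d3⟩ := g.dir x y a1 b1
    obtain ⟨t, e1, e2, e3⟩ := g.dir r u d1 c1
    exact ⟨t, e1, (a2.mono g.po d2).mono g.po e2, (b2.mono g.po d3).mono g.po e2,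
      c2.mono g.po e3⟩

theorem GF.mv_iff (l : List (Item W L)) : (∃ x, G x ∧ MV le n tw (x, l)) ↔ SV le n tw G l := by
  have cr : ∀ z z' : Item W L, (∃ x, G x ∧ CrF le n tw z z' x) ↔ CrS le n tw G z z' := by
    intro z z'
    constructor
    · rintro ⟨x, hx, m, h1, h2, h3, h4⟩
      exact ⟨m, ⟨x, hx, h1⟩, ⟨x, hx, h2⟩, ⟨x, hx, h3⟩, x, hx, h4⟩
    · rintro ⟨m, h1, h2, h3, h4⟩
      obtain ⟨p, hp⟩ := g.ne
      obtain ⟨r, a1, -, a3, a4⟩ := Truth_vl2 g hn hp h1 h2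
      obtain ⟨t, b1, b2, b3, b4⟩ := Truth_vl2 g hn a1 h3 h4
      exact ⟨t, b1, m, a3.mono g.po b2, a4.mono g.po b2, b3, b4⟩
  constructor
  · rintro ⟨x, hx, h1, h2⟩
    exact ⟨fun z hz => (g.ok_iff hn htw z).1 ⟨x, hx, h1 z hz⟩, fun z hz z' hz' e1 e2 e3 =>
      (h2 z hz z' hz' e1 e2 e3).imp (fun k => (cr _ _).1 ⟨x, hx, k⟩) fun k => (cr _ _).1 ⟨x, hx, k⟩⟩
  · rintro ⟨h1, h2⟩
    obtain ⟨x, a1, a2⟩ := Truth_list g (P := fun z x => OkF le n tw z x)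
      (fun z q x k h => h.mono g.po k) l fun z hz => (g.ok_iff hn htw z).2 (h1 z hz)
    have mono : ∀ (z z' : Item W L) (q x : Cond K L), le q x →
        (z.1 = z'.1 → z.2.2.2.2 = z'.2.2.2.2 → z.2.1 ≠ z'.2.1 →
          CrF le n tw z z' x ∨ CrF le n tw z' z x) →
        z.1 = z'.1 → z.2.2.2.2 = z'.2.2.2.2 → z.2.1 ≠ z'.2.1 →
          CrF le n tw z z' q ∨ CrF le n tw z' z q := fun z z' q x k h e1 e2 e3 =>
      (h e1 e2 e3).imp (fun h => h.mono g.po k) fun h => h.mono g.po k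
    obtain ⟨y, b1, b2⟩ := Truth_list g (P := fun (z : Item W L) x => ∀ z' ∈ l, z.1 = z'.1 →
      z.2.2.2.2 = z'.2.2.2.2 → z.2.1 ≠ z'.2.1 → CrF le n tw z z' x ∨ CrF le n tw z' z x)
      (fun z q x k h z' hz' => mono z z' q x k (h z' hz')) l fun z hz =>
        Truth_list g (P := fun (z' : Item W L) x => z.1 = z'.1 →
          z.2.2.2.2 = z'.2.2.2.2 → z.2.1 ≠ z'.2.1 → CrF le n tw z z' x ∨ CrF le n tw z' z x)
          (fun z' q x k h => mono z z' q x k h) l fun z' hz' => by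
            by_cases e : z.1 = z'.1 ∧ z.2.2.2.2 = z'.2.2.2.2 ∧ z.2.1 ≠ z'.2.1
            · rcases h2 z hz z' hz' e.1 e.2.1 e.2.2 with k | k
              · exact ((cr _ _).2 k).imp fun x h => ⟨h.1, fun _ _ _ => Or.inl h.2⟩
              · exact ((cr _ _).2 k).imp fun x h => ⟨h.1, fun _ _ _ => Or.inr h.2⟩
            · exact g.ne.imp fun x hx => ⟨hx, fun e1 e2 e3 => absurd ⟨e1, e2, e3⟩ e⟩
    obtain ⟨r, c1, c2, c3⟩ := g.dir x y a1 b1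
    exact ⟨r, c1, fun z hz => (a2 z hz).mono g.po c2,
      fun z hz z' hz' => mono z z' r y c3 (b2 z hz z' hz')⟩

variable {π : L → Elt W K L} (hπ : DefF M π) (hf : ∀ ξ, Fu (π ξ).1)
include hπ hf

theorem GF.le_iff (η ξ : L) : LeS le n tw G π η ξ ↔
    ¬ Vd le n tw G π ξ ∨ (Vd le n tw G π η ∧ ∀ z ∈ (π ξ).2, z ∈ (π η).2) := by
  have hle := g.po.defLe
  constructor
  · rintro ⟨q, hq, h | h | h⟩
    · exact Or.inl fun k => h k.1
    · refine Or.inl fun k => h ?_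
      obtain ⟨r, a1, a2, a3⟩ := g.dir q _ hq k.2
      exact ⟨r, g.valid r a1, a2, a3⟩
    · exact Or.inr ⟨⟨h.1, g.up q _ hq (hf η) h.2.1⟩, h.2.2⟩
  · rintro (h | h)
    · obtain ⟨p, hp⟩ := g.ne
      by_cases e : MV le n tw (π ξ)
      · obtain ⟨q, hq, k | k⟩ := Truth_dich g (R := fun q => le q (π ξ).1) (by fun_prop)
        · exact absurd ⟨e, g.up q _ hq (hf ξ) k⟩ h
        · exact ⟨q, hq, Or.inr (Or.inl fun ⟨r, a1, a2, a3⟩ => k r a1 a2 a3)⟩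
      · exact ⟨p, hp, Or.inl e⟩
    · exact ⟨_, h.1.2, Or.inr (Or.inr ⟨h.1.1, g.po.refl _, h.2⟩)⟩

theorem GF.name_iff {β : K} {e : L × L × ℕ → List (Cond K L)} (he : DefF M e)
    (hs : SpecS le n tw β π e) (η ξ : L) :
    LeS le n tw G π η ξ ↔ ∃ k, ∃ x ∈ e (η, ξ, k), G x := by
  have hle := g.po.defLe
  constructor
  · rintro ⟨q, hq, h⟩
    obtain ⟨r, hr, k, x, a1, a2⟩ := g.below (R := fun r => ∃ k, ∃ x ∈ e (η, ξ, k), le r x)
      (by fun_prop) hq fun r k1 k2 => by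
        obtain ⟨k, x, a1, r', a2, a3, a4⟩ := hs.2 η ξ r k1 (h.mono g.po k2)
        exact ⟨r', a2, a3, k, x, a1, a4⟩
    exact ⟨k, x, a1, g.up r x hr (hs.1 _ x a1).1.1 a2⟩
  · rintro ⟨k, x, a1, a2⟩
    exact ⟨x, a2, (hs.1 _ x a1).2⟩

end Pool.Agent.P.MP_5a7d1f_lc.Nik
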