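import Pool.Agent.P.MP_5a7d1f_lc.Nik.SCcc
import Pool.Agent.P.MP_5a7d1f_lc.Nik.Truth
import Pool.Agent.P.MP_5a7d1f_lc.Nik.Two

/-!
The iterand is ccc.
-/

set_option synthInstance.maxSize 16384
set_option linter.unusedSectionVars false

namespace Pool.Agent.P.MP_5a7d1f_lc.Nik

open Pool.Agent.Lib.Forcing Pool.Agent.Lib.Typed Pool.Agent.P.MP_5a7d1f_lc.Gro

variable {M : Set ZFSet.{0}} [ZFC M] [Enum M] {W K L : Type} [Coded M W] [Coded M K] [Coded M L]
  [LinearOrder W] [LinearOrder K]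

variable {nm : K → L → ℕ × ℕ → List (Cond K L)} {tw : L → W → L} {π : K → L → Elt W K L}

variable {N : Set ZFSet.{0}} [ZFC N] [Coded N W] [Coded N K] [Coded N L] [Same M N W] [Same M N K]
  [Same M N L] {e : K → L × L × ℕ → List (Cond K L)} {d : K → L → L → Cond K L → Prop}

theorem ext_name [hK : Succ M L K] (h : It M e d) (aux : Aux M nm tw π)
    {β : K} {G : Cond K L → Prop} (g : Gen M N Fu (Lb d β) G) {Z : ℕ → Prop} (hZ : DefF N Z) :
    ∃ c, ∀ m, Vl (Lb d β) (nm β) G c m ↔ Z m := by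
  have := hK.big
  have := Big.nonempty M L
  obtain ⟨n, h1, h2, h3⟩ := g.name (h.ccc_lb β) hZ
  obtain ⟨c, hc⟩ := aux.nm_all β (fun z => (n z.1 z.2).map (cut β)) (by fun_prop) fun z x hx => by
    obtain ⟨y, hy, rfl⟩ := List.mem_map.1 hx
    exact below_cut β (h2 _ _ y hy)
  refine ⟨c, fun m => Iff.trans ?_ (h3 m).symm⟩
  unfold Vl MemF
  rw [hc]
  refine ⟨fun ⟨s, k1, k, y, k2, k3⟩ => ?_, fun ⟨k, x, k1, k2⟩ =>
    ⟨x, k2, k, cut β x, List.mem_map.2 ⟨x, k1, rfl⟩, le_cut h β x⟩⟩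
  obtain ⟨x, k4, rfl⟩ := List.mem_map.1 k2
  exact ⟨k, x, k4, g.up s x k1 (h2 _ _ x k4) (g.po.trans _ _ _ k3 (cut_le h β x))⟩

theorem ext_ccc [Enum N] [hW : Succ M ℕ W] [hK : Succ M L K] (h : It M e d) (aux : Aux M nm tw π)
    {β : K} {G : Cond K L → Prop} (g : Gen M N Fu (Lb d β) G) :
    Ccc N (SV (Lb d β) (nm β) tw G) fun q p : List (Item W L) => ∀ x ∈ p, x ∈ q := by
  have := hK.big
  have := Big.nonempty M L
  have hW' : Succ N ℕ W := Succ.up g.sub (g.cover (h.ccc_lb β))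
  have h1 := aux.def_nm
  have h2 := aux.def_tw
  have h3 := h.def_d
  have hn : DefF M (fun z : L × ℕ × ℕ => nm β z.1 z.2) := by fun_prop
  have hV : DefF N (fun z : L × ℕ => Vl (Lb d β) (nm β) G z.1 z.2) :=
    g.eval (A := L × ℕ) (R := fun z s => MemF (Lb d β) (nm β) z.1 z.2 s) (by fun_prop)
  have hT : DefF N (fun z : L × W => tw z.1 z.2) := DefF.up g.sub h2
  have hO : DefF N (OkS (Lb d β) (nm β) tw G) :=
    (g.eval (A := Item W L) (R := fun z s => OkF (Lb d β) (nm β) tw z s) (by fun_prop)).congr_iff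
      fun z => (GF.of_gen g).ok_iff hn h2 z
  have hA : DefF N (fun z : Item W L × ℕ => Vl (Lb d β) (nm β) G (tw z.1.1 z.1.2.1) z.2) :=
    hV.comp (f := fun z : Item W L × ℕ => (tw z.1.1 z.1.2.1, z.2)) (by fun_prop)
  have hB : DefF N (fun z : Item W L × ℕ => Vl (Lb d β) (nm β) G z.1.2.2.1 z.2) :=
    hV.comp (f := fun z : Item W L × ℕ => (z.1.2.2.1, z.2)) (by fun_prop)
  have hC : DefF N (fun z : Item W L × ℕ => Vl (Lb d β) (nm β) G z.1.2.2.2.1 z.2) :=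
    hV.comp (f := fun z : Item W L × ℕ => (z.1.2.2.2.1, z.2)) (by fun_prop)
  have key := seal_ccc (N := N) (Ok := OkS (Lb d β) (nm β) tw G) (th := fun z => z.1)
    (rk := fun z => z.2.1) (col := fun z => z.2.2.2.2)
    (w := fun z m => Vl (Lb d β) (nm β) G z.2.2.1 m ∧ Vl (Lb d β) (nm β) G (tw z.1 z.2.1) m)
    (w' := fun z m => Vl (Lb d β) (nm β) G z.2.2.2.1 m ∧ Vl (Lb d β) (nm β) G (tw z.1 z.2.1) m)
    hO (by fun_prop) (by fun_prop) (by fun_prop) (hB.and hA) (hC.and hA) (fun x hx => hx.2)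
    fun θ P hP => by
      by_cases k : DecS (Lb d β) (nm β) tw G θ
      · obtain ⟨c, hc⟩ := ext_name h aux g hP
        obtain ⟨c', hc'⟩ := ext_name h aux g hP.not
        rcases k c c' with ⟨m, k1, k2⟩ | ⟨η, k1⟩ | ⟨η, k1⟩
        · exact ((hc' m).1 k2 ((hc m).1 k1)).elim
        · refine ⟨η, Or.inr fun x _ k2 k3 => ?_⟩
          have k4 := (not_unb.1 (k1 _ k3)).trans (Alm.of_le fun m k5 => mt (hc m).2 k5)
          rw [← k2] at k4
          exact ⟨(Alm.of_le fun m k5 => k5.2).trans k4, (Alm.of_le fun m k5 => k5.2).trans k4⟩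
        · refine ⟨η, Or.inl fun x _ k2 k3 => ?_⟩
          have k4 := (not_unb.1 (k1 _ k3)).trans
            (Alm.of_le fun m k5 => by_contra fun k6 : ¬ P m => k5 ((hc' m).2 k6))
          rw [← k2] at k4
          exact ⟨(Alm.of_le fun m k5 => k5.2).trans k4, (Alm.of_le fun m k5 => k5.2).trans k4⟩
      · exact ⟨hW.ne.some, Or.inl fun x k1 k2 _ => (k (k2 ▸ k1.1)).elim⟩
  simp only [and_assoc] at key
  exact key

theorem seal_po_ccc [Enum N] [Succ M ℕ W] [Succ M L K] (h : It M e d) (aux : Aux M nm tw π)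
    {β : K} {G : Cond K L → Prop} (g : Gen M N Fu (Lb d β) G) :
    Po N (fun _ => True) (LeS (Lb d β) (nm β) tw G (π β)) ∧
      Ccc N (fun _ => True) (LeS (Lb d β) (nm β) tw G (π β)) := by
  have : Big M L := Succ.big K
  have := Big.nonempty M L
  have h1 := aux.def_nm
  have h2 := aux.def_tw
  have h3 := h.def_d
  have h4 := aux.def_pi
  have hn : DefF M (fun z : L × ℕ × ℕ => nm β z.1 z.2) := by fun_prop
  have hp : DefF M (π β) := by fun_prop
  have hL := (GF.of_gen g).le_iff hn h2 hp fun ξ => (aux.pi_below β ξ).1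
  have hM := (GF.of_gen g).mv_iff hn h2
  have po : Po N (fun _ => True) (LeS (Lb d β) (nm β) tw G (π β)) := by
    refine ⟨by fun_prop, g.eval (A := L × L)
      (R := fun z q => FR (Lb d β) (nm β) tw (π β) z.1 z.2 q) (by fun_prop), fun p => ?_,
      fun r q p k1 k2 => ?_⟩
    · exact (hL p p).2 ((em _).symm.imp_right fun k => ⟨k, fun _ k' => k'⟩)
    · refine (hL r p).2 (((hL q p).1 k2).imp_right fun k3 => ?_)
      have k4 := ((hL r q).1 k1).resolve_left (not_not.2 k3.1)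
      exact ⟨k4.1, fun z hz => k4.2 z (k3.2 z hz)⟩
  refine ⟨po, fun A _ hA => ?_⟩
  by_cases k : ∀ ξ, A.Mem ξ → Vd (Lb d β) (nm β) tw G (π β) ξ
  · have hp' : DefF N (π β) := DefF.up g.sub hp
    refine (ext_ccc h aux g).index' A.def_mem (f := fun ξ => (π β ξ).2) (by fun_prop)
      (fun ξ hξ => ⟨(hM _).1 ⟨_, (k ξ hξ).2, (k ξ hξ).1⟩, fun _ k' => k'⟩)
      fun p q hp hq hne ⟨l, k1, k2, k3⟩ => ?_
    obtain ⟨x, k4, k5⟩ := (hM l).2 k1
    have k6 := below_cut β (g.valid x k4)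
    obtain ⟨ζ, hζ⟩ := aux.pi_all β (cut β x) l k6
    have k7 : Vd (Lb d β) (nm β) tw G (π β) ζ := by
      unfold Vd
      rw [hζ]
      exact ⟨MV.mono g.po (cut_le h β x) k5, g.up x _ k4 k6.1 (le_cut h β x)⟩
    exact hA p q hp hq hne ⟨ζ, trivial, (hL ζ p).2 (Or.inr ⟨k7, by rw [hζ]; exact k2⟩),
      (hL ζ q).2 (Or.inr ⟨k7, by rw [hζ]; exact k3⟩)⟩
  · obtain ⟨ξ, k1⟩ := not_forall.1 k
    obtain ⟨k2, k3⟩ := Classical.not_imp.1 k1
    exact (ctble_single ξ).mono fun p hp => by_contra fun k4 =>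
      hA p ξ hp k2 k4 ⟨p, trivial, po.refl p, (hL p ξ).2 (Or.inl k3)⟩

theorem two_dense [Succ M ℕ W] [Succ M L K] (hM : IsZFModel M) (hc : M.Countable) (h : It M e d)
    (aux : Aux M nm tw π) {β : K} (hs : SpecS (Lb d β) (nm β) tw β (π β) (e β)) (r : Cond K L)
    (hr : Fu r) : ∃ q, Fu q ∧ Lb d β q r ∧ Two M (e β) (Lb d β) q := by
  obtain ⟨N, _, _, G, g, hG⟩ := exists_gen' hM hc (h.po_lb β) hr
  let cW : Coded N W := ⟨cd M, Coded.inj, g.sub Coded.mem⟩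
  let cK : Coded N K := ⟨cd M, Coded.inj, g.sub Coded.mem⟩
  let cL : Coded N L := ⟨cd M, Coded.inj, g.sub Coded.mem⟩
  have : Same M N W := ⟨fun _ => rfl⟩
  have : Same M N K := ⟨fun _ => rfl⟩
  have : Same M N L := ⟨fun _ => rfl⟩
  have h1 := aux.def_nm
  have h4 := aux.def_pi
  have h5 := h.def_e
  obtain ⟨po, cc⟩ := seal_po_ccc h aux g
  obtain ⟨q, k1, k2⟩ := two_of_gen h g (fun a x hx => (hs.1 a x hx).1.1)
    ((GF.of_gen g).name_iff (by fun_prop) aux.def_tw (by fun_prop)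
      (fun ξ => (aux.pi_below β ξ).1) (by fun_prop) hs) po cc
  obtain ⟨s, k3, k4, k5⟩ := g.dir q r k1 hG
  exact ⟨s, g.valid s k3, k5, h.two_mono k2 k4⟩

end Pool.Agent.P.MP_5a7d1f_lc.Nik
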