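import Pool.Agent.P.MP_5a7d1f_lc.Gro.MA
import Pool.Agent.P.MP_5a7d1f_lc.Nik.Basic

/-!
The sealing forcing as an iterand: names, forcing relations and their meaning.
-/

set_option synthInstance.maxSize 16384
set_option linter.unusedSectionVars false

namespace Pool.Agent.P.MP_5a7d1f_lc.Nik

open Pool.Agent.Lib.Typed Pool.Agent.P.MP_5a7d1f_lc.Gro

/-- An item: index of a tower, rank, indices of two names, colour. -/
abbrev Item (W L : Type) : Type := L × W × L × L × ℕ

/-- An element of the iterand: a condition and a list of items. -/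
abbrev Elt (W K L : Type) : Type := Cond K L × List (Item W L)

/-- All functions of `M` from `W` to `L` are listed by `L`. -/
def PowL (M : Set ZFSet.{0}) [ZFC M] (W L : Type) [Coded M W] [Coded M L] : Prop :=
  ∃ tw : L → W → L, DefF M (fun z : L × W => tw z.1 z.2) ∧
    ∀ f : W → L, DefF M f → ∃ θ, tw θ = f

section
variable {W K L : Type} [LinearOrder W] [LinearOrder K]

/-- A condition with support below `β`. -/
def Below (β : K) (x : Cond K L) : Prop := Fu x ∧ ∀ z ∈ x, z.1 < β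

/-- `β` is not a successor. -/
def IsLim (β : K) : Prop := ∀ γ, γ < β → ∃ δ, γ < δ ∧ δ < β

variable (le : Cond K L → Cond K L → Prop) (n : L → ℕ × ℕ → List (Cond K L)) (tw : L → W → L)

/-- `s` forces `m` into the set with name `a`. -/
def MemF (a : L) (m : ℕ) (s : Cond K L) : Prop := ∃ k, ∃ y ∈ n a (m, k), le s y

/-- `x` forces that the sets with names `a` and `b` have an infinite intersection. -/
def InfF (a b : L) (x : Cond K L) : Prop :=
  ∀ q m0, Fu q → le q x → ∃ r, Fu r ∧ le r q ∧ ∃ m, m0 ≤ m ∧ MemF le n a m r ∧ MemF le n b m r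

/-- `x` forces that the sets with names `a` and `b` have a finite intersection. -/
def FinF (a b : L) (x : Cond K L) : Prop := ∀ q, Fu q → le q x → ¬ InfF le n a b q

/-- `x` forces that the tower `θ` decides all named sets. -/
def DecF (θ : L) (x : Cond K L) : Prop :=
  ∀ c c' q, Fu q → le q x → ∃ r, Fu r ∧ le r q ∧ ((∃ m, MemF le n c m r ∧ MemF le n c' m r) ∨
    (∃ h, ∀ η, h ≤ η → FinF le n (tw θ η) c r) ∨ ∃ h, ∀ η, h ≤ η → FinF le n (tw θ η) c' r)

/-- `x` forces that the item `z` is admissible. -/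
def OkF (z : Item W L) (x : Cond K L) : Prop :=
  DecF le n tw z.1 x ∧ InfF le n z.2.2.1 (tw z.1 z.2.1) x ∧ InfF le n z.2.2.2.1 (tw z.1 z.2.1) x

/-- `x` forces that the first set of `z` meets the second set of `z'`. -/
def CrF (z z' : Item W L) (x : Cond K L) : Prop :=
  ∃ m, MemF le n z.2.2.1 m x ∧ MemF le n (tw z.1 z.2.1) m x ∧ MemF le n z'.2.2.2.1 m x ∧
    MemF le n (tw z'.1 z'.2.1) m x

/-- The condition forces that the list is a condition of the sealing forcing. -/
def MV (u : Elt W K L) : Prop :=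
  (∀ z ∈ u.2, OkF le n tw z u.1) ∧ ∀ z ∈ u.2, ∀ z' ∈ u.2, z.1 = z'.1 → z.2.2.2.2 = z'.2.2.2.2 →
    z.2.1 ≠ z'.2.1 → CrF le n tw z z' u.1 ∨ CrF le n tw z' z u.1

/-- `q` forces that `η` is below `ξ` in the iterand. -/
def FR (π : L → Elt W K L) (η ξ : L) (q : Cond K L) : Prop :=
  ¬ MV le n tw (π ξ) ∨ ¬ Cmp Fu le q (π ξ).1 ∨
    (MV le n tw (π η) ∧ le q (π η).1 ∧ ∀ z ∈ (π ξ).2, z ∈ (π η).2)

/-- `e` is a name for the order of the iterand. -/
def SpecS (β : K) (π : L → Elt W K L) (e : L × L × ℕ → List (Cond K L)) : Prop :=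
  (∀ a, ∀ x ∈ e a, Below β x ∧ FR le n tw π a.1 a.2.1 x) ∧
    ∀ η ξ q, Fu q → FR le n tw π η ξ q → ∃ k, ∃ x ∈ e (η, ξ, k), Cmp Fu le q x

variable (G : Cond K L → Prop)

/-- The value of a name. -/
def Vl (a : L) (m : ℕ) : Prop := ∃ s, G s ∧ MemF le n a m s

/-- The tower `θ` decides all named sets. -/
def DecS (θ : L) : Prop :=
  ∀ c c', (∃ m, Vl le n G c m ∧ Vl le n G c' m) ∨
    (∃ h, ∀ η, h ≤ η → ¬ Unb fun m => Vl le n G (tw θ η) m ∧ Vl le n G c m) ∨
      ∃ h, ∀ η, h ≤ η → ¬ Unb fun m => Vl le n G (tw θ η) m ∧ Vl le n G c' m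

/-- The item is admissible. -/
def OkS (z : Item W L) : Prop :=
  DecS le n tw G z.1 ∧ (Unb fun m => Vl le n G z.2.2.1 m ∧ Vl le n G (tw z.1 z.2.1) m) ∧
    Unb fun m => Vl le n G z.2.2.2.1 m ∧ Vl le n G (tw z.1 z.2.1) m

/-- The first set of `z` meets the second set of `z'`. -/
def CrS (z z' : Item W L) : Prop :=
  ∃ m, Vl le n G z.2.2.1 m ∧ Vl le n G (tw z.1 z.2.1) m ∧ Vl le n G z'.2.2.2.1 m ∧
    Vl le n G (tw z'.1 z'.2.1) m

/-- The list is a condition of the sealing forcing. -/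
def SV (l : List (Item W L)) : Prop :=
  (∀ z ∈ l, OkS le n tw G z) ∧ ∀ z ∈ l, ∀ z' ∈ l, z.1 = z'.1 → z.2.2.2.2 = z'.2.2.2.2 →
    z.2.1 ≠ z'.2.1 → CrS le n tw G z z' ∨ CrS le n tw G z' z

/-- The order of the iterand in the extension. -/
def LeS (π : L → Elt W K L) (η ξ : L) : Prop := ∃ q, G q ∧ FR le n tw π η ξ q

/-- `ξ` codes a condition of the sealing forcing in the extension. -/
def Vd (π : L → Elt W K L) (ξ : L) : Prop := MV le n tw (π ξ) ∧ G (π ξ).1

/-- The trace of a generic filter on the iteration up to stage `β`. -/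
def Gb (d : K → L → L → Cond K L → Prop) (β : K) (H : Cond K L → Prop) (x : Cond K L) : Prop :=
  Fu x ∧ ∃ q, H q ∧ Lb d β q x

end

variable {M : Set ZFSet.{0}} [ZFC M] {V X W K L : Type} [Coded M V] [Coded M X] [Coded M W]
  [Coded M K] [Coded M L] [LinearOrder W] [LinearOrder K]

/-- A filter that is generic over `M`. -/
structure GF (M : Set ZFSet.{0}) [ZFC M] {X : Type} [Coded M X] (V : X → Prop)
    (Le : X → X → Prop) (G : X → Prop) : Prop where
  po : Po M V Le
  valid : ∀ p, G p → V p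
  up : ∀ p q, G p → V q → Le p q → G q
  dir : ∀ p q, G p → G q → ∃ r, G r ∧ Le r p ∧ Le r q
  ne : ∃ p, G p
  below : ∀ {R : X → Prop}, DefF M R → ∀ {p}, G p →
    (∀ q, V q → Le q p → ∃ q', V q' ∧ Le q' q ∧ R q') → ∃ q, G q ∧ R q

theorem GF.of_gen {N : Set ZFSet.{0}} [ZFC N] {P G : X → Prop} {Le : X → X → Prop}
    (g : Gen M N P Le G) : GF M P Le G := ⟨g.po, g.valid, g.up, g.dir, g.ne, g.below⟩

/-- Lists of all names, towers of names and elements with support below each stage. -/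
structure Aux (M : Set ZFSet.{0}) [ZFC M] {W K L : Type} [Coded M W] [Coded M K] [Coded M L]
    [LinearOrder K] (nm : K → L → ℕ × ℕ → List (Cond K L)) (tw : L → W → L)
    (π : K → L → Elt W K L) : Prop where
  def_nm : DefF M (fun z : K × L × ℕ × ℕ => nm z.1 z.2.1 z.2.2)
  def_tw : DefF M (fun z : L × W => tw z.1 z.2)
  def_pi : DefF M (fun z : K × L => π z.1 z.2)
  nm_below : ∀ β a z, ∀ x ∈ nm β a z, Below β x
  nm_all : ∀ β (f : ℕ × ℕ → List (Cond K L)), DefF M f → (∀ z, ∀ x ∈ f z, Below β x) →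
    ∃ a, nm β a = f
  tw_all : ∀ f : W → L, DefF M f → ∃ θ, tw θ = f
  pi_below : ∀ β ξ, Below β (π β ξ).1
  pi_all : ∀ β x l, Below β x → ∃ ξ, π β ξ = (x, l)

@[fun_prop] theorem DefF.below [WO M K] {β : V → K} {x : V → Cond K L} (hβ : DefF M β)
    (hx : DefF M x) : DefF M (fun v => Below (β v) (x v)) := by
  simp only [Below, all_eq, imp_eq]
  fun_prop

@[fun_prop] theorem DefF.isLim [WO M K] {β : V → K} (hβ : DefF M β) :
    DefF M (fun v => IsLim (β v)) := by
  simp only [IsLim, all_eq, imp_eq]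
  fun_prop

section
variable {le : V → Cond K L → Cond K L → Prop} {n : V → L → ℕ × ℕ → List (Cond K L)}
  (hle : DefF M (fun z : V × Cond K L × Cond K L => le z.1 z.2.1 z.2.2))
include hle

@[fun_prop] theorem DefF.cmpFu {p q : V → Cond K L} (hp : DefF M p) (hq : DefF M q) :
    DefF M (fun v => Cmp Fu (le v) (p v) (q v)) := by
  unfold Cmp
  fun_prop

variable (hn : DefF M (fun z : V × L × ℕ × ℕ => n z.1 z.2.1 z.2.2))
include hn

@[fun_prop] theorem DefF.memF {a : V → L} {m : V → ℕ} {s : V → Cond K L} (ha : DefF M a)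
    (hm : DefF M m) (hs : DefF M s) : DefF M (fun v => MemF (le v) (n v) (a v) (m v) (s v)) := by
  unfold MemF
  fun_prop

@[fun_prop] theorem DefF.infF {a b : V → L} {x : V → Cond K L} (ha : DefF M a) (hb : DefF M b)
    (hx : DefF M x) : DefF M (fun v => InfF (le v) (n v) (a v) (b v) (x v)) := by
  simp only [InfF, all_eq, imp_eq]
  fun_prop

@[fun_prop] theorem DefF.finF {a b : V → L} {x : V → Cond K L} (ha : DefF M a) (hb : DefF M b)
    (hx : DefF M x) : DefF M (fun v => FinF (le v) (n v) (a v) (b v) (x v)) := by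
  simp only [FinF, all_eq, imp_eq]
  fun_prop

variable [WO M W] {tw : L → W → L} (htw : DefF M (fun z : L × W => tw z.1 z.2))
include htw

@[fun_prop] theorem DefF.decF {θ : V → L} {x : V → Cond K L} (hθ : DefF M θ) (hx : DefF M x) :
    DefF M (fun v => DecF (le v) (n v) tw (θ v) (x v)) := by
  simp only [DecF, all_eq, imp_eq]
  fun_prop

@[fun_prop] theorem DefF.okF {z : V → Item W L} {x : V → Cond K L} (hz : DefF M z)
    (hx : DefF M x) : DefF M (fun v => OkF (le v) (n v) tw (z v) (x v)) := by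
  unfold OkF
  fun_prop

@[fun_prop] theorem DefF.crF {z z' : V → Item W L} {x : V → Cond K L} (hz : DefF M z)
    (hz' : DefF M z') (hx : DefF M x) :
    DefF M (fun v => CrF (le v) (n v) tw (z v) (z' v) (x v)) := by
  unfold CrF
  fun_prop

@[fun_prop] theorem DefF.mv {u : V → Elt W K L} (hu : DefF M u) :
    DefF M (fun v => MV (le v) (n v) tw (u v)) := by
  simp only [MV, all_eq, imp_eq]
  fun_prop

@[fun_prop] theorem DefF.fr {π : V → L → Elt W K L} {η ξ : V → L} {q : V → Cond K L}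
    (hπ : DefF M (fun z : V × L => π z.1 z.2)) (h1 : DefF M η) (h2 : DefF M ξ) (hq : DefF M q) :
    DefF M (fun v => FR (le v) (n v) tw (π v) (η v) (ξ v) (q v)) := by
  simp only [FR, all_eq, imp_eq]
  fun_prop

@[fun_prop] theorem DefF.specS [WO M K] {β : V → K} {π : V → L → Elt W K L}
    {e : V → L × L × ℕ → List (Cond K L)} (hβ : DefF M β)
    (hπ : DefF M (fun z : V × L => π z.1 z.2))
    (he : DefF M (fun z : V × L × L × ℕ => e z.1 z.2)) :
    DefF M (fun v => SpecS (le v) (n v) tw (β v) (π v) (e v)) := by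
  simp only [SpecS, all_eq, imp_eq]
  fun_prop

end

section
variable {P : Cond K L → Prop} {le : Cond K L → Cond K L → Prop}
  {n : L → ℕ × ℕ → List (Cond K L)} {tw : L → W → L} (po : Po M P le) {q x : Cond K L}
  (k : le q x)
include po k

theorem MemF.mono {a : L} {m : ℕ} (h : MemF le n a m x) : MemF le n a m q :=
  h.imp fun _ h => h.imp fun _ h => ⟨h.1, po.trans _ _ _ k h.2⟩

theorem InfF.mono {a b : L} (h : InfF le n a b x) : InfF le n a b q :=
  fun r m k1 k2 => h r m k1 (po.trans _ _ _ k2 k)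

theorem FinF.mono {a b : L} (h : FinF le n a b x) : FinF le n a b q :=
  fun r k1 k2 => h r k1 (po.trans _ _ _ k2 k)

theorem DecF.mono {θ : L} (h : DecF le n tw θ x) : DecF le n tw θ q :=
  fun c c' r k1 k2 => h c c' r k1 (po.trans _ _ _ k2 k)

theorem OkF.mono {z : Item W L} (h : OkF le n tw z x) : OkF le n tw z q :=
  ⟨h.1.mono po k, h.2.1.mono po k, h.2.2.mono po k⟩

theorem CrF.mono {z z' : Item W L} (h : CrF le n tw z z' x) : CrF le n tw z z' q :=
  h.imp fun _ h => ⟨h.1.mono po k, h.2.1.mono po k, h.2.2.1.mono po k, h.2.2.2.mono po k⟩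

theorem MV.mono {l : List (Item W L)} (h : MV le n tw (x, l)) : MV le n tw (q, l) :=
  ⟨fun z hz => (h.1 z hz).mono po k, fun z hz z' hz' e1 e2 e3 =>
    (h.2 z hz z' hz' e1 e2 e3).imp (fun h => h.mono po k) fun h => h.mono po k⟩

theorem FR.mono {π : L → Elt W K L} {η ξ : L} (h : FR le n tw π η ξ x) : FR le n tw π η ξ q :=
  h.imp_right (Or.imp (fun h ⟨r, k1, k2, k3⟩ => h ⟨r, k1, po.trans _ _ _ k2 k, k3⟩)
    fun h => ⟨h.1, po.trans _ _ _ k h.2.1, h.2.2⟩)

end

/-- The restriction of a condition to the stages below `β`. -/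
noncomputable def cut {K L : Type} [LinearOrder K] (β : K) (x : Cond K L) : Cond K L :=
  x.filter fun z => decide (z.1 < β)

theorem mem_cut {β : K} {x : Cond K L} {z : K × L} : z ∈ cut β x ↔ z ∈ x ∧ z.1 < β := by
  simp [cut]

theorem below_cut (β : K) {x : Cond K L} (h : Fu x) : Below β (cut β x) :=
  ⟨fun z hz z' hz' => h z (mem_cut.1 hz).1 z' (mem_cut.1 hz').1, fun _ hz => (mem_cut.1 hz).2⟩

@[fun_prop] theorem DefF.cut [WO M K] {β : V → K} {x : V → Cond K L} (hβ : DefF M β)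
    (hx : DefF M x) : DefF M (fun v => cut (β v) (x v)) :=
  (DefF.foldr (N := M) (F := fun v (z : K × L) l => if z.1 < β v then z :: l else l)
    (a := fun _ => []) (by fun_prop) (by fun_prop) hx).congr fun v => by
      induction x v with
      | nil => rfl
      | cons z l ih => by_cases h : z.1 < β v <;> simp [Nik.cut, h] <;> simpa [Nik.cut] using ih

section
variable [WO M K] {e : K → L × L × ℕ → List (Cond K L)} {d : K → L → L → Cond K L → Prop}
  (h : It M e d)
include h

theorem cut_le (β : K) (x : Cond K L) : Lb d β (cut β x) x :=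
  h.of_sub fun _ k k' => mem_cut.2 ⟨k, k'⟩

theorem le_cut (β : K) (x : Cond K L) : Lb d β x (cut β x) :=
  h.of_sub fun _ k _ => (mem_cut.1 k).1

end

end Pool.Agent.P.MP_5a7d1f_lc.Nik
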