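import Pool.Agent.P.MP_5a7d1f_lc.Nik.Basic

/-!
A scheme that produces an independent family.
-/

set_option synthInstance.maxSize 16384
set_option linter.unusedSectionVars false

namespace Pool.Agent.P.MP_5a7d1f_lc.Nik

open Pool.Agent.Lib.Typed Pool.Agent.P.MP_5a7d1f_lc.Gro

variable {N : Set ZFSet.{0}} [ZFC N] [Enum N] {K L : Type} [Coded N K] [Coded N L]
  [LinearOrder K] {A : Type} [Coded N A] [BooleanAlgebra A] [BA N A]

theorem scheme (L : Type) [Coded N L] [Succ N L K] {H : K → Prop} (hH : DefF N H)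
    (hu : ∀ a, ∃ b, a ≤ b ∧ H b) {b : K → A} (hb : DefF N b) {Wit : List (K × Prop) → K → Prop}
    (hW : DefF N (fun z : List (K × Prop) × K => Wit z.1 z.2)) (h0 : ∃ γ, Wit [] γ)
    (hs : ∀ l γ δ s, Wit l γ → H δ → γ < δ → (∀ z ∈ l, z.1 < δ) → ∃ γ', Wit ((δ, s) :: l) γ')
    (hn : ∀ l γ, Wit l γ → cell b l ≠ ⊥) :
    ∃ e : K → A, DefF N e ∧ Indep e (fun _ => True) := by
  classical
  have hK : Succ N L K := inferInstance
  have := hK.big
  have := hK.ne
  obtain ⟨w, hw, Hw⟩ := choice' (N := N) (p := fun l : List (K × Prop) => ∃ γ, Wit l γ)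
    (R := fun l γ => Wit l γ) hW fun _ h => h
  obtain ⟨s, ds, Hs⟩ := tdc (N := N) (K := K) (Y := K)
    (R := fun i g y => H y ∧ (∀ j, j < i → g j < y) ∧
      ∀ l : List (K × Prop), (∀ z ∈ l, ∃ j, j < i ∧ g j = z.1) → w l < y)
    (by simp only [all_eq, imp_eq]; fun_prop)
    (fun i g g' y h k => ⟨k.1, fun j hj => h j hj ▸ k.2.1 j hj, fun l hl => k.2.2 l fun z hz =>
      (hl z hz).imp fun j k' => ⟨k'.1, (h j k'.1).trans k'.2⟩⟩)
    (fun i g hg _ => by
      have k0 : Sm N L (fun j : K => j < i) := Succ.small_lt i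
      obtain ⟨b1, k1⟩ := k0.bdd (K := K) hg
      obtain ⟨b2, k2⟩ := ((k0.image hg).prod (sm_prop (N := N) (L := L))).list.bdd (K := K) hw
      obtain ⟨y, k3, k4⟩ := hu (max b1 b2)
      exact ⟨y, k4, fun j hj => (k1 j hj).trans_le ((le_max_left _ _).trans k3), fun l hl =>
        (k2 l fun z hz => ⟨hl z hz, trivial⟩).trans_le ((le_max_right _ _).trans k3)⟩)
  refine ⟨fun i => b (s i), by fun_prop, fun l hl => ?_⟩
  have key : ∀ t : Finset K, ∃ m : List (K × Prop), (∀ z ∈ m, ∃ j ∈ t, s j = z.1) ∧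
      (∃ γ, Wit m γ) ∧ ∀ a ∈ t, (s a, (a, True) ∈ l) ∈ m := fun t => by
    induction t using Finset.induction_on_max with
    | empty => exact ⟨[], by simp, h0, by simp⟩
    | insert a t ht ih =>
      obtain ⟨m, k1, k2, k3⟩ := ih
      have k4 : ∀ z ∈ m, ∃ j, j < a ∧ s j = z.1 := fun z hz =>
        (k1 z hz).imp fun j k => ⟨ht j k.1, k.2⟩
      refine ⟨(s a, (a, True) ∈ l) :: m, fun z hz => ?_,
        hs m (w m) (s a) _ (Hw m k2) (Hs a).1 ((Hs a).2.2 m k4) fun z hz => ?_, fun x hx => ?_⟩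
      · rcases List.mem_cons.1 hz with rfl | hz
        · exact ⟨a, Finset.mem_insert_self _ _, rfl⟩
        · exact (k1 z hz).imp fun j k => ⟨Finset.mem_insert_of_mem k.1, k.2⟩
      · obtain ⟨j, k5, k6⟩ := k4 z hz
        exact k6 ▸ (Hs a).2.1 j k5
      · rcases Finset.mem_insert.1 hx with rfl | hx
        · exact List.mem_cons_self
        · exact List.mem_cons_of_mem _ (k3 x hx)
  obtain ⟨m, -, ⟨γ, k2⟩, k3⟩ := key (l.map Prod.fst).toFinset
  refine ne_bot_of_le_ne_bot (hn m γ k2) (le_cell.2 fun z hz => (cell_le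
    (k3 z.1 (List.mem_toFinset.2 (List.mem_map_of_mem hz)))).trans_eq ?_)
  have k4 : ((z.1, True) ∈ l) = z.2 :=
    propext ⟨fun k => ((hl _ k).2 z hz rfl).mp trivial, fun k => by rwa [← eq_true k]⟩
  rw [k4]
  rfl

end Pool.Agent.P.MP_5a7d1f_lc.Nik
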