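import Pool.Agent.P.MP_5a7d1f_lc.Nik.Prune
import Pool.Agent.P.MP_5a7d1f_lc.Nik.Scheme

/-!
The independent family.
-/

set_option synthInstance.maxSize 16384
set_option linter.unusedSectionVars false

namespace Pool.Agent.P.MP_5a7d1f_lc.Nik

open Pool.Agent.Lib.Typed Pool.Agent.P.MP_5a7d1f_lc.Gro

variable {N : Set ZFSet.{0}} [ZFC N] [Enum N] {K L : Type} [Coded N K] [Coded N L]
  [LinearOrder K] {A : Type} [Coded N A] [BooleanAlgebra A] [BA N A]

/-- The nodes at which a list of signed indices is tested. -/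
def finalHyp {K : Type} [LinearOrder K] (g : K → ℕ → ℕ) (G : K → Nd → Prop) (l : List (K × Prop))
    (v : Nd) : Prop :=
  v.2.length ≤ v.1 + 1 ∧ (∀ z ∈ l, ∀ z' ∈ l, z'.1 < z.1 → g z.1 v.1 < g z'.1 v.1) ∧
    ∀ z ∈ l, v.2.length ≤ g z.1 v.1 ∧ G z.1 v

theorem final_allT_true {σ : Nd → ℕ → Prop} {Q : Nd → Prop} (hQ : ∀ v, Q v) :
    ∀ h v, AllT σ Q h v
  | 0, v => hQ v
  | h + 1, _ => Alm.of_le fun _ _ => final_allT_true hQ h _

theorem final_exists_ub {K X : Type} [LinearOrder K] (β : K) (l : List (K × X)) :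
    ∃ δ, ∀ z ∈ l, z.1 ≤ δ := by
  induction l with
  | nil => exact ⟨β, by simp⟩
  | cons a l ih =>
    obtain ⟨δ, h⟩ := ih
    exact ⟨max a.1 δ, List.forall_mem_cons.2
      ⟨le_max_left _ _, fun z hz => (h z hz).trans (le_max_right _ _)⟩⟩

/-- The selector of the successor step. -/
def finalSel (k : ℕ → ℕ) (t R τ : Nd → ℕ → Prop) (u : Nd) (m : ℕ) : Prop :=
  (u.2.length < k u.1 ∧ t u m) ∨ (u.2.length = k u.1 ∧ Unb (R u) ∧ R u m) ∨
    (¬ u.2.length < k u.1 ∧ ¬ (u.2.length = k u.1 ∧ Unb (R u)) ∧ τ u m)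

section
variable {k : ℕ → ℕ} {t R τ : Nd → ℕ → Prop}

theorem finalSel_lt {u : Nd} (h : u.2.length < k u.1) {m : ℕ} (H : finalSel k t R τ u m) :
    t u m := by
  rcases H with H | H | H
  · exact H.2
  · exact absurd H.1 h.ne
  · exact absurd h H.1

theorem finalSel_eq {u : Nd} (h : u.2.length = k u.1) (h' : Unb (R u)) {m : ℕ}
    (H : finalSel k t R τ u m) : R u m := by
  rcases H with H | H | H
  · exact absurd h H.1.ne
  · exact H.2.2
  · exact absurd ⟨h, h'⟩ H.2.1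

theorem finalSel_gt {u : Nd} (h : k u.1 < u.2.length) {m : ℕ} (H : finalSel k t R τ u m) :
    τ u m := by
  rcases H with H | H | H
  · exact absurd H.1 h.not_gt
  · exact absurd H.1 h.ne'
  · exact H.2.2

theorem finalSel_sel (ht : Sel t) (hτ : Sel τ) : Sel (finalSel k t R τ) := fun u => by
  by_cases h1 : u.2.length < k u.1
  · exact (ht u).mono fun m h => Or.inl ⟨h1, h⟩
  by_cases h2 : u.2.length = k u.1 ∧ Unb (R u)
  · exact h2.2.mono fun m h => Or.inr (Or.inl ⟨h2.1, h2.2, h⟩)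
  · exact (hτ u).mono fun m h => Or.inr (Or.inr ⟨h1, h2, h⟩)

theorem finalSel_rk {ρ : Nd → ℕ → Prop} (h1 : Rk t ρ) (h2 : Rk R ρ) (h3 : Rk τ ρ) :
    Rk (finalSel k t R τ) ρ := fun u => by
  obtain ⟨a, ha⟩ := h1 u
  obtain ⟨b, hb⟩ := h2 u
  obtain ⟨c, hc⟩ := h3 u
  refine ⟨a + b + c, fun n hn H => ?_⟩
  rcases H with H | H | H
  · exact ha n (by omega) H.2
  · exact hb n (by omega) H.2.2
  · exact hc n (by omega) H.2.2

end

theorem final_step {σ : K → Nd → ℕ → Prop} (hσ : Enu N σ)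
    {C : List ℕ → A} {y : List ℕ → Pt N A} (hT : CTree N C y) {g : K → ℕ → ℕ}
    (hg : DefF N (fun z : K × ℕ => g z.1 z.2)) (g1 : ∀ ε n, g ε n ≤ n)
    {t r : K → Nd → ℕ → Prop}
    {S : K → ℕ → Prop} {b : K → A} {G : K → Nd → Prop} (h : Rc N σ C y g t r S b G) {β : K}
    {l : List (K × Prop)} {γ δ : K} (s : Prop) (hl : ∀ z ∈ l, Rdy N σ t C y b β z.1)
    (h1 : Sel (σ γ)) (h2 : Rk (σ γ) (t β))
    (h3 : ∀ v, finalHyp g G l v → AllT (σ γ) (hat y (cell b l)) (ht v) v)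
    (hδ : Rdy N σ t C y b β δ) (hγ : γ < δ) (hlt : ∀ z ∈ l, z.1 < δ) :
    ∃ γ', Sel (σ γ') ∧ Rk (σ γ') (t β) ∧ ∀ v, finalHyp g G ((δ, s) :: l) v →
      AllT (σ γ') (hat y (cell b ((δ, s) :: l))) (ht v) v := by
  obtain ⟨hβδ, p, hrep, hp⟩ := hδ
  have J := h.job δ p.app p.def_app hrep
  have ha : lit b (δ, s) = b δ ∨ lit b (δ, s) = (b δ)ᶜ := by
    by_cases hs : s <;> simp [lit, hs]
  rw [cell_cons]
  generalize lit b (δ, s) = a at ha
  have d1 := hσ.defn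
  have d2 := hT.defy
  have d3 := h.def_t
  have d4 := h.def_r
  have d5 := p.def_app
  obtain ⟨τ, dτ, t1, t2, t3⟩ := prune (N := N) (σ := σ γ) (Q := hat y a) (by fun_prop)
    (by fun_prop) h1
  obtain ⟨R, hR⟩ : ∃ R : Nd → ℕ → Prop,
      R = fun u m => r δ u m ∧ (p.app (u.1, m :: u.2)).has a := ⟨_, rfl⟩
  have dR : DefF N (fun z : Nd × ℕ => R z.1 z.2) := by
    subst hR
    fun_prop
  have hRr : ∀ ε, ε < δ → Rk R (t ε) := fun ε k =>
    (SLe.rk (fun u m k' => by subst hR; exact k'.1)).trans (h.monoR ε δ k)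
  obtain ⟨γ', e⟩ := hσ.all (finalSel (g δ) (t δ) R τ) (by unfold finalSel; fun_prop)
  refine ⟨γ', e ▸ finalSel_sel (h.sel δ) t1,
    e ▸ finalSel_rk (h.mono β δ hβδ.le) (hRr β hβδ) (t2.rk.trans h2), ?_⟩
  rw [e]
  have up : ∀ v, finalHyp g G ((δ, s) :: l) v → ∀ m, (∀ z ∈ l, t z.1 v m) →
      finalHyp g G l (v.1, m :: v.2) := by
    intro v hv m hm
    have k0 : v.2.length ≤ g δ v.1 := (hv.2.2 _ List.mem_cons_self).1
    have k1 := g1 δ v.1
    refine ⟨by simp only [List.length_cons]; omega, fun z hz z' hz' k =>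
      hv.2.1 z (List.mem_cons_of_mem _ hz) z' (List.mem_cons_of_mem _ hz') k, fun z hz => ?_⟩
    have k2 : g δ v.1 < g z.1 v.1 :=
      hv.2.1 _ List.mem_cons_self z (List.mem_cons_of_mem _ hz) (hlt z hz)
    obtain ⟨-, q, hq, -⟩ := hl z hz
    exact ⟨by simp only [List.length_cons]; omega, (h.job z.1 q.app q.def_app hq).up v m
      (hv.2.2 z (List.mem_cons_of_mem _ hz)).2 (by omega) (hm z hz)⟩
  suffices H : ∀ k v, g δ v.1 = v.2.length + k → finalHyp g G ((δ, s) :: l) v →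
      AllT (finalSel (g δ) (t δ) R τ) (hat y (a ⊓ cell b l)) (ht v) v by
    intro v hv
    have k0 : v.2.length ≤ g δ v.1 := (hv.2.2 _ List.mem_cons_self).1
    exact H (g δ v.1 - v.2.length) v (by omega) hv
  intro k
  induction k with
  | zero =>
    intro v e0 hv
    have k1 := g1 δ v.1
    have e1 : ht v = (v.1 - v.2.length) + 1 := by unfold ht; omega
    have e2 : v.2.length = g δ v.1 := by omega
    have hG : G δ v := (hv.2.2 _ List.mem_cons_self).2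
    have hU : Unb (R v) := by
      subst hR
      rcases ha with rfl | rfl
      · exact (J.split v hG e2).1
      · exact (J.split v hG e2).2
    rw [e1]
    refine (Alm.of_le fun m => finalSel_eq e2 hU).trans
      (((Alm.refl _).and (Alm.list fun z hz => hRr z.1 (hlt z hz) v)).trans
        (Alm.of_le fun m hm => ?_))
    rw [← ht_cons e1 m]
    have k2 := h3 _ (up v hv m hm.2)
    have k3 := hp (v.1, m :: v.2) a γ ha (by subst hR; exact hm.1.2) hγ h1 h2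
    rw [hat_compl] at k3
    rw [hat_inf]
    refine ((t3 _ k3).and (k2.rk t2.rk)).congr fun u u1 u2 m' => finalSel_gt ?_
    simp only [List.length_cons] at u1 u2
    rw [u1]
    omega
  | succ k ih =>
    intro v e0 hv
    have k1 := g1 δ v.1
    have e1 : ht v = (v.1 - v.2.length) + 1 := by unfold ht; omega
    have e2 : v.2.length < g δ v.1 := by omega
    have hG : G δ v := (hv.2.2 _ List.mem_cons_self).2
    rw [e1]
    refine (Alm.of_le fun m => finalSel_lt e2).trans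
      (((Alm.refl _).and (Alm.list fun z hz => h.mono z.1 δ (hlt z hz).le v)).trans
        (Alm.of_le fun m hm => ?_))
    rw [← ht_cons e1 m]
    have k2 := up v hv m hm.2
    exact ih (v.1, m :: v.2) (by simp only [List.length_cons]; omega)
      ⟨k2.1, hv.2.1, List.forall_mem_cons.2
        ⟨⟨by simp only [List.length_cons]; omega, J.up v m hG e2 hm.1⟩, k2.2.2⟩⟩

theorem indep_of_rdy (L : Type) [Coded N L] [Succ N L K] {σ : K → Nd → ℕ → Prop} (hσ : Enu N σ)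
    {C : List ℕ → A} {y : List ℕ → Pt N A} (hT : CTree N C y) {g : K → ℕ → ℕ}
    (hg : DefF N (fun z : K × ℕ => g z.1 z.2)) (g1 : ∀ ε n, g ε n ≤ n)
    (g2 : ∀ δ ε, δ < ε → ∃ m, ∀ n, m ≤ n → g ε n < g δ n) {t r : K → Nd → ℕ → Prop}
    {S : K → ℕ → Prop} {b : K → A} {G : K → Nd → Prop} (h : Rc N σ C y g t r S b G) {β : K}
    (hβ : ∀ α, ∃ δ, α ≤ δ ∧ Rdy N σ t C y b β δ) :
    ∃ e : K → A, DefF N e ∧ Indep e (fun _ => True) := by
  have d1 := hσ.defn
  have d2 := hT.defy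
  have d3 := h.def_t
  have d4 := h.def_b
  have d5 := h.def_G
  have dH : DefF N (Rdy N σ t C y b β) :=
    (defF_rdy d1 d3 hT.defC d2 d4).comp (by fun_prop : DefF N fun δ : K => (β, δ))
  refine scheme L dH hβ d4 (Wit := fun l γ => (∀ z ∈ l, Rdy N σ t C y b β z.1) ∧ Sel (σ γ) ∧
    Rk (σ γ) (t β) ∧ ∀ v, finalHyp g G l v → AllT (σ γ) (hat y (cell b l)) (ht v) v) ?_ ?_ ?_ ?_
  · generalize Rdy N σ t C y b β = H at dH
    simp only [finalHyp, all_eq, imp_eq]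
    fun_prop
  · obtain ⟨γ, e⟩ := hσ.all (t β) (by fun_prop)
    exact ⟨γ, by simp, e ▸ h.sel β, e ▸ Rk.refl _,
      fun v _ => final_allT_true (fun u => (y u.2).has_top) _ _⟩
  · rintro l γ δ s ⟨h0, h1, h2, h3⟩ hδ hγ hlt
    obtain ⟨γ', k⟩ := final_step hσ hT hg g1 h s h0 h1 h2 h3 hδ hγ hlt
    exact ⟨γ', List.forall_mem_cons.2 ⟨hδ, h0⟩, k⟩
  · rintro l γ ⟨h0, h1, -, h3⟩ e
    obtain ⟨δ, hδ⟩ := final_exists_ub β l
    have k1 : Alm (S δ) fun n => ∀ z ∈ l, S z.1 n := Alm.list fun z hz => h.monoS _ _ (hδ z hz)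
    have k2 : Alm (S δ) fun n => ∀ z ∈ l, ∀ z' ∈ l, z'.1 < z.1 → g z.1 n < g z'.1 n := by
      refine Alm.list fun z _ => Alm.list fun z' _ => ?_
      by_cases k : z'.1 < z.1
      · obtain ⟨m, hm⟩ := g2 _ _ k
        exact ⟨m, fun n hn _ _ => hm n hn⟩
      · exact Alm.of_le fun n _ k' => absurd k' k
    obtain ⟨n, -, n1, n2⟩ := ((h.unb δ).alm (k1.and k2)).exists
    obtain ⟨u, hu⟩ := (h3 (n, []) ⟨by simp, n2, fun z hz => ⟨by simp, by
      obtain ⟨-, q, hq, -⟩ := h0 z hz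
      exact (h.job z.1 q.app q.def_app hq).root n (n1 z hz)⟩⟩).exists h1
    rw [e] at hu
    exact (y u.2).not_has_bot hu

end Pool.Agent.P.MP_5a7d1f_lc.Nik
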