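import Pool.Agent.P.MP_5a7d1f_lc.Gro.Ground
import Pool.Agent.P.MP_5a7d1f_lc.Nik.FDefs

/-!
The ground model.
-/

set_option synthInstance.maxSize 16384
set_option linter.unusedSectionVars false

namespace Pool.Agent.P.MP_5a7d1f_lc.Nik

open ZFSet Pool.Agent.Lib.Forcing Pool.Agent.P.MP_af0a18_lc Pool.Agent.Lib.Typed Pool.Agent.P.MP_5a7d1f_lc.Gro

/-- First order form of `PowL`. -/
def Ground_PowZ (M : Set ZFSet.{0}) (a l : ZFSet.{0}) : Prop :=
  ∃ t ∈ M, Fn t ∧ ∀ f ∈ M, Fn f →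
    ∃ θ ∈ l, ∀ x ∈ a, ∀ y ∈ l, pair x y ∈ f → pair (pair θ x) y ∈ t

instance (a b : ℕ) : UDf (fun M e => Ground_PowZ M (e a) (e b)) := by
  unfold Ground_PowZ; infer_instance

/-- The sentence that is transferred to the ground model. -/
def Ground_Base (M : Set ZFSet.{0}) : Prop :=
  G4 M ∧ ∃ w ∈ M, ∃ k ∈ M, IsOmega w ∧ k.IsOrdinal ∧ ∃ a ∈ k, ∃ l ∈ k, a ∈ l ∧
    SuccZ M w w a ∧ SuccZ M w l k ∧ Ground_PowZ M a l

instance : UDf (fun M _ => Ground_Base M) := by unfold Ground_Base; infer_instance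

section
variable {M : Set ZFSet.{0}} [ZFC M] {W L : Type} [Coded M W] [Coded M L]

theorem Ground_pow_iff [Nonempty L] : PowL M W L ↔ Ground_PowZ M (car M W) (car M L) := by
  simp only [Ground_PowZ, forall_car, exists_car]
  constructor
  · rintro ⟨tw, h1, h2⟩
    obtain ⟨t, k1, k2, k3⟩ := exists_graph h1
    refine ⟨t, k1, k2, fun f k4 k5 => ?_⟩
    obtain ⟨g, hg, H⟩ := exists_fun_of_fn (L := W) (X := L) k4 k5
    obtain ⟨θ, rfl⟩ := h2 g hg
    exact ⟨θ, fun x y k => H x y k ▸ k3 (θ, x)⟩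
  · rintro ⟨t, k1, k2, k3⟩
    obtain ⟨g, hg, H⟩ := exists_fun_of_fn (L := L × W) (X := L) k1 k2
    refine ⟨fun θ x => g (θ, x), hg, fun f hf => ?_⟩
    obtain ⟨r, h1, h2, h3⟩ := exists_graph hf
    exact (k3 r h1 h2).imp fun θ k => funext fun x => H (θ, x) _ (k x _ (h3 x))

theorem Ground_pow_up {N : Set ZFSet.{0}} [ZFC N] [Coded N W] [Coded N L] [Same M N W]
    [Same M N L] (h : M ⊆ N) (hW : Sm M L (fun _ : W => True))
    (hn : ∀ s : L → L, DefF N s → DefF M s) (hp : PowL M W L) : PowL N W L := by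
  obtain ⟨tw, h1, h2⟩ := hp
  refine ⟨tw, DefF.up h h1, fun f hf => h2 f ?_⟩
  obtain ⟨g, hg, Hg⟩ := hW
  obtain ⟨j, hj, Hj⟩ := choice (N := M) (R := fun (a : W) (i : L) => g i = a) (by fun_prop)
    fun a => Hg a trivial
  exact ((hn _ (hf.comp (DefF.up h hg))).comp hj).congr fun a => by rw [Hj]

theorem Ground_iff {κ : ZFSet.{0}} [InM M κ] [hκ : Fact κ.IsOrdinal] :
    (∃ a l : El κ, a < l ∧ Succ M ℕ (Lv a) ∧ Succ M (Lv l) (El κ) ∧ PowL M (Lv a) (Lv l)) ↔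
      ∃ a ∈ car M (El κ), ∃ l ∈ car M (El κ), a ∈ l ∧ SuccZ M (car M ℕ) (car M ℕ) a ∧
        SuccZ M (car M ℕ) l (car M (El κ)) ∧ Ground_PowZ M a l := by
  have h0 : ∀ a b : El κ, cd M a ∈ cd M b ↔ a < b := fun _ _ => El.lt_iff.symm
  simp only [exists_car, h0]
  refine exists_congr fun a => exists_congr fun l => and_congr_right fun k => ?_
  have : Nonempty (Lv l) := ⟨⟨a, k⟩⟩
  rw [succ_lv, succ_iff h0, Ground_pow_iff, car_lv, car_lv]

end

open Cardinal Ordinal in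
theorem Ground_univ : Ground_Base Set.univ := by
  let c : Cardinal.{0} := 2 ^ ℵ₁
  have hc : ℵ₁ < c := cantor _
  have hc0 : ℵ₀ ≤ c := aleph0_lt_aleph_one.le.trans hc.le
  let κ : ZFSet.{0} := toZFSet (Order.succ c).ord
  have : Fact κ.IsOrdinal := ⟨isOrdinal_toZFSet _⟩
  refine ⟨g4, car Set.univ ℕ, trivial, car Set.univ (El κ), trivial, isOmega_iff.2 car_nat,
    by rw [car_el]; exact this.out, Ground_iff.1 ?_⟩
  have h1 : ∀ x, (∃ k : El κ, k.val.rank = x) ↔ x < (Order.succ c).ord := fun x =>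
    ⟨fun ⟨k, e⟩ => by
      obtain ⟨a, ha, e'⟩ := mem_toZFSet_iff.1 k.val_mem
      rwa [← e, ← e', rank_toZFSet], fun k => (El.exists_val (toZFSet_mem_toZFSet_iff.2 k)).imp
        fun _ e => by rw [e, rank_toZFSet]⟩
  have h2 : ∀ (a : El κ) x, (∃ k : Lv a, k.1.val.rank = x) ↔ x < a.val.rank := fun a x =>
    ⟨fun ⟨k, e⟩ => e ▸ k.2, fun k => ((h1 x).2 (k.trans ((h1 _).1 ⟨a, rfl⟩))).elim fun b e =>
      ⟨⟨b, show b.val.rank < a.val.rank from e ▸ k⟩, e⟩⟩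
  have h3 : StrictMono fun k : El κ => k.val.rank := fun _ _ h => h
  have h4 : ∀ a : El κ, StrictMono fun k : Lv a => k.1.val.rank := fun _ _ _ h => h
  obtain ⟨l, h5⟩ := (h1 c.ord).2 (ord_lt_ord.2 (Order.lt_succ c))
  obtain ⟨a, h6⟩ := (h1 (ℵ₁ : Cardinal.{0}).ord).2 (ord_lt_ord.2 (hc.trans (Order.lt_succ c)))
  have h7 : #(Lv l) = c := (mk_of_range (h4 _).injective (h2 _)).trans (by rw [h5, card_ord])
  have h8 : #(Lv a) = ℵ₁ := (mk_of_range (h4 _).injective (h2 _)).trans (by rw [h6, card_ord])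
  refine ⟨a, l, h3.lt_iff_lt.1 ?_, succ_univ (h4 _) le_rfl mk_nat ?_, succ_univ h3 hc0 h7 h1, ?_⟩
  · rw [h5, h6]
    exact ord_lt_ord.2 hc
  · simpa [h6] using h2 a
  · have h9 : #(Lv l) = #(Lv a → Lv l) := by
      rw [← power_def, h7, h8, ← power_mul, mul_eq_self aleph0_lt_aleph_one.le]
    obtain ⟨j⟩ := Cardinal.eq.1 h9
    exact ⟨j, defF_univ _, fun f _ => j.surjective f⟩

/-- A countable model with a cardinal `l` that satisfies `l ^ a = l` for the first uncountable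
ordinal `a`, its successor `κ` and a book-keeping function. -/
theorem exists_ground : ∃ (M : Set ZFSet.{0}) (_ : ZFC M) (κ : ZFSet.{0}) (_ : InM M κ)
    (_ : Fact κ.IsOrdinal) (a l : El κ), Enum M ∧ IsZFModel M ∧ M.Countable ∧ Succ M ℕ (Lv a) ∧
      Succ M (Lv l) (El κ) ∧ Sm M (Lv l) (fun _ : Lv a => True) ∧ PowL M (Lv a) (Lv l) ∧
      ∃ e : El κ → Lv l × Lv l × ℕ → List (Cond (El κ) (Lv l)), Book M e := by
  obtain ⟨M, j, hMc, hj⟩ := exists_countable_isElem.{0}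
  have hM := hj.isZFModel
  have := hM.zfm
  obtain ⟨g4, w, -, κ, hκ, h1, ho, h2⟩ := hj.sentence Ground_Base Ground_univ
  obtain rfl := isOmega_iff.1 h1
  have := zfc_of hM (choice_of_enum g4)
  have : Enum M := ⟨g4⟩
  have := InM.mk hκ
  have hκo := Fact.mk ho
  obtain ⟨a, l, hal, s1, s2, hp⟩ := (Ground_iff (M := M) (κ := κ)).2 (by rwa [car_nat, car_el])
  have := s2.big
  have := s1.ne
  have hW : Sm M (Lv l) (fun _ : Lv a => True) := sm_lv_le hal.le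
  obtain ⟨M', hZ, hE, hM', hc', G, g⟩ := exists_gen hM hMc (po_bLe (K := El κ)
    (I := Lv l × Lv l × ℕ) (Y := List (Cond (El κ) (Lv l))))
    ⟨(l, ⟨fun _ => [], DefF.const _⟩), trivial⟩
  have hκ' := InM.mk (g.sub hκ)
  obtain ⟨h3, e, he⟩ := g.book (L := Lv l) (sm_self.prod' (sm_self.prod' Big.nat))
  refine ⟨M', hZ, κ, hκ', hκo, a, l, hE, hM', hc', s1.up g.sub (h3.mono g.sub s2.big.nat),
    s2.up g.sub h3, hW.up g.sub, Ground_pow_up g.sub hW (fun s => ?_) hp, e, he⟩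
  exact g.no_new fun p _ D hD k1 k2 => (bLe_dist p hD
    (fun i q => (k1 i q trivial).imp fun _ k => k.2) fun i q q' => k2 i q q' trivial).imp
      fun _ k => ⟨trivial, k⟩

end Pool.Agent.P.MP_5a7d1f_lc.Nik
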