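import Pool.Agent.P.MP_5a7d1f_lc.Nik.FDefs

/-!
The iteration with the sealing forcing at limit stages.
-/

set_option synthInstance.maxSize 16384
set_option linter.unusedSectionVars false

namespace Pool.Agent.P.MP_5a7d1f_lc.Nik

open Pool.Agent.Lib.Typed Pool.Agent.P.MP_5a7d1f_lc.Gro

variable {M : Set ZFSet.{0}} [ZFC M] [Enum M] {W K L : Type} [Coded M W] [Coded M K] [Coded M L]
  [LinearOrder W] [LinearOrder K]

variable {nm : K → L → ℕ × ℕ → List (Cond K L)} {tw : L → W → L} {π : K → L → Elt W K L}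

theorem iter_fr_cut [WO M K] {e : K → L × L × ℕ → List (Cond K L)}
    {d : K → L → L → Cond K L → Prop} (h : It M e d) (β : K) {η ξ : L} {q : Cond K L}
    (k : FR (Lb d β) (nm β) tw (π β) η ξ q) : FR (Lb d β) (nm β) tw (π β) η ξ (cut β q) :=
  k.mono (h.po_lb β) (cut_le h β q)

theorem iter_spec [WO M W] [WO M K] [Nonempty L] (aux : Aux M nm tw π)
    {e : K → L × L × ℕ → List (Cond K L)} {d : K → L → L → Cond K L → Prop} (h : It M e d)
    (β : K) : ∃ f : DFun M (L × L × ℕ) (List (Cond K L)),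
      SpecS (Lb d β) (nm β) tw β (π β) f.app := by
  have := aux.def_nm
  have := aux.def_tw
  have := aux.def_pi
  have := h.def_d
  obtain ⟨c, hc, H⟩ := choice (N := M) (R := fun (z : L × L) (c : DFun M ℕ (List (Cond K L))) =>
      (∀ k, ∀ x ∈ c.app k, Below β x ∧ FR (Lb d β) (nm β) tw (π β) z.1 z.2 x) ∧
      ∀ q, Fu q → FR (Lb d β) (nm β) tw (π β) z.1 z.2 q → ∃ k, ∃ x ∈ c.app k, Cmp Fu (Lb d β) q x)
    (by simp only [all_eq, imp_eq]; fun_prop) fun z => by
      obtain ⟨c, k1, k2, k3⟩ := (h.po_lb β).predense' (h.ccc_lb β)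
        (E := fun x => Below β x ∧ FR (Lb d β) (nm β) tw (π β) z.1 z.2 x) (by fun_prop)
      exact ⟨⟨c, k1⟩, k2, fun q hq k =>
        k3 (cut β q) q ⟨below_cut β hq, iter_fr_cut h β k⟩ hq (le_cut h β q)⟩
  exact ⟨⟨fun a => (c (a.1, a.2.1)).app a.2.2, by fun_prop⟩, fun a => (H (a.1, a.2.1)).1 a.2.2,
    fun η ξ => (H (η, ξ)).2⟩

theorem exists_iter [WO M W] [Succ M L K] (aux : Aux M nm tw π)
    {e0 : K → L × L × ℕ → List (Cond K L)} (h0 : Book M e0) :
    ∃ e d, It M e d ∧ Book M e ∧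
      ∀ β, IsLim β → SpecS (Lb d β) (nm β) tw β (π β) (e β) := by
  have hK : Succ M L K := inferInstance
  have := hK.big
  have : Nonempty L := Big.nonempty M L
  have := aux.def_nm
  have := aux.def_tw
  have := aux.def_pi
  have := h0.1
  have : Nonempty (DSet M (L × L × Cond K L) × DFun M (L × L × ℕ) (List (Cond K L))) :=
    ⟨⟨⟨fun _ => True, by fun_prop⟩, ⟨fun _ => [], by fun_prop⟩⟩⟩
  obtain ⟨s, hs, H⟩ := tdc (N := M) (K := K)
    (Y := DSet M (L × L × Cond K L) × DFun M (L × L × ℕ) (List (Cond K L)))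
    (R := fun β g y => (∀ η ξ q, y.1.Mem (η, ξ, q) ↔
      Lf M y.2.app (Lb (fun γ a b r => (g γ).1.Mem (a, b, r)) β) η ξ q) ∧
      (IsLim β → (∃ f : DFun M (L × L × ℕ) (List (Cond K L)),
        SpecS (Lb (fun γ a b r => (g γ).1.Mem (a, b, r)) β) (nm β) tw β (π β) f.app) →
        SpecS (Lb (fun γ a b r => (g γ).1.Mem (a, b, r)) β) (nm β) tw β (π β) y.2.app) ∧
      ∀ γ, γ < β → (∀ δ, γ < δ → β ≤ δ) → ∀ a, y.2.app a = e0 γ a)
    (by simp only [all_eq, imp_eq]; fun_prop) (fun β g g' y h k => by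
      rwa [show Lb (fun γ a b r => (g' γ).1.Mem (a, b, r)) β =
        Lb (fun γ a b r => (g γ).1.Mem (a, b, r)) β from funext₂ fun q p => propext
          (forall₃_congr fun z _ hz => by simp only [h _ hz])])
    fun β g hg _ => by
      obtain ⟨f, k1, k2⟩ : ∃ f : DFun M (L × L × ℕ) (List (Cond K L)),
          (IsLim β → (∃ f : DFun M (L × L × ℕ) (List (Cond K L)),
            SpecS (Lb (fun γ a b r => (g γ).1.Mem (a, b, r)) β) (nm β) tw β (π β) f.app) →
            SpecS (Lb (fun γ a b r => (g γ).1.Mem (a, b, r)) β) (nm β) tw β (π β) f.app) ∧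
          ∀ γ, γ < β → (∀ δ, γ < δ → β ≤ δ) → ∀ a, f.app a = e0 γ a := by
        by_cases hβ : IsLim β
        · have k : ∀ (f : DFun M (L × L × ℕ) (List (Cond K L))) γ, γ < β →
              (∀ δ, γ < δ → β ≤ δ) → ∀ a, f.app a = e0 γ a := fun f γ k1 k2 => by
            obtain ⟨δ, k3, k4⟩ := hβ γ k1
            exact absurd (k2 δ k3) k4.not_ge
          by_cases hf : ∃ f : DFun M (L × L × ℕ) (List (Cond K L)),
            SpecS (Lb (fun γ a b r => (g γ).1.Mem (a, b, r)) β) (nm β) tw β (π β) f.app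
          · obtain ⟨f, hf⟩ := hf
            exact ⟨f, fun _ _ => hf, k f⟩
          · exact ⟨⟨fun _ => [], by fun_prop⟩, fun _ k' => absurd k' hf, k _⟩
        · have hβ' := hβ
          simp only [IsLim, not_forall, not_exists, not_and, not_lt] at hβ'
          obtain ⟨γ, k1, k2⟩ := hβ'
          refine ⟨⟨e0 γ, by fun_prop⟩, fun k => absurd k hβ, fun γ' k3 k4 a => ?_⟩
          rcases lt_trichotomy γ γ' with k | k | k
          · exact absurd (k2 γ' k) k3.not_ge
          · rw [← k]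
          · exact absurd (k4 γ k) k1.not_ge
      exact ⟨(⟨fun z => Lf M f.app (Lb (fun γ a b r => (g γ).1.Mem (a, b, r)) β)
        z.1 z.2.1 z.2.2, by fun_prop⟩, f), fun _ _ _ => Iff.rfl, k1, k2⟩
  have it : It M (fun β => (s β).2.app) (fun γ a b r => (s γ).1.Mem (a, b, r)) :=
    ⟨by fun_prop, by fun_prop, fun β => (H β).1⟩
  refine ⟨_, _, it, ⟨it.def_e, fun f hf γ => ?_⟩, fun β hβ => (H β).2.1 hβ (iter_spec aux it β)⟩
  obtain ⟨β, k1, k2⟩ := h0.2 f hf γ
  have := hK.wf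
  obtain ⟨β', k3, k4⟩ := (wellFounded_lt (α := K)).has_min {δ | β < δ} (Succ.exists_gt (N := M) (L := L) β)
  exact ⟨β', k1.trans (le_of_lt k3), funext fun a =>
    ((H β').2.2 β k3 (fun δ hδ => not_lt.1 (k4 δ hδ)) a).trans (by rw [k2])⟩

end Pool.Agent.P.MP_5a7d1f_lc.Nik
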