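import Pool.Agent.P.MP_5a7d1f_lc.Nik.Cluster

/-!
The task of one stage.
-/

set_option synthInstance.maxSize 16384
set_option linter.unusedSectionVars false

namespace Pool.Agent.P.MP_5a7d1f_lc.Nik

open Pool.Agent.Lib.Typed Pool.Agent.P.MP_5a7d1f_lc.Gro

variable {N : Set ZFSet.{0}} [ZFC N] [Enum N] {K L : Type} [Coded N K] [Coded N L]
  [LinearOrder K] {A : Type} [Coded N A] [BooleanAlgebra A] [BA N A]

/-- The element `b` splits the points at the chosen children of `v` into two infinite parts. -/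
def jobSpl {N : Set ZFSet.{0}} {A : Type} [Coded N A] [BooleanAlgebra A] (r : Nd → ℕ → Prop)
    (p : Nd → Pt N A) (b : A) (v : Nd) : Prop :=
  (Unb fun m => r v m ∧ (p (v.1, m :: v.2)).has b) ∧
    Unb fun m => r v m ∧ (p (v.1, m :: v.2)).has bᶜ

/-- Infinitely many successors, `d` times, lead to a node that is split by `b`. -/
def jobGood {N : Set ZFSet.{0}} {A : Type} [Coded N A] [BooleanAlgebra A] (r : Nd → ℕ → Prop)
    (p : Nd → Pt N A) (b : A) (d : ℕ) (v : Nd) : Prop :=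
  ¬ AllT r (fun u => ¬ jobSpl r p b u) d v

theorem jobGood_zero {r : Nd → ℕ → Prop} {p : Nd → Pt N A} {b : A} {v : Nd} :
    jobGood r p b 0 v ↔ jobSpl r p b v := not_not

theorem jobGood_succ {r : Nd → ℕ → Prop} {p : Nd → Pt N A} {b : A} {d : ℕ} {v : Nd} :
    jobGood r p b (d + 1) v ↔ Unb fun m => r v m ∧ jobGood r p b d (v.1, m :: v.2) := not_alm

theorem job_defF {r : Nd → ℕ → Prop} (hr : DefF N (fun z : Nd × ℕ => r z.1 z.2))
    {p : Nd → Pt N A} (hp : DefF N p) :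
    DefF N (fun z : A × ℕ × Nd => jobGood r p z.1 z.2.1 z.2.2) := by
  have h1 : DefF N (fun z : (A × ℕ × Nd) × Nd => ¬ jobSpl r p z.1.1 z.2) := by
    unfold jobSpl
    fun_prop
  exact (DefF.allT (W := A × ℕ × Nd) (σ := fun _ => r) (by fun_prop) h1 (by fun_prop)
    (by fun_prop)).not

/-- A sequence of pairs, one for each of countably many definable tasks, clusters at a pair. -/
theorem job_step (hP : PairSep N A) {S : ℕ → Prop} (hS : DefF N S) (hi : Unb S)
    {T : ℕ → A → Prop} (hT : DefF N (fun z : ℕ × A => T z.1 z.2))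
    (h : ∀ n, ∃ a a' : Pt N A, a ≠ a' ∧ ∀ b, ¬ (a.has b ↔ a'.has b) → T n b) :
    ∃ a a' : Pt N A, a ≠ a' ∧ ∀ b, ¬ (a.has b ↔ a'.has b) → Unb fun n => S n ∧ T n b := by
  obtain ⟨f, hf, Hf⟩ := choice (N := N)
    (R := fun (n : ℕ) (z : Pt N A × Pt N A) =>
      z.1 ≠ z.2 ∧ ∀ b, ¬ (z.1.has b ↔ z.2.has b) → T n b)
    (by simp only [all_eq, imp_eq]; fun_prop)
    (fun n => by obtain ⟨a, a', k⟩ := h n; exact ⟨(a, a'), k⟩)
  obtain ⟨a, a', k, H⟩ := cluster hP (x := fun n => (f n).1) (y := fun n => (f n).2)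
    (by fun_prop) (by fun_prop) hS hi fun n _ => (Hf n).1
  exact ⟨a, a', k, fun b hb => (H b hb).mono fun n k' => ⟨k'.1, (Hf n).2 b k'.2⟩⟩

theorem job_pairs (hP : PairSep N A) {C : List ℕ → A} {y : List ℕ → Pt N A} (hT : CTree N C y)
    {r : Nd → ℕ → Prop} (hr : DefF N (fun z : Nd × ℕ => r z.1 z.2)) (hs : Sel r)
    {p : Nd → Pt N A} (hp : DefF N p) (hC : ∀ v, (p v).has (C v.2)) (d : ℕ) : ∀ v : Nd,
    ∃ a a' : Pt N A, a ≠ a' ∧ ∀ b, ¬ (a.has b ↔ a'.has b) → jobGood r p b d v := by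
  have hG := job_defF hr hp
  induction d with
  | zero =>
    intro v
    obtain ⟨nx, hn, Hn⟩ := choice (N := N) (R := fun (m k : ℕ) => m + 1 ≤ k ∧ r v k)
      (by fun_prop) fun m => hs v (m + 1)
    obtain ⟨a, a', k, H⟩ := cluster hP (x := fun m => p (v.1, m :: v.2))
      (y := fun m => p (v.1, nx m :: v.2)) (by fun_prop) (by fun_prop) (S := r v) (by fun_prop)
      (hs v) fun m _ e => by
        have h1 := hC (v.1, m :: v.2)
        have h2 := hC (v.1, nx m :: v.2)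
        rw [← e] at h2
        have h3 := Pt.has_inf.2 ⟨h1, h2⟩
        rw [hT.disj v.2 m (nx m) (by have := (Hn m).1; omega)] at h3
        exact Pt.not_has_bot _ h3
    refine ⟨a, a', k, fun b hb => jobGood_zero.2 ⟨fun M => ?_, fun M => ?_⟩⟩
    · obtain ⟨m, h1, h2, h3⟩ := H b hb M
      by_cases h4 : (p (v.1, m :: v.2)).has b
      · exact ⟨m, h1, h2, h4⟩
      · exact ⟨nx m, by have := (Hn m).1; omega, (Hn m).2,
          by_contra fun h5 => h3 (iff_of_false h4 h5)⟩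
    · obtain ⟨m, h1, h2, h3⟩ := H b hb M
      by_cases h4 : (p (v.1, m :: v.2)).has b
      · exact ⟨nx m, by have := (Hn m).1; omega, (Hn m).2,
          Pt.has_compl.2 fun h5 => h3 (iff_of_true h4 h5)⟩
      · exact ⟨m, h1, h2, Pt.has_compl.2 h4⟩
  | succ d ih =>
    intro v
    obtain ⟨a, a', k, H⟩ := job_step hP (S := r v) (by fun_prop) (hs v)
      (T := fun m b => jobGood r p b d (v.1, m :: v.2))
      (hG.comp (f := fun z : ℕ × A => (z.2, d, (v.1, z.1 :: v.2))) (by fun_prop))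
      fun m => ih _
    exact ⟨a, a', k, fun b hb => jobGood_succ.2 (H b hb)⟩

theorem exists_job (hP : PairSep N A) {C : List ℕ → A} {y : List ℕ → Pt N A} (hT : CTree N C y)
    {r : Nd → ℕ → Prop} (hr : DefF N (fun z : Nd × ℕ => r z.1 z.2)) (hs : Sel r) {S : ℕ → Prop}
    (hS : DefF N S) (hi : Unb S) {g : ℕ → ℕ} (hg : DefF N g) {p : Nd → Pt N A} (hp : DefF N p)
    (hC : ∀ v, (p v).has (C v.2)) :
    ∃ (b : A) (G : Nd → Prop) (t : Nd → ℕ → Prop) (S' : ℕ → Prop), DefF N G ∧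
      DefF N (fun z : Nd × ℕ => t z.1 z.2) ∧ DefF N S' ∧ Sel t ∧ SLe t r ∧ Unb S' ∧
      (∀ n, S' n → S n) ∧ Job r t S' g p b G := by
  have hG := job_defF hr hp
  obtain ⟨a, a', k, H⟩ := job_step hP hS hi (T := fun n b => jobGood r p b (g n) (n, []))
    (hG.comp (f := fun z : ℕ × A => (z.2, g z.1, (z.1, []))) (by fun_prop))
    fun n => job_pairs hP hT hr hs hp hC _ _
  obtain ⟨b, h1, h2⟩ := Pt.exists_sep k
  have h3 := H b fun e => h2 (e.1 h1)
  obtain ⟨G, HG⟩ : ∃ G : Nd → Prop, ∀ v,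
      G v ↔ v.2.length ≤ g v.1 ∧ jobGood r p b (g v.1 - v.2.length) v := ⟨_, fun _ => Iff.rfl⟩
  have dG : DefF N G := (DefF.and (by fun_prop)
    (hG.comp (f := fun v : Nd => (b, g v.1 - v.2.length, v)) (by fun_prop))).congr_iff
      fun v => (HG v).symm
  refine ⟨b, G, fun v m => r v m ∧ (G v → v.2.length < g v.1 → G (v.1, m :: v.2)),
    fun n => S n ∧ jobGood r p b (g n) (n, []), dG, by simp only [imp_eq]; fun_prop,
    hS.and (hG.comp (f := fun n : ℕ => (b, g n, (n, []))) (by fun_prop)), fun v => ?_,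
    fun _ _ h => h.1, h3, fun _ h => h.1, fun n h => (HG _).2 ⟨Nat.zero_le _, h.2⟩,
    fun v m h4 h5 h6 => h6.2 h4 h5, fun v h4 h5 => ?_⟩
  · by_cases h4 : G v ∧ v.2.length < g v.1
    · have h5 := ((HG v).1 h4.1).2
      have h6 : g v.1 - v.2.length = g v.1 - (v.2.length + 1) + 1 := by have := h4.2; omega
      rw [h6] at h5
      exact (jobGood_succ.1 h5).mono fun m h7 => ⟨h7.1, fun _ _ => (HG _).2 ⟨h4.2, h7.2⟩⟩
    · exact (hs v).mono fun m h5 => ⟨h5, fun h6 h7 => (h4 ⟨h6, h7⟩).elim⟩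
  · have h6 := ((HG v).1 h4).2
    rw [h5, Nat.sub_self] at h6
    exact jobGood_zero.1 h6

end Pool.Agent.P.MP_5a7d1f_lc.Nik
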