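import Pool.Agent.P.MP_5a7d1f_lc.Nik.Basic

/-!
Generic limit points at sealed stages.
-/

set_option synthInstance.maxSize 16384
set_option linter.unusedSectionVars false

namespace Pool.Agent.P.MP_5a7d1f_lc.Nik

open Pool.Agent.Lib.Typed Pool.Agent.P.MP_5a7d1f_lc.Gro

variable {N : Set ZFSet.{0}} [ZFC N] [Enum N] {K L : Type} [Coded N K] [Coded N L]
  [LinearOrder K] {A : Type} [Coded N A] [BooleanAlgebra A] [BA N A]

variable [WO N K] {σ t : K → Nd → ℕ → Prop} {ε : K}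
  (hσ : DefF N (fun z : K × Nd × ℕ => σ z.1 z.2.1 z.2.2))
  (ht' : DefF N (fun z : K × Nd × ℕ => t z.1 z.2.1 z.2.2))
  (hm : ∀ δ δ', δ ≤ δ' → Rk (t δ') (t δ)) (h0 : ∃ β, β < ε) (hU : UCof N ε)
  (hS : ∀ v, Sealed N (fun β => t β v) (fun γ => σ γ v) ε)
include hσ ht' hm h0 hU hS

theorem Limit_cof {Q : Nd → Prop} (hQ : DefF N Q) (h : ℕ) (v : Nd)
    (hB : BigT σ t ε Q (h + 1) v) :
    Cof (fun β => t β v) (fun γ => σ γ v) ε fun m => BigT σ t ε Q h (v.1, m :: v.2) := by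
  obtain ⟨c, hc, Hc⟩ := choice (N := N) (R := fun (m : ℕ) (β : K) => β < ε ∧
      (BigT σ t ε Q h (v.1, m :: v.2) ∨ ∀ γ, γ < ε → Sel (σ γ) → Rk (σ γ) (t β) →
        ¬ AllT (σ γ) Q h (v.1, m :: v.2)))
    (by simp only [all_eq, imp_eq]; fun_prop) fun m => by
      by_cases k : BigT σ t ε Q h (v.1, m :: v.2)
      · exact h0.imp fun β hβ => ⟨hβ, Or.inl k⟩
      · obtain ⟨β, k1⟩ := not_forall.1 k
        obtain ⟨k1, k2⟩ := Classical.not_imp.1 k1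
        exact ⟨β, k1, Or.inr fun γ a b c d => k2 ⟨γ, a, b, c, d⟩⟩
  obtain ⟨b, hb, Hb⟩ := hU c hc fun m => (Hc m).1
  intro β hβ
  obtain ⟨γ, k1, k2, k3, k4⟩ := hB (max β b) (max_lt hβ hb)
  refine ⟨γ, k1, k2 v, (k3.trans (hm _ _ (le_max_left _ _))) v,
    Alm.trans k4 (Alm.of_le fun m k5 => (Hc m).2.resolve_right fun k6 => ?_)⟩
  exact k6 γ k1 k2 (k3.trans (hm _ _ ((Hb m).trans (le_max_right _ _)))) k5

theorem not_big_big {Q : Nd → Prop} (hQ : DefF N Q) (h : ℕ) (v : Nd) :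
    BigT σ t ε Q h v → ¬ BigT σ t ε (fun u => ¬ Q u) h v := by
  induction h generalizing v with
  | zero =>
    intro k k'
    obtain ⟨β, hβ⟩ := h0
    obtain ⟨_, -, -, -, k1⟩ := k β hβ
    obtain ⟨_, -, -, -, k2⟩ := k' β hβ
    exact k2 k1
  | succ h ih =>
    intro k k'
    refine hS v _ (by fun_prop) (Limit_cof hσ ht' hm h0 hU hS hQ h v k) fun β hβ => ?_
    obtain ⟨γ, k1, k2, k3, k4⟩ := Limit_cof hσ ht' hm h0 hU hS hQ.not h v k' β hβ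
    exact ⟨γ, k1, k2, k3, k4.trans (Alm.of_le fun m k5 k6 => ih _ k6 k5)⟩

theorem exists_rep {C : List ℕ → A} {y : List ℕ → Pt N A} (hT : CTree N C y) {F : K → K}
    (hF : Reap σ y F) (hcl : ∀ γ, γ < ε → F γ < ε) (hs : ∀ β, Sel (t β))
    (hI : ∀ β, β < ε → ∃ γ, γ < ε ∧ σ γ = t β) :
    ∃ p : Nd → Pt N A, DefF N p ∧ Rep σ t C y ε p := by
  have hy := hT.defy
  have bd : ∀ v a, ¬ BigT σ t ε (hat y a) (ht v) v → ∃ β, β < ε ∧ ∀ γ, γ < ε → Sel (σ γ) →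
      Rk (σ γ) (t β) → ¬ AllT (σ γ) (hat y a) (ht v) v := by
    intro v a k
    obtain ⟨β, k1⟩ := not_forall.1 k
    obtain ⟨k1, k2⟩ := Classical.not_imp.1 k1
    exact ⟨β, k1, fun γ a b c d => k2 ⟨γ, a, b, c, d⟩⟩
  have dec : ∀ v a β γ, γ < ε → Sel (σ γ) → Rk (σ γ) (t β) → ∃ γ', γ' < ε ∧ Sel (σ γ') ∧
      Rk (σ γ') (σ γ) ∧ Rk (σ γ') (t β) ∧
        (AllT (σ γ') (hat y a) (ht v) v ∨ AllT (σ γ') (hat y aᶜ) (ht v) v) := by
    intro v a β γ k1 k2 k3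
    obtain ⟨γ', a1, a2, a3, a4⟩ := hF γ v a k2
    exact ⟨γ', a1.trans (hcl γ k1), a2, a3.rk, a3.rk.trans k3, a4⟩
  have st : ∀ β, β < ε → ∃ γ, γ < ε ∧ Sel (σ γ) ∧ Rk (σ γ) (t β) := by
    intro β hβ
    obtain ⟨γ, k1, k2⟩ := hI β hβ
    exact ⟨γ, k1, k2 ▸ hs β, k2 ▸ Rk.refl _⟩
  have h2 : ∀ v a, BigT σ t ε (hat y aᶜ) (ht v) v ↔ ¬ BigT σ t ε (hat y a) (ht v) v := by
    intro v a
    refine ⟨fun k k' => not_big_big hσ ht' hm h0 hU hS (Q := hat y a) (by fun_prop) _ v k'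
      (hat_compl y a ▸ k), fun k β hβ => ?_⟩
    obtain ⟨β1, b1, b2⟩ := bd v a k
    obtain ⟨γ, k1, k2, k3⟩ := st _ (max_lt hβ b1)
    obtain ⟨γ', a1, a2, -, a4, a5⟩ := dec v a _ γ k1 k2 k3
    exact ⟨γ', a1, a2, a4.trans (hm _ _ (le_max_left _ _)),
      a5.resolve_left (b2 γ' a1 a2 (a4.trans (hm _ _ (le_max_right _ _))))⟩
  have h1 : ∀ v a b, BigT σ t ε (hat y (a ⊓ b)) (ht v) v ↔
      BigT σ t ε (hat y a) (ht v) v ∧ BigT σ t ε (hat y b) (ht v) v := by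
    intro v a b
    rw [hat_inf]
    refine ⟨fun k => ⟨fun β hβ => (k β hβ).imp fun _ k => ⟨k.1, k.2.1, k.2.2.1,
      k.2.2.2.mono fun _ k => k.1⟩, fun β hβ => (k β hβ).imp fun _ k => ⟨k.1, k.2.1, k.2.2.1,
      k.2.2.2.mono fun _ k => k.2⟩⟩, fun k β hβ => ?_⟩
    obtain ⟨β1, b1, b2⟩ := bd v aᶜ fun k' => (h2 v a).1 k' k.1
    obtain ⟨β2, c1, c2⟩ := bd v bᶜ fun k' => (h2 v b).1 k' k.2
    obtain ⟨γ, k1, k2, k3⟩ := st _ (max_lt hβ (max_lt b1 c1))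
    obtain ⟨γ', a1, a2, -, a4, a5⟩ := dec v a _ γ k1 k2 k3
    obtain ⟨γ'', d1, d2, d3, d4, d5⟩ := dec v b _ γ' a1 a2 a4
    exact ⟨γ'', d1, d2, d4.trans (hm _ _ (le_max_left _ _)), AllT.and
      (AllT.rk d3 (a5.resolve_right (b2 γ' a1 a2
        (a4.trans (hm _ _ ((le_max_left _ _).trans (le_max_right _ _)))))))
      (d5.resolve_right (c2 γ'' d1 d2
        (d4.trans (hm _ _ ((le_max_right _ _).trans (le_max_right _ _))))))⟩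
  have h3 : ∀ (τ : Nd → ℕ → Prop) c h (u : Nd), C u.2 ≤ c → AllT τ (hat y c) h u := by
    intro τ c h
    induction h with
    | zero => exact fun u hu => (hT.mem u.2).mono hu
    | succ h ih => exact fun u hu => Alm.of_le fun m _ => ih _ ((hT.le _ m).trans hu)
  refine ⟨fun v => Pt.mk (fun a => BigT σ t ε (hat y a) (ht v) v) (by fun_prop) (h1 v) (h2 v),
    DefF.of_has ?_, fun _ _ => Iff.rfl, fun v β hβ => ?_⟩
  · change DefF N (fun z : Nd × A => BigT σ t ε (hat y z.2) (ht z.1) z.1)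
    fun_prop
  · obtain ⟨γ, k1, k2, k3⟩ := st β hβ
    exact ⟨γ, k1, k2, k3, h3 _ _ _ _ le_rfl⟩

end Pool.Agent.P.MP_5a7d1f_lc.Nik
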