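import Pool.Agent.P.MP_5a7d1f_lc.Nik.Limit

/-!
Unboundedly many stages are ready, with one bound.
-/

set_option synthInstance.maxSize 16384
set_option linter.unusedSectionVars false

namespace Pool.Agent.P.MP_5a7d1f_lc.Nik

open Pool.Agent.Lib.Typed Pool.Agent.P.MP_5a7d1f_lc.Gro

variable {N : Set ZFSet.{0}} [ZFC N] [Enum N] {K L : Type} [Coded N K] [Coded N L]
  [LinearOrder K] {A : Type} [Coded N A] [BooleanAlgebra A] [BA N A]

theorem exists_rdy (L : Type) [Coded N L] [Succ N L K] (hS : SealP N K) {σ : K → Nd → ℕ → Prop}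
    (hσ : Enu N σ) {C : List ℕ → A} {y : List ℕ → Pt N A} (hT : CTree N C y) {F : K → K}
    (hF : DefF N F) (hR : Reap σ y F) {g : K → ℕ → ℕ} {t r : K → Nd → ℕ → Prop}
    {S : K → ℕ → Prop} {b : K → A} {G : K → Nd → Prop} (h : Rc N σ C y g t r S b G) :
    ∃ β, ∀ α, ∃ δ, α ≤ δ ∧ Rdy N σ t C y b β δ := by
  by_contra hcon
  simp only [not_exists, not_forall] at hcon
  have h1 := hσ.defn
  have h2 := h.def_t
  have h3 := hT.defy
  have h4 := defF_rdy h1 h2 hT.defC h3 h.def_b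
  obtain ⟨H, hH, HH⟩ := choice (N := N)
    (R := fun β α : K => ∀ δ, ¬ (α ≤ δ ∧ Rdy N σ t C y b β δ))
    (by
      have h5 : DefF N (fun z : (K × K) × K => Rdy N σ t C y b z.1.1 z.2) :=
        h4.comp (f := fun z : (K × K) × K => (z.1.1, z.2)) (by fun_prop)
      have h6 : DefF N (fun z : (K × K) × K => z.1.2 ≤ z.2) := by fun_prop
      simp only [all_eq]
      exact DefF.all (DefF.not (DefF.and h6 h5))) hcon
  obtain ⟨I, hI, HI⟩ := choice (N := N) (R := fun β γ : K => ∀ v m, σ γ v m ↔ t β v m)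
    (by simp only [all_eq]; fun_prop) fun β => by
      obtain ⟨γ, e⟩ := hσ.all (t β) (by fun_prop)
      exact ⟨γ, fun v m => by rw [e]⟩
  obtain ⟨ε, c1, c2, c3⟩ := hS t σ h2 h1 h.sel h.dec (fun x => max (F x) (max (I x) (H x)))
    (by fun_prop)
  obtain ⟨p, hp, Hp⟩ := exists_rep h1 h2 h.mono c1.1 c2 c3 hT hR
    (fun γ k => (le_max_left _ _).trans_lt (c1.2 γ k)) h.sel fun β k =>
      ⟨I β, ((le_max_left _ _).trans (le_max_right _ _)).trans_lt (c1.2 β k),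
        funext fun v => funext fun m => propext (HI β v m)⟩
  obtain ⟨f, hf, Hf⟩ := choice (N := N) (R := fun (z : Nd × A) (β : K) => β < ε ∧
      ((p z.1).has z.2 → ∀ γ, γ < ε → Sel (σ γ) → Rk (σ γ) (t β) →
        ¬ AllT (σ γ) (hat y z.2ᶜ) (ht z.1) z.1))
    (by simp only [all_eq, imp_eq]; fun_prop) fun z => by
      by_cases k : (p z.1).has z.2
      · have k1 : ¬ BigT σ t ε (hat y z.2ᶜ) (ht z.1) z.1 := fun e =>
          Pt.has_compl.1 ((Hp.1 _ _).2 e) k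
        simp only [BigT, not_forall, not_exists, not_and] at k1
        obtain ⟨β, k2, k3⟩ := k1
        exact ⟨β, k2, fun _ => k3⟩
      · exact c1.1.imp fun β e => ⟨e, fun k' => (k k').elim⟩
  obtain ⟨β, k1, k2⟩ := c2.bdd (p := fun z : Nd × A => True ∧ (z.2 = b ε ∨ z.2 = (b ε)ᶜ))
    (Sm.prod (L := ℕ) ctble_nd ((sm_single (b ε)).union (sm_single (b ε)ᶜ))) hf fun z => (Hf z).1
  exact HH β ε ⟨(((le_max_right _ _).trans (le_max_right _ _)).trans_lt (c1.2 β k1)).le, k1,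
    ⟨p, hp⟩, Hp, fun v a γ e1 e2 e3 e4 e5 => (Hf (v, a)).2 e2 γ e3 e4
      (e5.trans (h.mono _ _ (k2 (v, a) ⟨trivial, e1⟩)))⟩

end Pool.Agent.P.MP_5a7d1f_lc.Nik
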