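import Pool.Agent.P.MP_5a7d1f_lc.Nik.Prune
import Pool.Agent.P.MP_5a7d1f_lc.Nik.Scheme

/-!
Without a large independent family, old selectors decide every element.
-/

set_option synthInstance.maxSize 16384
set_option linter.unusedSectionVars false

namespace Pool.Agent.P.MP_5a7d1f_lc.Nik

open Pool.Agent.Lib.Typed Pool.Agent.P.MP_5a7d1f_lc.Gro

variable {N : Set ZFSet.{0}} [ZFC N] [Enum N] {K L : Type} [Coded N K] [Coded N L]
  [LinearOrder K] {A : Type} [Coded N A] [BooleanAlgebra A] [BA N A]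

theorem reap_all {σ : Nd → ℕ → Prop} {Q : Nd → Prop} (hQ : ∀ v, Q v) : ∀ h v, AllT σ Q h v
  | 0, v => hQ v
  | h + 1, _ => Alm.of_le fun _ _ => reap_all hQ h _

theorem reap_one (L : Type) [Coded N L] [hK : Succ N L K] {σ : K → Nd → ℕ → Prop} (hσ : Enu N σ)
    {y : List ℕ → Pt N A} (hy : DefF N y)
    (hno : ¬ ∃ e : K → A, DefF N e ∧ Indep e (fun _ => True)) (γ : K) (v : Nd) (hγ : Sel (σ γ)) :
    ∃ δ, ∀ b, ∃ γ', γ' < δ ∧ Sel (σ γ') ∧ SLe (σ γ') (σ γ) ∧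
      (AllT (σ γ') (hat y b) (ht v) v ∨ AllT (σ γ') (hat y bᶜ) (ht v) v) := by
  have hd := hσ.defn
  by_contra hc
  obtain ⟨b, hb, Hb⟩ := choice (N := N) (R := fun (δ : K) (b : A) => ¬ ∃ γ', γ' < δ ∧ Sel (σ γ') ∧
      SLe (σ γ') (σ γ) ∧ (AllT (σ γ') (hat y b) (ht v) v ∨ AllT (σ γ') (hat y bᶜ) (ht v) v))
    (by fun_prop) fun δ => not_forall.1 fun h => hc ⟨δ, h⟩
  refine hno (scheme L (H := fun _ => True) (by fun_prop) (fun a => ⟨a, le_rfl, trivial⟩) hb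
    (Wit := fun l γ' => Sel (σ γ') ∧ SLe (σ γ') (σ γ) ∧ AllT (σ γ') (hat y (cell b l)) (ht v) v)
    (by fun_prop) ⟨γ, hγ, fun _ _ h => h, reap_all (fun u => (y u.2).has_top) _ _⟩ ?_ ?_)
  · rintro l γ' δ s ⟨h1, h2, h3⟩ - h4 -
    obtain ⟨τ, k0, k1, k2, k3⟩ := prune (N := N) (σ := σ γ') (Q := hat y (lit b (δ, s)))
      (by fun_prop) (by fun_prop) h1
    obtain ⟨γ'', rfl⟩ := hσ.all τ k0
    refine ⟨γ'', k1, fun u m h => h2 u m (k2 u m h), ?_⟩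
    rw [cell_cons, hat_inf]
    refine AllT.and (k3 v fun h => Hb δ ⟨γ', h4, h1, h2, ?_⟩) (AllT.rk k2.rk h3)
    rw [← hat_compl] at h
    by_cases hs : s
    · exact Or.inr (by simpa [lit, hs] using h)
    · exact Or.inl (by simpa [lit, hs] using h)
  · rintro l γ' ⟨h1, -, h3⟩ e
    obtain ⟨u, hu⟩ := AllT.exists h1 h3
    rw [e] at hu
    exact (y u.2).not_has_bot hu

theorem exists_reap (L : Type) [Coded N L] [Succ N L K] {σ : K → Nd → ℕ → Prop} (hσ : Enu N σ)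
    {y : List ℕ → Pt N A} (hy : DefF N y)
    (hno : ¬ ∃ e : K → A, DefF N e ∧ Indep e (fun _ => True)) :
    ∃ F : K → K, DefF N F ∧ Reap σ y F := by
  have hK : Succ N L K := inferInstance
  have := hK.big
  have := hK.ne
  have hd := hσ.defn
  obtain ⟨D, hD, HD⟩ := choice' (N := N) (p := fun z : K × Nd => Sel (σ z.1))
    (R := fun (z : K × Nd) (δ : K) => ∀ b, ∃ γ', γ' < δ ∧ Sel (σ γ') ∧ SLe (σ γ') (σ z.1) ∧
      (AllT (σ γ') (hat y b) (ht z.2) z.2 ∨ AllT (σ γ') (hat y bᶜ) (ht z.2) z.2))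
    (by simp only [all_eq]; fun_prop) fun z h => reap_one L hσ hy hno z.1 z.2 h
  obtain ⟨F, hF, HF⟩ := exists_boundS (N := N) (L := L) (K := K) (W := K)
    (p := fun _ (_ : Nd) => True) (by fun_prop) (fun _ => ctble_sm ctble_nd)
    (f := fun γ v => D (γ, v)) (by fun_prop)
  refine ⟨F, hF, fun γ v b h => ?_⟩
  obtain ⟨γ', h1, h2⟩ := HD (γ, v) h b
  exact ⟨γ', h1.trans (HF γ v trivial), h2⟩

end Pool.Agent.P.MP_5a7d1f_lc.Nik
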