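import Pool.Agent.P.MP_5a7d1f_lc.Nik.Basic

/-!
Towers and a decreasing sequence of functions, from MA.
-/

set_option synthInstance.maxSize 16384
set_option linter.unusedSectionVars false

namespace Pool.Agent.P.MP_5a7d1f_lc.Nik

open Pool.Agent.Lib.Typed Pool.Agent.P.MP_5a7d1f_lc.Gro

variable {N : Set ZFSet.{0}} [ZFC N] [Enum N] {K L : Type} [Coded N K] [Coded N L]
  [LinearOrder K] {A : Type} [Coded N A] [BooleanAlgebra A] [BA N A]

theorem Tower_bound {X : Type} (l : List X) {p : X → ℕ → Prop}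
    (h : ∀ x, ∃ m, ∀ n, m ≤ n → p x n) : ∃ m, ∀ x ∈ l, ∀ n, m ≤ n → p x n := by
  induction l with
  | nil => exact ⟨0, by simp⟩
  | cons a l ih =>
    obtain ⟨m, hm⟩ := ih
    obtain ⟨m', hm'⟩ := h a
    exact ⟨max m m', List.forall_mem_cons.2 ⟨fun n hn => hm' n ((le_max_right _ _).trans hn),
      fun x hx n hn => hm x hx n ((le_max_left _ _).trans hn)⟩⟩

theorem Tower_init (s : ℕ → ℕ) (m : ℕ) : ∃ b, ∀ k, k < m → s k < b :=
  ⟨(Finset.range m).sup s + 1, fun _ hk =>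
    Nat.lt_succ_of_le (Finset.le_sup (f := s) (Finset.mem_range.2 hk))⟩

theorem Tower_slow [Big N L] (ma : MAT N L) {p : L → Prop} (hp : DefF N p) {g : L → ℕ → ℕ}
    (hg : DefF N (fun z : L × ℕ => g z.1 z.2))
    (h : ∀ i, p i → ∀ j, ∃ m, ∀ n, m ≤ n → j ≤ g i n) :
    ∃ y : ℕ → ℕ, DefF N y ∧ (∀ n, y n ≤ n) ∧ (∀ j, ∃ m, ∀ n, m ≤ n → j ≤ y n) ∧
      ∀ i, p i → ∃ m, ∀ n, m ≤ n → y n < g i n := by
  classical
  obtain ⟨s, hs, Hs⟩ := ma.pseudo (X := ℕ × ℕ) (L' := L × ℕ)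
    (Sm.prod' (L := ℕ) sm_self sm_self) (Sm.prod' sm_self Big.nat)
    (F := fun z x => z.2 ≤ x.1 ∧ (p z.1 → ∀ n, x.2 ≤ n → x.1 < g z.1 n))
    (by simp only [all_eq, imp_eq]; fun_prop) (fun l => by
      obtain ⟨J, hJ⟩ := Tower_bound l (p := fun z n => z.2 ≤ n) fun z => ⟨z.2, fun _ h => h⟩
      obtain ⟨m, hm⟩ := Tower_bound l (p := fun z n => p z.1 → J < g z.1 n) fun z => by
        by_cases hz : p z.1
        · exact (h _ hz (J + 1)).imp fun _ k n hn _ => k n hn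
        · exact ⟨0, fun _ _ k => (hz k).elim⟩
      exact ⟨(J, m), fun z hz => ⟨hJ z hz J le_rfl, fun k n hn => hm z hz n hn k⟩⟩)
  obtain ⟨y, hy, Hy⟩ := choice (N := N) (R := fun n v : ℕ => v ≤ n ∧
      (v = 0 ∨ ∃ k, (s k).1 = v ∧ (s k).2 ≤ n) ∧ ∀ k, (s k).1 ≤ n → (s k).2 ≤ n → (s k).1 ≤ v)
    (by simp only [all_eq, imp_eq]; fun_prop) (fun n => by
      obtain ⟨k1, k2, k3⟩ := (Nat.findGreatest_eq_iff
        (P := fun v => ∃ k, (s k).1 = v ∧ (s k).2 ≤ n) (k := n)).1 rfl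
      exact ⟨_, k1, or_iff_not_imp_left.2 k2,
        fun k h1 h2 => not_lt.1 fun h3 => k3 h3 h1 ⟨k, rfl, h2⟩⟩)
  refine ⟨y, hy, fun n => (Hy n).1, fun j => ?_, fun i hi => ?_⟩
  · obtain ⟨k, hk⟩ := Hs ((Big.nonempty N L).some, j)
    exact ⟨max (s k).1 (s k).2, fun n hn => (hk k le_rfl).1.trans
      ((Hy n).2.2 k ((le_max_left _ _).trans hn) ((le_max_right _ _).trans hn))⟩
  · obtain ⟨k0, hk⟩ := Hs (i, 0)
    obtain ⟨b, hb⟩ := Tower_init (fun k => (s k).1) k0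
    obtain ⟨m, hm⟩ := h i hi (b + 1)
    refine ⟨m, fun n hn => ?_⟩
    have h1 := hm n hn
    rcases (Hy n).2.1 with h2 | ⟨k, h2, h3⟩
    · omega
    · rcases lt_or_ge k k0 with h4 | h4
      · have h5 := hb k h4
        omega
      · exact h2 ▸ (hk k h4).2 hi n h3

theorem exists_g [Succ N L K] (ma : MAT N L) : ∃ g : K → ℕ → ℕ,
    DefF N (fun z : K × ℕ => g z.1 z.2) ∧ (∀ ε n, g ε n ≤ n) ∧
      ∀ δ ε, δ < ε → ∃ m, ∀ n, m ≤ n → g ε n < g δ n := by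
  have hL : Big N L := Succ.big K
  have : Nonempty (DFun N ℕ ℕ) := ⟨⟨fun n => n, DefF.id⟩⟩
  obtain ⟨s, hs, Hs⟩ := tdc (N := N) (K := K) (Y := DFun N ℕ ℕ) (R := fun i g y =>
      (∀ n, y.app n ≤ n) ∧ (∀ j, ∃ m, ∀ n, m ≤ n → j ≤ y.app n) ∧
        ∀ δ, δ < i → ∃ m, ∀ n, m ≤ n → y.app n < (g δ).app n)
    (by simp only [all_eq, imp_eq]; fun_prop)
    (fun i g g' y h H => ⟨H.1, H.2.1, fun δ hδ => h δ hδ ▸ H.2.2 δ hδ⟩) (fun i g hg H => by
      obtain ⟨e, he, He⟩ := Succ.small_lt (N := N) (L := L) i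
      obtain ⟨y, k1, k2, k3, k4⟩ := Tower_slow ma (p := fun a => e a < i) (by fun_prop)
        (g := fun a n => (g (e a)).app n) (by fun_prop) fun a ha => (H _ ha).2.1
      refine ⟨⟨y, k1⟩, k2, k3, fun δ hδ => ?_⟩
      obtain ⟨a, rfl⟩ := He δ hδ
      exact k4 a hδ)
  exact ⟨fun ε n => (s ε).app n, by fun_prop, fun ε => (Hs ε).1, fun δ ε h => (Hs ε).2.2 δ h⟩

theorem tower_step [Succ N L K] (ma : MAT N L) {X : Type} [Coded N X] (ε : K)
    {t : K → X → ℕ → Prop} (ht' : DefF N (fun z : K × X × ℕ => t z.1 z.2.1 z.2.2))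
    (hi : ∀ δ, δ < ε → ∀ x, Unb (t δ x))
    (hm : ∀ δ δ', δ < δ' → δ' < ε → ∀ x, Alm (t δ' x) (t δ x)) :
    ∃ r : X → ℕ → Prop, DefF N (fun z : X × ℕ => r z.1 z.2) ∧
      ∀ x, Unb (r x) ∧ ∀ δ, δ < ε → Alm (r x) (t δ x) := by
  have hL : Big N L := Succ.big K
  obtain ⟨e, he, He⟩ := Succ.small_lt (N := N) (L := L) ε
  obtain ⟨r, hr, Hr⟩ := choice (N := N) (R := fun (x : X) (r : DSet N ℕ) =>
      Unb r.Mem ∧ ∀ δ, δ < ε → Alm r.Mem (t δ x))
    (by simp only [all_eq, imp_eq]; fun_prop) (fun x => by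
      obtain ⟨s, hs, Hs⟩ := ma.pseudo (X := ℕ) (L' := L × ℕ) ctble_nat (Sm.prod' sm_self Big.nat)
        (F := fun z n => z.2 ≤ n ∧ (e z.1 < ε → t (e z.1) x n))
        (by simp only [imp_eq]; fun_prop) (fun l => by
          have h1 : (∀ z ∈ l, ¬ e z.1 < ε) ∨ ∃ δ, δ < ε ∧ ∀ z ∈ l, e z.1 < ε → e z.1 ≤ δ := by
            induction l with
            | nil => exact Or.inl (by simp)
            | cons a l ih =>
              by_cases ha : e a.1 < ε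
              · rcases ih with h | ⟨δ, h, h'⟩
                · exact Or.inr ⟨_, ha, List.forall_mem_cons.2
                    ⟨fun _ => le_rfl, fun z hz k => (h z hz k).elim⟩⟩
                · exact Or.inr ⟨max (e a.1) δ, max_lt ha h, List.forall_mem_cons.2
                    ⟨fun _ => le_max_left _ _, fun z hz k => (h' z hz k).trans (le_max_right _ _)⟩⟩
              · exact ih.imp (fun h => List.forall_mem_cons.2 ⟨ha, h⟩) fun ⟨δ, h, h'⟩ =>
                  ⟨δ, h, List.forall_mem_cons.2 ⟨fun k => (ha k).elim, h'⟩⟩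
          obtain ⟨J, hJ⟩ := Tower_bound l (p := fun z n => z.2 ≤ n) fun z => ⟨z.2, fun _ h => h⟩
          rcases h1 with h | ⟨δ, h, h'⟩
          · exact ⟨J, fun z hz => ⟨hJ z hz J le_rfl, fun k => (h z hz k).elim⟩⟩
          · have h2 : Alm (t δ x) fun n => ∀ z ∈ l, e z.1 < ε → t (e z.1) x n :=
              Alm.list fun z hz => by
                by_cases k : e z.1 < ε
                · rcases (h' z hz k).eq_or_lt with k' | k'
                  · exact Alm.of_le fun n k1 _ => k' ▸ k1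
                  · exact (hm _ _ k' h x).trans (Alm.of_le fun n k1 _ => k1)
                · exact Alm.of_le fun n _ k1 => (k k1).elim
            obtain ⟨n, k1, -, k2⟩ := (hi δ h x).alm h2 J
            exact ⟨n, fun z hz => ⟨hJ z hz n k1, k2 z hz⟩⟩)
      refine ⟨⟨fun n => ∃ k, s k = n, by fun_prop⟩, fun m => ?_, fun δ hδ => ?_⟩
      · obtain ⟨k, hk⟩ := Hs ((Big.nonempty N L).some, m)
        exact ⟨s k, (hk k le_rfl).1, k, rfl⟩
      · obtain ⟨a, rfl⟩ := He δ hδ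
        obtain ⟨k0, hk⟩ := Hs (a, 0)
        obtain ⟨b, hb⟩ := Tower_init s k0
        refine ⟨b, ?_⟩
        rintro _ hn ⟨k, rfl⟩
        exact (hk k (not_lt.1 fun h => (hb k h).not_ge hn)).2 hδ)
  exact ⟨fun x => (r x).Mem, by fun_prop, Hr⟩

end Pool.Agent.P.MP_5a7d1f_lc.Nik
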