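import Pool.Agent.P.MP_5a7d1f_lc.Nik.Job
import Pool.Agent.P.MP_5a7d1f_lc.Nik.Tower

/-!
The recursion.
-/

set_option synthInstance.maxSize 16384
set_option linter.unusedSectionVars false

namespace Pool.Agent.P.MP_5a7d1f_lc.Nik

open Pool.Agent.Lib.Typed Pool.Agent.P.MP_5a7d1f_lc.Gro

variable {N : Set ZFSet.{0}} [ZFC N] [Enum N] {K L : Type} [Coded N K] [Coded N L]
  [LinearOrder K] {A : Type} [Coded N A] [BooleanAlgebra A] [BA N A]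

theorem rec_rep {σ t t' : K → Nd → ℕ → Prop} {C : List ℕ → A} {y : List ℕ → Pt N A} {ε : K}
    {p : Nd → Pt N A} (h : ∀ β, β < ε → t β = t' β) (H : Rep σ t C y ε p) : Rep σ t' C y ε p :=
  ⟨fun v a => (H.1 v a).trans (forall₂_congr fun β hβ => by rw [h β hβ]), H.2⟩

theorem rec_job {r t : Nd → ℕ → Prop} {S : ℕ → Prop} {g : ℕ → ℕ} {p : Nd → Pt N A} {b : A}
    {G : Nd → Prop} : Job r t S g p b G ↔ (∀ n, S n → G (n, [])) ∧
      (∀ v m, G v → v.2.length < g v.1 → t v m → G (v.1, m :: v.2)) ∧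
      ∀ v, G v → v.2.length = g v.1 → (Unb fun m => r v m ∧ (p (v.1, m :: v.2)).has b) ∧
        Unb fun m => r v m ∧ (p (v.1, m :: v.2)).has bᶜ :=
  ⟨fun h => ⟨h.1, h.2, h.3⟩, fun h => ⟨h.1, h.2.1, h.2.2⟩⟩

/-- The requirements of one stage of the recursion. -/
def RecSt (N : Set ZFSet.{0}) [ZFC N] {A K : Type} [Coded N A] [BooleanAlgebra A] [BA N A]
    [LinearOrder K] (σ : K → Nd → ℕ → Prop) (C : List ℕ → A) (y : List ℕ → Pt N A)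
    (g : K → ℕ → ℕ) (ε : K) (T : K → Nd → ℕ → Prop) (U : K → ℕ → Prop) (t r : Nd → ℕ → Prop)
    (S : ℕ → Prop) (b : A) (G : Nd → Prop) : Prop :=
  Sel t ∧ SLe t r ∧ (∀ δ, δ < ε → Rk r (T δ)) ∧ Unb S ∧ (∀ δ, δ < ε → Alm S (U δ)) ∧
    (∀ v, (∀ m, t v m → σ ε v m) ∨ ∀ m, t v m → ¬ σ ε v m) ∧
    ∀ p : DFun N Nd (Pt N A), Rep σ T C y ε p.app → Job r t S (g ε) p.app b G

theorem rec_step [Succ N L K] (ma : MAT N L) (hP : PairSep N A) {σ : K → Nd → ℕ → Prop}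
    (hσ : Enu N σ) {C : List ℕ → A} {y : List ℕ → Pt N A} (hT : CTree N C y) {g : K → ℕ → ℕ}
    (hg : DefF N (fun z : K × ℕ => g z.1 z.2)) (ε : K) {T : K → Nd → ℕ → Prop}
    {U : K → ℕ → Prop} (dT : DefF N (fun z : K × Nd × ℕ => T z.1 z.2.1 z.2.2))
    (dU : DefF N (fun z : K × ℕ => U z.1 z.2)) (h1 : ∀ δ, δ < ε → Sel (T δ))
    (h2 : ∀ δ δ', δ < δ' → δ' < ε → Rk (T δ') (T δ)) (h3 : ∀ δ, δ < ε → Unb (U δ))
    (h4 : ∀ δ δ', δ < δ' → δ' < ε → Alm (U δ') (U δ)) :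
    ∃ (t r : DSet N (Nd × ℕ)) (S : DSet N ℕ) (b : A) (G : DSet N Nd),
      RecSt N σ C y g ε T U (fun v m => t.Mem (v, m)) (fun v m => r.Mem (v, m)) S.Mem b G.Mem := by
  have dσ := hσ.defn
  obtain ⟨r, dr, hr⟩ := tower_step ma ε dT h1 h2
  obtain ⟨R, dR, hR⟩ := tower_step ma (X := ℕ) ε (t := fun δ _ => U δ) (by fun_prop)
    (fun δ h _ => h3 δ h) fun δ δ' h h' _ => h4 δ δ' h h'
  obtain ⟨b, G, t, S, dG, dt, dS, k1, k2, k3, k4, k5⟩ : ∃ (b : A) (G : Nd → Prop)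
      (t : Nd → ℕ → Prop) (S : ℕ → Prop), DefF N G ∧ DefF N (fun z : Nd × ℕ => t z.1 z.2) ∧
      DefF N S ∧ Sel t ∧ SLe t r ∧ Unb S ∧ (∀ n, S n → R 0 n) ∧
      ∀ p : DFun N Nd (Pt N A), Rep σ T C y ε p.app → Job r t S (g ε) p.app b G := by
    by_cases h : ∃ p : DFun N Nd (Pt N A), Rep σ T C y ε p.app
    · obtain ⟨p, hp⟩ := h
      obtain ⟨b, G, t, S, dG, dt, dS, k1, k2, k3, k4, k5⟩ := exists_job hP hT dr (fun v => (hr v).1)
        (S := R 0) (by fun_prop) (hR 0).1 (g := g ε) (by fun_prop) p.def_app hp.2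
      refine ⟨b, G, t, S, dG, dt, dS, k1, k2, k3, k4, fun q hq => ?_⟩
      rw [show q.app = p.app from
        funext fun v => Pt.ext fun a => (hq.1 v a).trans (hp.1 v a).symm]
      exact k5
    · exact ⟨⊥, fun _ => True, r, R 0, by fun_prop, dr, by fun_prop, fun v => (hr v).1,
        fun _ _ h => h, (hR 0).1, fun _ h => h, fun p hp => (h ⟨p, hp⟩).elim⟩
  refine ⟨⟨fun z => t z.1 z.2 ∧ (σ ε z.1 z.2 ↔ Unb fun m => t z.1 m ∧ σ ε z.1 m), by fun_prop⟩,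
    ⟨_, dr⟩, ⟨S, dS⟩, b, ⟨G, dG⟩, fun v => ?_, fun v m h => k2 v m h.1,
    fun δ h v => (hr v).2 δ h, k3, fun δ h => (Alm.of_le k4).trans ((hR 0).2 δ h), fun v => ?_,
    fun p hp => ⟨(k5 p hp).root, fun v m a b c => (k5 p hp).up v m a b c.1, (k5 p hp).split⟩⟩
  · by_cases h : Unb fun m => t v m ∧ σ ε v m
    · exact h.mono fun m k => ⟨k.1, iff_of_true k.2 h⟩
    · exact ((k1 v).alm (not_unb.1 h)).mono fun m k => ⟨k.1, iff_of_false k.2 h⟩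
  · by_cases h : Unb fun m => t v m ∧ σ ε v m
    · exact Or.inl fun m k => k.2.2 h
    · exact Or.inr fun m k k' => h (k.2.1 k')

theorem exists_rc [Succ N L K] (ma : MAT N L) (hP : PairSep N A) {σ : K → Nd → ℕ → Prop}
    (hσ : Enu N σ) {C : List ℕ → A} {y : List ℕ → Pt N A} (hT : CTree N C y) {g : K → ℕ → ℕ}
    (hg : DefF N (fun z : K × ℕ => g z.1 z.2)) :
    ∃ t r S b G, Rc N σ C y g t r S b G := by
  have dσ := hσ.defn
  have dC := hT.defC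
  have dy := hT.defy
  have : Nonempty (DSet N (Nd × ℕ) × DSet N (Nd × ℕ) × DSet N ℕ × A × DSet N Nd) :=
    ⟨⟨⟨fun _ => True, by fun_prop⟩, ⟨fun _ => True, by fun_prop⟩, ⟨fun _ => True, by fun_prop⟩, ⊥,
      ⟨fun _ => True, by fun_prop⟩⟩⟩
  obtain ⟨s, hs, H⟩ := tdc (N := N) (K := K)
    (Y := DSet N (Nd × ℕ) × DSet N (Nd × ℕ) × DSet N ℕ × A × DSet N Nd)
    (R := fun ε s z => RecSt N σ C y g ε (fun δ v m => (s δ).1.Mem (v, m))
      (fun δ n => (s δ).2.2.1.Mem n) (fun v m => z.1.Mem (v, m)) (fun v m => z.2.1.Mem (v, m))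
      z.2.2.1.Mem z.2.2.2.1 z.2.2.2.2.Mem)
    (by
      simp only [RecSt, Rep, rec_job, all_eq, imp_eq]
      fun_prop)
    (fun ε s s' z h ⟨k1, k2, k3, k4, k5, k6, k7⟩ => ⟨k1, k2,
      fun δ hδ => by simpa only [← h δ hδ] using k3 δ hδ, k4,
      fun δ hδ => by simpa only [← h δ hδ] using k5 δ hδ, k6,
      fun p hp => k7 p (rec_rep (fun δ hδ => by rw [h δ hδ]) hp)⟩)
    (fun ε s hs ih => by
      obtain ⟨t, r, S, b, G, h⟩ := rec_step ma hP hσ hT hg ε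
        (T := fun δ v m => (s δ).1.Mem (v, m)) (U := fun δ n => (s δ).2.2.1.Mem n) (by fun_prop)
        (by fun_prop) (fun δ h => (ih δ h).1)
        (fun δ δ' h h' => (ih δ' h').2.1.rk.trans ((ih δ' h').2.2.1 δ h))
        (fun δ h => (ih δ h).2.2.2.1) fun δ δ' h h' => (ih δ' h').2.2.2.2.1 δ h
      exact ⟨(t, r, S, b, G), h⟩)
  have mono : ∀ δ ε, δ ≤ ε →
      Rk (fun v m => (s ε).1.Mem (v, m)) fun v m => (s δ).1.Mem (v, m) := fun δ ε h => by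
    rcases h.eq_or_lt with rfl | h
    exacts [Rk.refl _, (H ε).2.1.rk.trans ((H ε).2.2.1 δ h)]
  refine ⟨fun ε v m => (s ε).1.Mem (v, m), fun ε v m => (s ε).2.1.Mem (v, m),
    fun ε n => (s ε).2.2.1.Mem n, fun ε => (s ε).2.2.2.1, fun ε v => (s ε).2.2.2.2.Mem v,
    by fun_prop, by fun_prop, by fun_prop, by fun_prop, by fun_prop, fun ε => (H ε).1, mono,
    fun δ ε h => (H ε).2.2.1 δ h, fun ε => (H ε).2.2.2.1, fun δ ε h => ?_, fun v Q hQ => ?_,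
    fun ε p dp hp => (H ε).2.2.2.2.2.2 ⟨p, dp⟩ hp⟩
  · rcases h.eq_or_lt with rfl | h
    exacts [Alm.refl _, (H ε).2.2.2.2.1 δ h]
  · obtain ⟨β, hβ⟩ := hσ.all (fun _ => Q) (by fun_prop)
    have h := (H β).2.2.2.2.2.1 v
    rw [hβ] at h
    exact ⟨β, h.imp (fun k γ l => (mono β γ l v).trans (Alm.of_le k))
      fun k γ l => (mono β γ l v).trans (Alm.of_le k)⟩

end Pool.Agent.P.MP_5a7d1f_lc.Nik
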