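import Pool.Agent.P.MP_5a7d1f_lc.Nik.Nikodym
import Pool.Agent.P.MP_5a7d1f_lc.Nik.Reap
import Pool.Agent.P.MP_5a7d1f_lc.Nik.Rec
import Pool.Agent.P.MP_5a7d1f_lc.Nik.Ready
import Pool.Agent.P.MP_5a7d1f_lc.Nik.Final

/-!
The theorem inside the model.
-/

set_option synthInstance.maxSize 16384
set_option linter.unusedSectionVars false

namespace Pool.Agent.P.MP_5a7d1f_lc.Nik

open Pool.Agent.Lib.Typed Pool.Agent.P.MP_5a7d1f_lc.Gro

variable {N : Set ZFSet.{0}} [ZFC N] [Enum N] {K L : Type} [Coded N K] [Coded N L]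
  [LinearOrder K] {A : Type} [Coded N A] [BooleanAlgebra A] [BA N A]

theorem indep_of_seal [Succ N L K] [Infinite A] (ma : MAT N L)
    (hc : Sm N K (fun _ : DSet N ℕ => True)) (hS : SealP N K) (hP : PairSep N A) :
    ∃ e : K → A, DefF N e ∧ Indep e (fun _ => True) := by
  by_contra hno
  obtain ⟨σ, hσ⟩ := exists_enu hc
  obtain ⟨C, y, hT⟩ := exists_ctree hP
  obtain ⟨F, hF, hR⟩ := exists_reap L hσ hT.defy hno
  obtain ⟨g, hg, g1, g2⟩ := exists_g (K := K) ma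
  obtain ⟨t, r, S, b, G, h⟩ := exists_rc ma hP hσ hT hg
  obtain ⟨β, hβ⟩ := exists_rdy L hS hσ hT hF hR h
  exact hno (indep_of_rdy L hσ hT hg g1 g2 h hβ)

omit [Coded N A] [BA N A] in
theorem main_in [hK : Succ N L K] [Infinite A] (ma : MAT N L)
    (hc : Sm N K (fun _ : DSet N ℕ => True)) (hS : SealP N K) (c : A → ZFSet.{0})
    (h1 : IsAlgebraIn N c) (h2 : NikodymIn N c ∨ GrothendieckIn N c) : ContainsBetaIn N c := by
  let _ : Coded N A := ⟨c, h1.inj, by
    convert h1.carrier using 1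
    ext z
    simp [mem_setCode, ZFSet.mem_range]⟩
  have : BA N A := ⟨(funCode_mem_iff (X := A × A)).1 h1.inf, funCode_mem_iff.1 h1.compl⟩
  obtain ⟨x, -⟩ := exists_points (N := N) (A := A)
  have : Nonempty (Pt N A) := ⟨x 0⟩
  have := hK.ne
  obtain ⟨e, he, h3⟩ := indep_of_seal ma hc hS
    (h2.elim NikodymIn.pairSep fun k => (GrothendieckIn.gstar k).pairSep)
  obtain ⟨j, hj, h4⟩ := hc.exists_inj
  exact Gro.containsBeta (e := fun S => e (j S)) (by fun_prop) (h3.comp (fun _ h => h) h4)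

end Pool.Agent.P.MP_5a7d1f_lc.Nik
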