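import Pool.Agent.P.MP_5a7d1f_lc.Nik.FDefs

/-!
Lists of names.
-/

set_option synthInstance.maxSize 16384
set_option linter.unusedSectionVars false

namespace Pool.Agent.P.MP_5a7d1f_lc.Nik

open Pool.Agent.Lib.Typed Pool.Agent.P.MP_5a7d1f_lc.Gro

variable {M : Set ZFSet.{0}} [ZFC M] [Enum M] {W K L : Type} [Coded M W] [Coded M K] [Coded M L]
  [LinearOrder W] [LinearOrder K]

/-- The natural numbers are small with respect to `W`. -/
theorem names_sm_nat [hW : Succ M ℕ W] : Sm M W (fun _ : ℕ => True) := by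
  obtain ⟨w0⟩ := hW.ne
  obtain ⟨g, hg, Hg⟩ := choice (N := M) (R := fun (a b : W) => a < b) (by fun_prop)
    (fun a => Succ.exists_gt (N := M) (L := ℕ) a)
  let s : ℕ → W := fun n => Nat.rec w0 (fun _ w => g w) n
  have hs : DefF M s := (DefF.natRec (N := M) (W := ℕ) (a := fun _ => w0) (s := fun _ _ w => g w)
    (by fun_prop) (by fun_prop)).comp (f := fun n : ℕ => ((0 : ℕ), n)) (by fun_prop)
  have hm : StrictMono s := strictMono_nat_of_lt_succ fun n => Hg (s n)
  exact Sm.of_inj (q := fun _ : W => True) sm_self (DefF.const True) hs (fun _ _ => trivial)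
    fun x y _ _ h => hm.injective h

/-- A definable retraction of `W` onto the pairs of natural numbers. -/
theorem names_retract [Succ M ℕ W] : ∃ (r : W → ℕ × ℕ) (j : ℕ × ℕ → W), DefF M r ∧ DefF M j ∧
    ∀ z, r (j z) = z := by
  obtain ⟨r, hr, Hr⟩ : Sm M W (fun _ : ℕ × ℕ => True) :=
    (names_sm_nat (M := M) (W := W)).trans (Big.pair (N := M) (L := ℕ))
  obtain ⟨j, hj, Hj⟩ := choice (N := M) (R := fun (z : ℕ × ℕ) (w : W) => r w = z) (by fun_prop)
    (fun z => Hr z trivial)
  exact ⟨r, j, hr, hj, Hj⟩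

theorem names_sm_below [hK : Succ M L K] (β : K) : Sm M L (fun x : Cond K L => Below β x) :=
  have := hK.big
  ((Succ.small_lt (N := M) (L := L) β).prod sm_self).list.mono fun _ hx z hz =>
    ⟨hx.2 z hz, trivial⟩

theorem names_below_nil (β : K) : Below β ([] : Cond K L) :=
  ⟨fun _ hz => by simp at hz, fun _ hz => by simp at hz⟩

theorem exists_aux [Succ M ℕ W] [Succ M L K] (hW : Sm M L (fun _ : W => True))
    (hp : PowL M W L) : ∃ (nm : K → L → ℕ × ℕ → List (Cond K L)) (tw : L → W → L)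
      (π : K → L → Elt W K L), Aux M nm tw π := by
  classical
  have hL : Big M L := Succ.big (K := K)
  obtain ⟨tw, htw, Htw⟩ := hp
  obtain ⟨r, j, hr, hj, Hj⟩ := names_retract (M := M) (W := W)
  obtain ⟨g, hg, Hg⟩ := exists_enumS (N := M) (L := L)
    (R := fun (β : K) (l : List (Cond K L)) => ∀ x ∈ l, Below β x)
    (by simp only [all_eq, imp_eq]; fun_prop) (fun β => (names_sm_below β).list)
  have hI : Sm M L (fun _ : List (Item W L) => True) :=
    (sm_self.prod' (hW.prod' (sm_self.prod' (sm_self.prod' hL.nat)))).list'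
  obtain ⟨p, hp, Hp⟩ := exists_enumS (N := M) (L := L)
    (R := fun (β : K) (u : Elt W K L) => Below β u.1) (by fun_prop)
    (fun β => ((names_sm_below β).prod hI).mono fun _ h => ⟨h, trivial⟩)
  refine ⟨fun β a z => if ∀ x ∈ g β (tw a (j z)), Below β x then g β (tw a (j z)) else [], tw,
    fun β ξ => if Below β (p β ξ).1 then p β ξ else ([], []), ?_, htw, ?_, ?_, ?_, Htw, ?_, ?_⟩
  · simp only [all_eq, imp_eq]
    fun_prop
  · fun_prop
  · intro β a z x hx
    split_ifs at hx with h
    · exact h x hx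
    · simp at hx
  · intro β f hf Hf
    obtain ⟨c, hc, Hc⟩ := choice (N := M) (R := fun (z : ℕ × ℕ) (n : L) => g β n = f z)
      (by fun_prop) (fun z => Hg β (f z) (Hf z))
    obtain ⟨θ, hθ⟩ := Htw (fun w => c (r w)) (by fun_prop)
    refine ⟨θ, funext fun z => ?_⟩
    have e : g β (tw θ (j z)) = f z := by rw [hθ]; simp only [Hj, Hc]
    simp only [e]
    exact if_pos (Hf z)
  · intro β ξ
    split_ifs with h
    exacts [h, names_below_nil β]
  · intro β x l hx
    obtain ⟨ξ, hξ⟩ := Hp β (x, l) hx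
    refine ⟨ξ, ?_⟩
    simp only [hξ]
    exact if_pos hx

end Pool.Agent.P.MP_5a7d1f_lc.Nik
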