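import Pool.Agent.P.MP_5a7d1f_lc.Nik.FDefs

/-!
Names with bounded support, and a closed limit of a run of the ground model.
-/

set_option synthInstance.maxSize 16384
set_option linter.unusedSectionVars false

namespace Pool.Agent.P.MP_5a7d1f_lc.Nik

open Pool.Agent.Lib.Typed Pool.Agent.P.MP_5a7d1f_lc.Gro

variable {M : Set ZFSet.{0}} [ZFC M] [Enum M] {W K L : Type} [Coded M W] [Coded M K] [Coded M L]
  [LinearOrder W] [LinearOrder K]

variable {N : Set ZFSet.{0}} [ZFC N] [Coded N W] [Coded N K] [Coded N L] [Same M N W] [Same M N K]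
  [Same M N L] {e : K → L × L × ℕ → List (Cond K L)} {d : K → L → L → Cond K L → Prop}

theorem exists_names [Succ M L K] (h : It M e d) {H : Cond K L → Prop}
    (g : Gen M N Fu (LeJ d fun _ => True) H) {Z : K → Nd → ℕ → Prop}
    (hZ : DefF N (fun z : K × Nd × ℕ => Z z.1 z.2.1 z.2.2)) :
    ∃ (f : K → Nd → ℕ × ℕ → List (Cond K L)) (B : K → K),
      DefF M (fun z : K × Nd × ℕ × ℕ => f z.1 z.2.1 z.2.2) ∧ DefF M B ∧
      (∀ γ v z, ∀ x ∈ f γ v z, Below (B γ) x) ∧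
      ∀ γ v m, Z γ v m ↔ ∃ k, ∃ x ∈ f γ v (m, k), H x := by
  have hK : Succ M L K := inferInstance
  have := hK.big
  have := Big.nonempty M L
  have := hK.ne
  obtain ⟨n, h1, h2, h3⟩ := g.name h.ccc hZ
  have h4 : Sm M L (fun _ : Nd × ℕ × ℕ => True) :=
    (ctble_sm (L := L) ctble_nd).prod' (Big.nat.prod' Big.nat)
  obtain ⟨B, hB, HB⟩ := exists_boundS (N := M) (L := L) (K := K)
    (p := fun (γ : K) (z : K × L) =>
      ∃ a : Nd × ℕ × ℕ, True ∧ ∃ x ∈ n (γ, a.1, a.2.1) a.2.2, z ∈ x) (by fun_prop)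
    (fun γ => h4.biUnion (R := fun a z => ∃ x ∈ n (γ, a.1, a.2.1) a.2.2, z ∈ x) (by fun_prop)
      fun a => (sm_mem_list (n (γ, a.1, a.2.1) a.2.2).flatten).mono
        fun _ k => List.mem_flatten.2 k)
    (f := fun _ z => z.1) (by fun_prop)
  exact ⟨fun γ v z => n (γ, v, z.1) z.2, B, by fun_prop, hB, fun γ v z x hx =>
    ⟨h2 _ _ x hx, fun y hy => HB γ y ⟨(v, z), trivial, x, hx, hy⟩⟩, fun γ v m => h3 (γ, v, m)⟩

theorem exists_stage [Succ M ℕ W] [Succ M L K] (hW : Sm M L (fun _ : W => True))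
    (h : It M e d) {H : Cond K L → Prop} (g : Gen M N Fu (LeJ d fun _ => True) H) {F : K → K}
    (hF : DefF N F) : ∃ (ε : K) (s : W → K), DefF M s ∧ Monotone s ∧ (∀ η, s η < ε) ∧
      (∀ γ, γ < ε → ∃ η, γ ≤ s η) ∧ Cl F ε ∧ IsLim ε ∧ UCof N ε := by
  have hK : Succ M L K := inferInstance
  have hV : Succ M ℕ W := inferInstance
  have := hK.big
  have := Big.nonempty M L
  have := hK.ne
  obtain ⟨U, hU, HU⟩ := g.cover h.ccc (L := K) K F hF
  obtain ⟨G, hG, HG⟩ := exists_boundS (N := M) (L := L) (K := K) hU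
    (fun a => ctble_sm (L := L) (HU a).1) (f := fun _ x => x) (by fun_prop)
  obtain ⟨Φ, hΦ, k1, k2⟩ := exists_above (N := M) (L := L) hG
  obtain ⟨t, ξ, ε, ht, -, k3, k4⟩ := exists_run' (V := W) hW hΦ fun a => (k1 a).le
  have k5 : ∀ i j, i < j → t i < t j := fun i j hij => (k3.lt j i hij).trans_le (k3.le j)
  have k6 : Monotone t := StrictMono.monotone k5
  refine ⟨ε, t, ht, k6, k3.top, k3.cof', ⟨⟨_, k3.top hV.ne.some⟩, fun γ hγ => ?_⟩,
    fun γ hγ => ?_, fun c hc H => ?_⟩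
  · obtain ⟨j, hj⟩ := k3.cof' γ hγ
    obtain ⟨j', hj'⟩ := hV.exists_gt j
    exact (HG γ _ (HU γ).2).trans
      ((k4 j' ▸ k2 _ _ (hj.trans (k3.lt _ _ hj').le) : _ < t j').trans (k3.top _))
  · obtain ⟨j, hj⟩ := k3.cof' γ hγ
    obtain ⟨j', hj'⟩ := hV.exists_gt j
    exact ⟨t j', hj.trans_lt (k5 _ _ hj'), k3.top _⟩
  · have hN : Succ N ℕ W := hV.up g.sub (g.cover h.ccc)
    have : WO N K := WO.up (M := M) g.sub
    have := DefF.up g.sub ht
    obtain ⟨j, hj, Hj⟩ := choice (N := N) (R := fun (n : ℕ) (k : W) => c n ≤ t k) (by fun_prop)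
      fun n => k3.cof' _ (H n)
    obtain ⟨b, hb⟩ := hN.bdd j hj
    exact ⟨t b, k3.top b, fun n => (Hj n).trans (k6 (hb n).le)⟩

end Pool.Agent.P.MP_5a7d1f_lc.Nik
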