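import Pool.Agent.P.MP_5a7d1f_lc.Nik.Ext
import Pool.Agent.P.MP_5a7d1f_lc.Nik.Cross
import Pool.Agent.P.MP_5a7d1f_lc.Nik.Stage

/-!
The sealing principle in the extension.
-/

set_option synthInstance.maxSize 16384
set_option linter.unusedSectionVars false

namespace Pool.Agent.P.MP_5a7d1f_lc.Nik

open Pool.Agent.Lib.Forcing Pool.Agent.Lib.Typed Pool.Agent.P.MP_5a7d1f_lc.Gro

variable {M : Set ZFSet.{0}} [ZFC M] [Enum M] {W K L : Type} [Coded M W] [Coded M K] [Coded M L]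
  [LinearOrder W] [LinearOrder K]

variable {nm : K → L → ℕ × ℕ → List (Cond K L)} {tw : L → W → L} {π : K → L → Elt W K L}

variable {N : Set ZFSet.{0}} [ZFC N] [Coded N W] [Coded N K] [Coded N L] [Same M N W] [Same M N K]
  [Same M N L] {e : K → L × L × ℕ → List (Cond K L)} {d : K → L → L → Cond K L → Prop}

theorem sealP_bound {K L : Type} [LinearOrder K] {ε γ : K} (h : γ < ε) (l : List (K × L))
    (hl : ∀ z ∈ l, z.1 < ε) : ∃ b, b < ε ∧ ∀ z ∈ l, z.1 ≤ b := by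
  induction l with
  | nil => exact ⟨γ, h, by simp⟩
  | cons z l ih =>
    obtain ⟨b, k1, k2⟩ := ih fun y hy => hl y (List.mem_cons_of_mem _ hy)
    exact ⟨max z.1 b, max_lt (hl z List.mem_cons_self) k1, List.forall_mem_cons.2
      ⟨le_max_left _ _, fun y hy => (k2 y hy).trans (le_max_right _ _)⟩⟩

theorem sealP [Succ M ℕ W] [Succ M L K] (hM : IsZFModel M) (hc : M.Countable)
    (hW : Sm M L (fun _ : W => True)) (h : It M e d) (aux : Aux M nm tw π)
    (hs : ∀ β, IsLim β → SpecS (Lb d β) (nm β) tw β (π β) (e β)) {H : Cond K L → Prop}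
    (g : Gen M N Fu (LeJ d fun _ => True) H) : SealP N K := by
  intro t E ht hE hsel hdec F hF
  have hK : Succ M L K := inferInstance
  have hV : Succ M ℕ W := inferInstance
  have := hK.big
  have := Big.nonempty M L
  have := hK.ne
  have hKN : Succ N L K := hK.up g.sub (g.cover h.ccc)
  have hVN : Succ N ℕ W := hV.up g.sub (g.cover h.ccc)
  have : Big N L := hKN.big
  have hnm := aux.def_nm
  obtain ⟨ft, Bt, t1, t2, t3, t4⟩ := exists_names h g ht
  obtain ⟨fe, Be, e1, e2, e3, e4⟩ := exists_names h g hE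
  obtain ⟨val, hv⟩ : ∃ val : K → L → ℕ → Prop, ∀ γ c m,
      val γ c m ↔ ∃ k, ∃ x ∈ nm γ c (m, k), H x := ⟨_, fun _ _ _ => Iff.rfl⟩
  have hval : DefF N (fun z : K × L × ℕ => val z.1 z.2.1 z.2.2) :=
    (g.eval (A := K × L × ℕ) (R := fun z x => ∃ k, x ∈ nm z.1 z.2.1 (z.2.2, k))
      (by fun_prop)).congr_iff fun z => Iff.trans
        ⟨fun ⟨x, k1, k, k2⟩ => ⟨k, x, k2, k1⟩, fun ⟨k, x, k1, k2⟩ => ⟨x, k2, k, k1⟩⟩ (hv _ _ _).symm
  obtain ⟨D, hD, HD⟩ := choice (N := N) (R := fun (z : K × L × Nd) (β : K) =>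
      (∀ γ, β ≤ γ → Alm (t γ z.2.2) (val z.1 z.2.1)) ∨
        ∀ γ, β ≤ γ → Alm (t γ z.2.2) fun n => ¬ val z.1 z.2.1 n)
    (by simp only [all_eq, imp_eq]; fun_prop) fun z => hdec z.2.2 _ (by fun_prop)
  obtain ⟨F0, hF0, HF0⟩ := exists_boundS (N := N) (L := L) (K := K)
    (p := fun (_ : K) (_ : L × Nd) => True) (by fun_prop)
    (fun _ => sm_self.prod' (ctble_sm ctble_nd)) (f := fun γ z => D (γ, z.1, z.2)) (by fun_prop)
  have t2' := DefF.up g.sub t2
  have e2' := DefF.up g.sub e2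
  obtain ⟨ε, s, s1, s2, s3, s4, cl, lim, uc⟩ := exists_stage hW h g
    (F := fun γ => max (max (F γ) (F0 γ)) (max (Bt γ) (Be γ))) (by fun_prop)
  have c0 : ∀ γ, γ < ε → F0 γ < ε := fun γ k =>
    ((le_max_right _ _).trans (le_max_left _ _)).trans_lt (cl.2 γ k)
  have ct : ∀ γ, γ < ε → Bt γ < ε := fun γ k =>
    ((le_max_left _ _).trans (le_max_right _ _)).trans_lt (cl.2 γ k)
  have ce : ∀ γ, γ < ε → Be γ < ε := fun γ k =>
    ((le_max_right _ _).trans (le_max_right _ _)).trans_lt (cl.2 γ k)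
  refine ⟨ε, cl.mono fun γ => (le_max_left _ _).trans (le_max_left _ _), uc,
    fun v Q hQ q1 q2 => ?_⟩
  have hvl : Vl (Lb d ε) (nm ε) (Gb d ε H) = val ε := funext₂ fun c m => propext <| by
    rw [(gf_gb h g ε).vl_iff (fun a z x hx => (aux.nm_below ε a z x hx).1), hv]
    exact exists_congr fun k => exists_congr fun x => and_congr_right fun hx =>
      gb_iff h g (aux.nm_below ε c _ x hx)
  obtain ⟨T, hT, HT⟩ := choice (N := M)
    (R := fun (η : W) (a : L) => ∀ z, nm ε a z = ft (s η) v z)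
    (by simp only [all_eq]; fun_prop) fun η => by
      obtain ⟨a, ha⟩ := aux.nm_all ε (ft (s η) v) (by fun_prop) fun z x hx =>
        ⟨(t3 _ _ _ x hx).1, fun y hy => ((t3 _ _ _ x hx).2 y hy).trans (ct _ (s3 η))⟩
      exact ⟨a, congrFun ha⟩
  obtain ⟨θ, hθ⟩ := aux.tw_all T hT
  have htw : ∀ η, val ε (tw θ η) = t (s η) v := fun η => funext fun m => propext <| by
    simp only [hv, hθ, HT, t4]
  have dec : ∀ c, ∃ η0, (∀ η, η0 ≤ η → Alm (t (s η) v) (val ε c)) ∨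
      ∀ η, η0 ≤ η → Alm (t (s η) v) fun n => ¬ val ε c n := fun c => by
    obtain ⟨γ0, k0⟩ := cl.1
    obtain ⟨b, hb, Hb⟩ := choice (N := M)
      (R := fun (a : ℕ × ℕ) (b : K) => b < ε ∧ ∀ x ∈ nm ε c a, ∀ z ∈ x, z.1 ≤ b)
      (by simp only [all_eq, imp_eq]; fun_prop) fun a => by
        obtain ⟨b, k1, k2⟩ := sealP_bound k0 (nm ε c a).flatten fun z hz => by
          obtain ⟨x, k1, k2⟩ := List.mem_flatten.1 hz
          exact (aux.nm_below ε c a x k1).2 z k2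
        exact ⟨b, k1, fun x hx z hz => k2 z (List.mem_flatten.2 ⟨x, hx, hz⟩)⟩
    obtain ⟨b', k1, k2⟩ := uc.bdd (p := fun _ : ℕ × ℕ => True) (Big.pair (N := N) (L := ℕ))
      (DefF.up g.sub hb) fun a => (Hb a).1
    obtain ⟨γ, k3, k4⟩ := lim b' k1
    obtain ⟨c', hc'⟩ := aux.nm_all γ (nm ε c) (by fun_prop) fun a x hx =>
      ⟨(aux.nm_below ε c a x hx).1, fun z hz =>
        (((Hb a).2 x hx z hz).trans (k2 a trivial)).trans_lt k3⟩
    have k5 : val γ c' = val ε c := funext fun m => propext <| by rw [hv, hv, hc']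
    obtain ⟨η0, k6⟩ := s4 _ ((HF0 γ (c', v) trivial).trans (c0 γ k4))
    exact ⟨η0, k5 ▸ (HD (γ, c', v)).imp (fun k η k7 => k _ (k6.trans (s2 k7)))
      fun k η k7 => k _ (k6.trans (s2 k7))⟩
  have hdS : DecS (Lb d ε) (nm ε) tw (Gb d ε H) θ := fun c c' => by
    simp only [hvl, htw, not_unb]
    obtain ⟨η1, k1 | k1⟩ := dec c
    · obtain ⟨η2, k2 | k2⟩ := dec c'
      · obtain ⟨m, -, k3⟩ := ((hsel (s (max η1 η2)) v).alm
          ((k1 _ (le_max_left _ _)).and (k2 _ (le_max_right _ _)))).exists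
        exact Or.inl ⟨m, k3⟩
      · exact Or.inr (Or.inr ⟨η2, k2⟩)
    · exact Or.inr (Or.inl ⟨η1, k1⟩)
  have s1' := DefF.up g.sub s1
  have key : ∀ Q : ℕ → Prop, DefF N Q → Cof (fun β => t β v) (fun γ => E γ v) ε Q →
      ∃ a : W → L, DefF N a ∧ ∀ η, (∀ m, val ε (a η) m → Q m) ∧
        Unb fun m => val ε (a η) m ∧ t (s η) v m := fun Q hQ q =>
    choice (N := N) (R := fun (η : W) (a : L) => (∀ m, val ε a m → Q m) ∧
        Unb fun m => val ε a m ∧ t (s η) v m)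
      (by simp only [all_eq, imp_eq]; fun_prop) fun η => by
        obtain ⟨γ, k1, k2, k3, m0, k4⟩ := q (s η) (s3 η)
        obtain ⟨a, ha⟩ := aux.nm_all ε (fun z => if m0 ≤ z.1 then fe γ v z else [])
          (by fun_prop) fun z x hx => by
            split_ifs at hx
            · exact ⟨(e3 _ _ _ x hx).1, fun y hy => ((e3 _ _ _ x hx).2 y hy).trans (ce _ k1)⟩
            · simp at hx
        have k5 : ∀ m, val ε a m ↔ m0 ≤ m ∧ E γ v m := fun m => by
          rw [hv, ha, e4]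
          by_cases k : m0 ≤ m <;> simp [k]
        refine ⟨a, fun m k => k4 m ((k5 m).1 k).1 ((k5 m).1 k).2, fun m => ?_⟩
        obtain ⟨n, k6, k7, k8⟩ := k2.alm k3 (max m m0)
        exact ⟨n, (le_max_left _ _).trans k6, (k5 n).2 ⟨(le_max_right _ _).trans k6, k7⟩, k8⟩
  obtain ⟨a, a1, a2⟩ := key Q hQ q1
  obtain ⟨a', a3, a4⟩ := key _ hQ.not q2
  obtain ⟨η, η', m, k1, k2⟩ := cross h aux g (hs ε lim) (two_dense hM hc h aux (hs ε lim))
    (θ := θ) a1 a3 fun η => ⟨hdS, by simpa only [hvl, htw] using (a2 η).2,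
      by simpa only [hvl, htw] using (a4 η).2⟩
  rw [hvl] at k1 k2
  exact (a4 η').1 m k2 ((a2 η).1 m k1)

end Pool.Agent.P.MP_5a7d1f_lc.Nik
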