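import Pool.Agent.P.MP_5a7d1f_lc.Nik.Ground
import Pool.Agent.P.MP_5a7d1f_lc.Nik.Names
import Pool.Agent.P.MP_5a7d1f_lc.Nik.Iter
import Pool.Agent.P.MP_5a7d1f_lc.Nik.SealP
import Pool.Agent.P.MP_5a7d1f_lc.Nik.Main

/-!
The final model.
-/

set_option synthInstance.maxSize 16384
set_option linter.unusedSectionVars false

namespace Pool.Agent.P.MP_5a7d1f_lc.Nik

open ZFSet Pool.Agent.Lib.Forcing Pool.Agent.P.MP_af0a18_lc Pool.Agent.Lib.Typed Pool.Agent.P.MP_5a7d1f_lc.Gro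

theorem exists_model : ∃ N : Set ZFSet.{0}, N.Countable ∧ IsZFModel N ∧ Choice N ∧ MAIn N ∧
    ∀ (A : Type) [BooleanAlgebra A] [Infinite A] (c : A → ZFSet.{0}),
      IsAlgebraIn N c → NikodymIn N c ∨ GrothendieckIn N c → ContainsBetaIn N c := by
  obtain ⟨M, _, κ, hκ, _, a, l, _, hM, hc, _, hK, hW, hp, e0, h0⟩ := exists_ground
  obtain ⟨nm, tw, π, aux⟩ := exists_aux (K := El κ) hW hp
  obtain ⟨e, d, hd, he, hs⟩ := exists_iter aux h0
  obtain ⟨N, hZ, _, hN, hc', H, g⟩ := exists_gen hM hc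
    (hd.po (J := fun _ => True) (fun _ _ _ k => k) (DefF.const _)) ⟨[], by simp [Fu]⟩
  have := InM.mk (g.sub hκ.1)
  have := hK.big.nonempty
  have := hK.up g.sub (g.cover hd.ccc)
  exact ⟨N, hc', hN, hZ.ac, (hd.mat g he).maIn (hd.cont g he),
    fun A _ _ => main_in (hd.mat g he) (hd.cont g he) (sealP hM hc hW hd aux hs g)⟩

end Pool.Agent.P.MP_5a7d1f_lc.Nik
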