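import Pool.Agent.P.MP_5a7d1f_lc.Gro.Groth
import Pool.Agent.P.MP_5a7d1f_lc.Nik.Defs
import Pool.Agent.P.MP_5a7d1f_lc.Nik.Basic

/-!
The Nikodym property separates pairs.
-/

set_option synthInstance.maxSize 16384
set_option linter.unusedSectionVars false

namespace Pool.Agent.P.MP_5a7d1f_lc.Nik

open Pool.Agent.Lib.Typed Pool.Agent.P.MP_5a7d1f_lc.Gro

variable {N : Set ZFSet.{0}} [ZFC N] [Enum N] {K L : Type} [Coded N K] [Coded N L]
  [LinearOrder K] {A : Type} [Coded N A] [BooleanAlgebra A] [BA N A]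

theorem nikodym_defF_isMeasure : DefF N (fun f : RFun N A => IsMeasure f.app) := by
  refine (by simp only [all_eq, imp_eq]; fun_prop : DefF N (fun f : RFun N A =>
    (∀ a b : A, a ⊓ b = ⊥ → f.app (a ⊔ b) = f.app a + f.app b) ∧
      ∃ C : ℕ, ∀ a, |f.app a| ≤ C)).congr_iff fun f => ?_
  exact and_congr Iff.rfl ⟨fun ⟨C, h⟩ => ⟨C, h⟩,
    fun ⟨C, h⟩ => ⟨⌈C⌉₊, fun a => (h a).trans (Nat.le_ceil C)⟩⟩

theorem nikodym_ind_sup (x : Pt N A) {a b : A} (h : a ⊓ b = ⊥) :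
    ind (x.has (a ⊔ b)) = ind (x.has a) + ind (x.has b) := by
  have k : ¬ (x.has a ∧ x.has b) := fun k => x.not_has_bot (h ▸ Pt.has_inf.2 k)
  by_cases k1 : x.has a <;> by_cases k2 : x.has b <;> simp_all [ind, Pt.has_sup]

theorem nikodym_abs_le (n : ℕ) (p q : Prop) : |(n : ℝ) * (ind p - ind q)| ≤ n := by
  by_cases k1 : p <;> by_cases k2 : q <;> simp [ind, k1, k2]

theorem NikodymIn.pairSep (h : NikodymIn N (cd N : A → ZFSet.{0})) : PairSep N A := by
  intro x y hx hy hne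
  by_contra hcon
  push Not at hcon
  let _ : Coded N (Fns N (cd N : A → ZFSet.{0}) IsMeasure) := codeFns nikodym_defF_isMeasure
  have h' : ∀ μ : ℕ → Fns N (cd N : A → ZFSet.{0}) IsMeasure, funCode (cd N) (cd N) μ ∈ N →
      (∀ a, ∃ C : ℝ, ∀ n, |(μ n).1 a| ≤ C) → ∃ C : ℝ, ∀ n, VarLe (μ n).1 C := h
  have h2 : DefF N (Fns.toR : Fns N (cd N : A → ZFSet.{0}) IsMeasure → _) :=
    Fns.def_toR fun _ => rfl
  have h3 : RealFn N (fun z : ℕ × A =>
      (z.1 : ℝ) * (ind ((x z.1).has z.2) - ind ((y z.1).has z.2))) := by fun_prop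
  let μ : ℕ → Fns N (cd N : A → ZFSet.{0}) IsMeasure := fun k =>
    ⟨fun a => (k : ℝ) * (ind ((x k).has a) - ind ((y k).has a)),
      realCode_mem_iff.2 (h3.comp (f := fun a => (k, a)) (by fun_prop)), fun a b e => by
        beta_reduce
        rw [nikodym_ind_sup _ e, nikodym_ind_sup _ e]
        ring, k, fun a => nikodym_abs_le _ _ _⟩
  have h4 : DefF N μ := DefF.of_inj Fns.toR_inj h2 (DefF.of_rapp h3)
  obtain ⟨C, hC⟩ := h' μ (funCode_mem_iff.2 h4) fun a => by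
    obtain ⟨m, hm⟩ := hcon a
    refine ⟨m, fun n => ?_⟩
    rcases le_total m n with k | k
    · have e : (x n).has a = (y n).has a := propext (hm n k)
      change |(n : ℝ) * (ind ((x n).has a) - ind ((y n).has a))| ≤ m
      rw [e]
      simp
    · exact (nikodym_abs_le _ _ _).trans (Nat.cast_le.2 k)
  obtain ⟨n, hn⟩ := exists_nat_gt C
  obtain ⟨a, a1, a2⟩ := Pt.exists_sep (hne n)
  have h5 := hC n [a] (List.pairwise_singleton _ _)
  change ([a].map fun a => |(n : ℝ) * (ind ((x n).has a) - ind ((y n).has a))|).sum ≤ C at h5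
  simp [ind, a1, a2] at h5
  exact absurd h5 (not_le.2 hn)

end Pool.Agent.P.MP_5a7d1f_lc.Nik
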