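import Pool.Agent.P.MP_5a7d1f_lc.Nik.Basic

/-!
Pruning, and a list of all selectors.
-/

set_option synthInstance.maxSize 16384
set_option linter.unusedSectionVars false

namespace Pool.Agent.P.MP_5a7d1f_lc.Nik

open Pool.Agent.Lib.Typed Pool.Agent.P.MP_5a7d1f_lc.Gro

variable {N : Set ZFSet.{0}} [ZFC N] [Enum N] {K L : Type} [Coded N K] [Coded N L]
  [LinearOrder K] {A : Type} [Coded N A] [BooleanAlgebra A] [BA N A]

/-- Pruning. -/
theorem prune {σ : Nd → ℕ → Prop} {Q : Nd → Prop} (hσ : DefF N (fun z : Nd × ℕ => σ z.1 z.2))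
    (hQ : DefF N Q) (hs : Sel σ) : ∃ τ : Nd → ℕ → Prop, DefF N (fun z : Nd × ℕ => τ z.1 z.2) ∧
      Sel τ ∧ SLe τ σ ∧ ∀ v, ¬ AllT σ (fun u => ¬ Q u) (ht v) v → AllT τ Q (ht v) v := by
  have hB : DefF N (fun u : Nd => AllT σ (fun u => ¬ Q u) (ht u) u) :=
    DefF.allT (σ := fun _ => σ) (Q := fun _ u => ¬ Q u) (h := fun u => ht u) (v := fun u => u)
      (by fun_prop) (by fun_prop) (by fun_prop) (by fun_prop)
  generalize hBe : (fun u : Nd => AllT σ (fun u => ¬ Q u) (ht u) u) = B at hB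
  have hB' : ∀ u, B u ↔ AllT σ (fun u => ¬ Q u) (ht u) u := fun u => by rw [← hBe]
  refine ⟨fun v m => σ v m ∧ ((Unb fun k => σ v k ∧ ¬ B (v.1, k :: v.2)) → ¬ B (v.1, m :: v.2)),
    ?_, fun v => ?_, fun v m h => h.1, fun v => ?_⟩
  · simp only [imp_eq]
    fun_prop
  · by_cases h : Unb fun k => σ v k ∧ ¬ B (v.1, k :: v.2)
    · exact h.mono fun n k => ⟨k.1, fun _ => k.2⟩
    · exact (hs v).mono fun n k => ⟨k, fun k' => absurd k' h⟩
  · generalize hn : ht v = n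
    induction n generalizing v with
    | zero => exact fun h => not_not.1 h
    | succ n ih =>
      intro h
      have h1 : Unb fun k => σ v k ∧ ¬ B (v.1, k :: v.2) :=
        (not_alm.1 h).mono fun k hk => ⟨hk.1, by rw [hB', ht_cons hn]; exact hk.2⟩
      refine Alm.of_le fun m hm => ih _ (ht_cons hn m) ?_
      have h2 := hm.2 h1
      rwa [hB', ht_cons hn] at h2

theorem exists_enu (hc : Sm N K (fun _ : DSet N ℕ => True)) :
    ∃ σ : K → Nd → ℕ → Prop, Enu N σ := by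
  obtain ⟨g, hg, H⟩ := hc
  have h0 : Ctble N (fun _ : Nd × ℕ => True) :=
    Ctble.mono (Sm.prod' (L := ℕ) (ctble_nd (N := N)) sm_self) fun _ _ => trivial
  obtain ⟨j, hj, Hj⟩ := h0.exists_inj
  refine ⟨fun γ v m => (g γ).Mem (j (v, m)), ⟨by fun_prop, fun τ hτ => ?_⟩⟩
  obtain ⟨γ, e⟩ := H ⟨fun n => ∃ z : Nd × ℕ, j z = n ∧ τ z.1 z.2, by fun_prop⟩ trivial
  refine ⟨γ, funext fun v => funext fun m => propext ?_⟩
  rw [e]
  exact ⟨fun ⟨z, h1, h2⟩ => by rwa [Hj z (v, m) trivial trivial h1] at h2,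
    fun h => ⟨(v, m), rfl, h⟩⟩

end Pool.Agent.P.MP_5a7d1f_lc.Nik
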