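import Pool.Agent.P.MP_5a7d1f_lc.Nik.Basic

/-!
The sealing forcing is ccc.
-/

set_option synthInstance.maxSize 16384
set_option linter.unusedSectionVars false

namespace Pool.Agent.P.MP_5a7d1f_lc.Nik

open Pool.Agent.Lib.Typed Pool.Agent.P.MP_5a7d1f_lc.Gro

section
variable {N : Set ZFSet.{0}} [ZFC N]
variable {X Y I Θ Ω : Type} [Coded N X] [Coded N Y] [Coded N I] [Coded N Θ] [Coded N Ω]

/-- An uncountable set has an element outside a countable set. -/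
theorem exists_not_of_unc {Λ B : X → Prop} (h : ¬ Ctble N Λ) (hB : Ctble N B) :
    ∃ p, Λ p ∧ ¬ B p := by
  by_contra k
  exact h (hB.mono fun p hp => by_contra fun k' => k ⟨p, hp, k'⟩)

/-- Finitely many functions become constant or countable-to-one on an uncountable subset. -/
theorem thinS {Λ : X → Prop} (hΛ : DefF N Λ) (hu : ¬ Ctble N Λ) {F : ℕ → X → Y}
    (hF : ∀ j, DefF N (F j)) (k : ℕ) :
    ∃ Λ' : X → Prop, DefF N Λ' ∧ ¬ Ctble N Λ' ∧ (∀ p, Λ' p → Λ p) ∧ ∀ j, j < k →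
      (∀ p q, Λ' p → Λ' q → F j p = F j q) ∨ ∀ y, Ctble N (fun p => Λ' p ∧ F j p = y) := by
  induction k with
  | zero => exact ⟨Λ, hΛ, hu, fun _ h => h, fun j hj => (Nat.not_lt_zero j hj).elim⟩
  | succ k ih =>
    obtain ⟨Λ', h1, h2, h3, h4⟩ := ih
    by_cases h : ∀ y, Ctble N (fun p => Λ' p ∧ F k p = y)
    · refine ⟨Λ', h1, h2, h3, fun j hj => ?_⟩
      rcases (Nat.lt_succ_iff.1 hj).eq_or_lt with rfl | hj
      exacts [Or.inr h, h4 j hj]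
    · obtain ⟨y, hy⟩ := not_forall.1 h
      have := hF k
      refine ⟨fun p => Λ' p ∧ F k p = y, by fun_prop, hy, fun p hp => h3 p hp.1, fun j hj => ?_⟩
      rcases (Nat.lt_succ_iff.1 hj).eq_or_lt with rfl | hj
      · exact Or.inl fun p q hp hq => hp.2.trans hq.2.symm
      · exact (h4 j hj).imp (fun h p q hp hq => h p q hp.1 hq.1)
          fun h y => (h y).mono fun p hp => ⟨hp.1.1, hp.2⟩

/-- A function into a countable type is constant on an uncountable subset. -/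
theorem thinS_ctble {Λ : X → Prop} (hΛ : DefF N Λ) (hu : ¬ Ctble N Λ)
    (hY : Ctble N (fun _ : Y => True)) {f : X → Y} (hf : DefF N f) :
    ∃ y, ¬ Ctble N (fun p => Λ p ∧ f p = y) := by
  by_contra h
  simp only [not_exists, not_not] at h
  exact hu ((hY.biUnion (R := fun y p => Λ p ∧ f p = y) (by fun_prop) h).mono
    fun p hp => ⟨f p, trivial, hp, rfl⟩)

/-- The demand on two items of a condition. -/
def SLink {I Θ Ω : Type} (θ : I → Θ) (rk : I → Ω) (col : I → ℕ) (w w' : I → ℕ → Prop) (x y : I) :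
    Prop :=
  θ x = θ y → col x = col y → rk x ≠ rk y → ∃ m, (w x m ∧ w' y m) ∨ (w y m ∧ w' x m)

theorem SLink.symm {I Θ Ω : Type} {θ : I → Θ} {rk : I → Ω} {col : I → ℕ} {w w' : I → ℕ → Prop}
    {x y : I} (h : SLink θ rk col w w' x y) : SLink θ rk col w w' y x :=
  fun h1 h2 h3 => (h h1.symm h2.symm h3.symm).imp fun _ h => h.symm

theorem list_nat_bound {Z : Type} (l : List Z) {R : Z → ℕ → Prop} :
    ∃ n, ∀ z ∈ l, (∃ m, R z m) → ∃ m, m < n ∧ R z m := by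
  induction l with
  | nil => exact ⟨0, by simp⟩
  | cons a l ih =>
    obtain ⟨n, hn⟩ := ih
    by_cases h : ∃ m, R a m
    · obtain ⟨m, hm⟩ := h
      exact ⟨max n (m + 1), List.forall_mem_cons.2 ⟨fun _ => ⟨m, by omega, hm⟩, fun z hz k =>
        (hn z hz k).imp fun _ h => ⟨by omega, h.2⟩⟩⟩
    · exact ⟨n, List.forall_mem_cons.2 ⟨fun k => (h k).elim, hn⟩⟩

/-- B1. Every element `p` of the poset carries a finite list `c p` of admissible items that are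
pairwise linked, and two elements whose items are linked are compatible. If for every `t` and
every set `P` all items of type `t` and large rank have `w' ⊆* P`, or all of them have
`w ⊆* ℕ \ P`, then the poset is ccc. -/
theorem seal_ccc_gen [Nonempty X] [Nonempty I] [LinearOrder Ω] [hΩ : Succ N ℕ Ω] {θ : I → Θ}
    {rk : I → Ω} {col : I → ℕ} {w w' : I → ℕ → Prop} {Ok : I → Prop} (hθ : DefF N θ)
    (hrk : DefF N rk) (hcol : DefF N col) (hw : DefF N (fun z : I × ℕ => w z.1 z.2))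
    (hw' : DefF N (fun z : I × ℕ => w' z.1 z.2)) (hOk : DefF N Ok)
    (inf : ∀ x, Ok x → ∀ n, ∃ m, n ≤ m ∧ w x m) (inf' : ∀ x, Ok x → ∀ n, ∃ m, n ≤ m ∧ w' x m)
    (dec : ∀ (t : Θ) (P : DSet N ℕ), ∃ h : Ω,
      (∀ x, Ok x → θ x = t → h ≤ rk x → ∃ n, ∀ m, n ≤ m → w' x m → P.Mem m) ∨
      (∀ x, Ok x → θ x = t → h ≤ rk x → ∃ n, ∀ m, n ≤ m → w x m → ¬ P.Mem m))
    {V : X → Prop} {Le : X → X → Prop} {c : X → List I} (hc : DefF N c)
    (ok : ∀ p, V p → ∀ x ∈ c p, Ok x)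
    (int : ∀ p, V p → ∀ x ∈ c p, ∀ y ∈ c p, SLink θ rk col w w' x y)
    (amal : ∀ p q, V p → V q → (∀ x ∈ c p, ∀ y ∈ c q, SLink θ rk col w w' x y) → Cmp V Le p q) :
    Ccc N V Le := by
  intro A hV hA
  by_contra hu
  have hAd := A.def_mem
  -- coordinates
  obtain ⟨it, hit, Hit⟩ := choice' (N := N) (p := fun z : X × ℕ => z.2 < (c z.1).length)
    (R := fun (z : X × ℕ) (x : I) => At (c z.1) z.2 x) (by fun_prop) fun z hz => exists_at hz
  have it_mem : ∀ p a, a < (c p).length → it (p, a) ∈ c p := fun p a ha =>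
    List.mem_of_getElem? (Hit (p, a) ha)
  have mem_it : ∀ p, ∀ x ∈ c p, ∃ a, a < (c p).length ∧ it (p, a) = x := fun p x hx => by
    obtain ⟨a, ha⟩ := List.mem_iff_getElem?.1 hx
    exact ⟨a, At.lt ha, At.unique (Hit (p, a) (At.lt ha)) ha⟩
  -- a bound for the internal witnesses
  obtain ⟨nb, hnb, Hnb⟩ := choice (N := N) (R := fun (p : X) (n : ℕ) => ∀ x ∈ c p, ∀ y ∈ c p,
      (∃ m, (w x m ∧ w' y m) ∨ (w y m ∧ w' x m)) →
        ∃ m, m < n ∧ ((w x m ∧ w' y m) ∨ (w y m ∧ w' x m)))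
    (by simp only [all_eq, imp_eq]; fun_prop) fun p => by
      obtain ⟨n, hn⟩ := list_nat_bound ((c p).product (c p))
        (R := fun z m => (w z.1 m ∧ w' z.2 m) ∨ (w z.2 m ∧ w' z.1 m))
      exact ⟨n, fun x hx y hy => hn (x, y) (List.pair_mem_product.2 ⟨hx, hy⟩)⟩
  obtain ⟨⟨n, k⟩, h1⟩ := thinS_ctble hAd hu (Big.pair (L := ℕ))
    (f := fun p => (nb p, (c p).length)) (by fun_prop)
  obtain ⟨τ, h2⟩ := thinS_ctble (by fun_prop) h1
    (Sm.list' (L := ℕ) (Sm.prod' sm_self (Sm.list' (Sm.prod' sm_prop sm_prop))))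
    (f := fun p => (List.range k).map fun a =>
      (col (it (p, a)), (List.range n).map fun m => (w (it (p, a)) m, w' (it (p, a)) m)))
    (by fun_prop)
  obtain ⟨Λ1, d1, u1, s1, t1⟩ := thinS (by fun_prop) h2 (F := fun a p => θ (it (p, a)))
    (fun a => by fun_prop) k
  obtain ⟨Λ, dΛ, uΛ, s2, t2⟩ := thinS d1 u1 (F := fun a p => rk (it (p, a)))
    (fun a => by fun_prop) k
  have a1 : ∀ p, Λ p → A.Mem p := fun p hp => (s1 p (s2 p hp)).1.1
  have a2 : ∀ p, Λ p → nb p = n := fun p hp => congrArg Prod.fst (s1 p (s2 p hp)).1.2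
  have a3 : ∀ p, Λ p → (c p).length = k := fun p hp => congrArg Prod.snd (s1 p (s2 p hp)).1.2
  have a4 : ∀ p q a, Λ p → Λ q → a < k → col (it (p, a)) = col (it (q, a)) ∧ ∀ m, m < n →
      (w (it (p, a)) m ↔ w (it (q, a)) m) ∧ (w' (it (p, a)) m ↔ w' (it (q, a)) m) := by
    intro p q a hp hq ha
    have e := (s1 p (s2 p hp)).2.trans (s1 q (s2 q hq)).2.symm
    have e1 := List.map_inj_left.1 e a (List.mem_range.2 ha)
    refine ⟨congrArg Prod.fst e1, fun m hm => ?_⟩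
    have e2 := List.map_inj_left.1 (congrArg Prod.snd e1) m (List.mem_range.2 hm)
    exact ⟨eq_iff_iff.1 (congrArg Prod.fst e2), eq_iff_iff.1 (congrArg Prod.snd e2)⟩
  have a5 : ∀ p a, Λ p → a < k → it (p, a) ∈ c p := fun p a hp ha =>
    it_mem p a (a3 p hp ▸ ha)
  have a6 : ∀ p a, Λ p → a < k → Ok (it (p, a)) := fun p a hp ha =>
    ok p (hV p (a1 p hp)) _ (a5 p a hp ha)
  obtain ⟨q0, hq0, -⟩ := exists_not_of_unc uΛ (ctble_single (Classical.arbitrary X))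
  -- the sets `P` and the bound for their decisions
  obtain ⟨P, hP, HP⟩ := exists_dset (N := N) (W := ℕ × List (ℕ × ℕ)) (X := ℕ)
    (R := fun z m => ¬ Ctble N (fun p => (Λ p ∧ ∀ y ∈ z.2, w (it (p, y.1)) y.2) ∧
      w (it (p, z.1)) m)) (by simp only [all_eq, imp_eq]; fun_prop)
  obtain ⟨H, hH, HH⟩ := choice (N := N) (R := fun (z : ℕ × List (ℕ × ℕ)) (h : Ω) =>
      (∀ x, Ok x → θ x = θ (it (q0, z.1)) → h ≤ rk x → ∃ n, ∀ m, n ≤ m → w' x m → (P z).Mem m) ∨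
      (∀ x, Ok x → θ x = θ (it (q0, z.1)) → h ≤ rk x → ∃ n, ∀ m, n ≤ m → w x m → ¬ (P z).Mem m))
    (by simp only [all_eq, imp_eq]; fun_prop) fun z => dec _ _
  obtain ⟨h, hh⟩ := (Sm.prod' (N := N) (L := ℕ) sm_self (Sm.list' Big.pair)).bdd (K := Ω) hH
  have low : Ctble N (fun p => ∃ a, (∀ y, Ctble N (fun p => Λ p ∧ rk (it (p, a)) = y)) ∧
      Λ p ∧ rk (it (p, a)) < h) := by
    refine (Sm.biUnion' (L := ℕ) (p := fun z : ℕ × Ω =>
        (∀ y, Ctble N (fun p => Λ p ∧ rk (it (p, z.1)) = y)) ∧ z.2 < h)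
      ((sm_self.prod (hΩ.small_lt h)).mono fun z hz => ⟨trivial, hz.2⟩)
      (by simp only [all_eq]; fun_prop) (R := fun z p => Λ p ∧ rk (it (p, z.1)) = z.2)
      (by fun_prop) fun z hz => hz.1 z.2).mono ?_
    rintro p ⟨a, k1, k2, k3⟩
    exact ⟨(a, _), ⟨k1, k3⟩, k2, rfl⟩
  have key : ∀ (φ : List (ℕ × ℕ)) a y, ¬ Ctble N (fun p => Λ p ∧ ∀ z ∈ φ, w (it (p, z.1)) z.2) →
      a < k → (∀ p q, Λ p → Λ q → θ (it (p, a)) = θ (it (q, a))) →
      (∀ y, Ctble N (fun p => Λ p ∧ rk (it (p, a)) = y)) → Ok y → θ y = θ (it (q0, a)) →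
      h ≤ rk y → ∃ m, w' y m ∧
        ¬ Ctble N (fun p => Λ p ∧ ∀ z ∈ (a, m) :: φ, w (it (p, z.1)) z.2) := by
    intro φ a y k1 k2 k3 k4 k5 k6 k7
    have bad : Ctble N (fun p => ∃ m, ¬ (P (a, φ)).Mem m ∧
        (Λ p ∧ ∀ z ∈ φ, w (it (p, z.1)) z.2) ∧ w (it (p, a)) m) :=
      Sm.biUnion' (L := ℕ) (sm_self.mono fun _ _ => trivial) (by fun_prop)
        (by simp only [all_eq, imp_eq]; fun_prop) fun m hm => not_not.1 fun e => hm ((HP _ _).2 e)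
    obtain ⟨p, k8, k9⟩ := exists_not_of_unc k1 (Sm.union (L := ℕ) bad low)
    rcases HH (a, φ) with e | e
    · obtain ⟨n', e1⟩ := e y k5 k6 ((hh _ trivial).le.trans k7)
      obtain ⟨m, e2, e3⟩ := inf' y k5 n'
      refine ⟨m, e3, fun e4 => (HP _ _).1 (e1 m e2 e3) (e4.mono fun r hr => ⟨hr.1.1, ?_⟩)⟩
      exact List.forall_mem_cons.2 ⟨hr.2, hr.1.2⟩
    · obtain ⟨n', e1⟩ := e _ (a6 p a k8.1 k2) (k3 p q0 k8.1 hq0) ((hh _ trivial).le.trans
        (not_lt.1 fun e2 => k9 (Or.inr ⟨a, k4, k8.1, e2⟩)))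
      obtain ⟨m, e2, e3⟩ := inf _ (a6 p a k8.1 k2) n'
      exact (k9 (Or.inl ⟨m, e1 m e2 e3, k8, e3⟩)).elim
  obtain ⟨q, hq, hq'⟩ := exists_not_of_unc uΛ low
  have build : ∀ l : List (ℕ × I), ∃ φ : List (ℕ × ℕ),
      ¬ Ctble N (fun p => Λ p ∧ ∀ z ∈ φ, w (it (p, z.1)) z.2) ∧ ∀ z ∈ l, z.1 < k →
        (∀ p q, Λ p → Λ q → θ (it (p, z.1)) = θ (it (q, z.1))) →
        (∀ y, Ctble N (fun p => Λ p ∧ rk (it (p, z.1)) = y)) → Ok z.2 →
        θ z.2 = θ (it (q0, z.1)) → h ≤ rk z.2 → ∃ m, w' z.2 m ∧ (z.1, m) ∈ φ := by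
    intro l
    induction l with
    | nil => exact ⟨[], fun e => uΛ (e.mono fun p hp => ⟨hp, by simp⟩), by simp⟩
    | cons z l ih =>
      obtain ⟨φ, k1, k2⟩ := ih
      by_cases e : ∃ m, w' z.2 m ∧
          ¬ Ctble N (fun p => Λ p ∧ ∀ y ∈ (z.1, m) :: φ, w (it (p, y.1)) y.2)
      · obtain ⟨m, e1, e2⟩ := e
        exact ⟨(z.1, m) :: φ, e2, List.forall_mem_cons.2
          ⟨fun _ _ _ _ _ _ => ⟨m, e1, List.mem_cons_self⟩, fun y hy b1 b2 b3 b4 b5 b6 =>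
            (k2 y hy b1 b2 b3 b4 b5 b6).imp fun _ h => ⟨h.1, List.mem_cons_of_mem _ h.2⟩⟩⟩
      · exact ⟨φ, k1, List.forall_mem_cons.2
          ⟨fun b1 b2 b3 b4 b5 b6 => (e (key φ _ _ k1 b1 b2 b3 b4 b5 b6)).elim, k2⟩⟩
  obtain ⟨φ, k1, k2⟩ := build ((List.range k).product (c q))
  have : Nonempty Θ := ⟨θ (Classical.arbitrary I)⟩
  have far : Ctble N (fun p => ∃ a, (∀ y, Ctble N (fun p => Λ1 p ∧ θ (it (p, a)) = y)) ∧
      Λ1 p ∧ ∃ y ∈ c q, θ (it (p, a)) = θ y) := by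
    refine (Sm.biUnion' (L := ℕ) (p := fun z : ℕ × I =>
        (∀ y, Ctble N (fun p => Λ1 p ∧ θ (it (p, z.1)) = y)) ∧ z.2 ∈ c q)
      ((sm_self.prod (sm_mem_list (c q))).mono fun z hz => ⟨trivial, hz.2⟩)
      (by simp only [all_eq]; fun_prop) (R := fun z p => Λ1 p ∧ θ (it (p, z.1)) = θ z.2)
      (by fun_prop) fun z hz => hz.1 _).mono ?_
    rintro p ⟨a, k1, k2, y, k3, k4⟩
    exact ⟨(a, y), ⟨k1, k3⟩, k2, k4⟩
  obtain ⟨p, ⟨hp, k3⟩, k4⟩ := exists_not_of_unc k1 (Sm.union (L := ℕ) far (ctble_single q))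
  refine hA p q (a1 p hp) (a1 q hq) (fun e => k4 (Or.inr e))
    (amal p q (hV p (a1 p hp)) (hV q (a1 q hq)) fun x hx y hy e1 e2 e3 => ?_)
  obtain ⟨a, ha, rfl⟩ := mem_it p x hx
  rw [a3 p hp] at ha
  have c1 : ∀ p q, Λ p → Λ q → θ (it (p, a)) = θ (it (q, a)) := fun p' q' hp' hq' =>
    (t1 a ha).resolve_right (fun e => k4 (Or.inl ⟨a, e, s2 p hp, y, hy, e1⟩)) p' q' (s2 _ hp')
      (s2 _ hq')
  by_cases e4 : rk (it (q, a)) = rk y
  · have c2 := (t2 a ha).resolve_left fun e => e3 ((e p q hp hq).trans e4)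
    obtain ⟨m, e5, e6⟩ := k2 (a, y) (List.pair_mem_product.2 ⟨List.mem_range.2 ha, hy⟩) ha c1 c2
      (ok q (hV q (a1 q hq)) y hy) (e1.symm.trans (c1 p q0 hp hq0))
      (e4 ▸ not_lt.1 fun e => hq' ⟨a, c2, hq, e⟩)
    exact ⟨m, Or.inl ⟨k3 _ e6, e5⟩⟩
  · obtain ⟨m, e5, e6⟩ := Hnb q _ (a5 q a hq ha) y hy (int q (hV q (a1 q hq)) _ (a5 q a hq ha) y hy
      ((c1 q p hq hp).trans e1) ((a4 q p a hq hp ha).1.trans e2) e4)
    rw [a2 q hq] at e5
    have e7 := (a4 q p a hq hp ha).2 m e5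
    exact ⟨m, e6.imp (fun h => ⟨e7.1.1 h.1, h.2⟩) fun h => ⟨h.1, e7.2.1 h.2⟩⟩

end

variable {N : Set ZFSet.{0}} [ZFC N] [Enum N] {X T W : Type} [Coded N X] [Coded N T] [Coded N W]
  [LinearOrder W]

theorem seal_ccc [Succ N ℕ W] {Ok : X → Prop} {th : X → T} {rk : X → W} {col : X → ℕ}
    {w w' : X → ℕ → Prop} (h1 : DefF N Ok) (h2 : DefF N th) (h3 : DefF N rk) (h4 : DefF N col)
    (h5 : DefF N (fun z : X × ℕ => w z.1 z.2)) (h6 : DefF N (fun z : X × ℕ => w' z.1 z.2))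
    (hi : ∀ x, Ok x → Unb (w x) ∧ Unb (w' x))
    (hd : ∀ (θ : T) (P : ℕ → Prop), DefF N P → ∃ h,
      (∀ x, Ok x → th x = θ → h ≤ rk x → Alm (w x) P ∧ Alm (w' x) P) ∨
      ∀ x, Ok x → th x = θ → h ≤ rk x → Alm (w x) (fun n => ¬ P n) ∧ Alm (w' x) fun n => ¬ P n) :
    Ccc N (fun l : List X => (∀ x ∈ l, Ok x) ∧ ∀ x ∈ l, ∀ y ∈ l, th x = th y → col x = col y →
      rk x ≠ rk y → (∃ m, w x m ∧ w' y m) ∨ ∃ m, w y m ∧ w' x m) fun q p => ∀ x ∈ p, x ∈ q := by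
  rcases isEmpty_or_nonempty X with hX | hX
  · exact fun A _ _ => (ctble_single []).mono fun l _ =>
      List.eq_nil_iff_forall_not_mem.2 fun x _ => isEmptyElim x
  have conv : ∀ {x y}, SLink th rk col w w' x y ↔ (th x = th y → col x = col y → rk x ≠ rk y →
      (∃ m, w x m ∧ w' y m) ∨ ∃ m, w y m ∧ w' x m) := by
    intro x y
    simp only [SLink, exists_or]
  refine seal_ccc_gen (c := fun l => l) h2 h3 h4 h5 h6 h1 (fun x hx => (hi x hx).1)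
    (fun x hx => (hi x hx).2) (fun θ P => (hd θ P.Mem P.def_mem).imp fun h => Or.imp
      (fun k x k1 k2 k3 => (k x k1 k2 k3).2) fun k x k1 k2 k3 => (k x k1 k2 k3).1) DefF.id
    (fun p hp => hp.1) (fun p hp x hx y hy => conv.2 (hp.2 x hx y hy)) fun p q hp hq H =>
      ⟨p ++ q, ⟨fun x hx => (List.mem_append.1 hx).elim (hp.1 x) (hq.1 x), fun x hx y hy => ?_⟩,
        fun x hx => List.mem_append_left _ hx, fun x hx => List.mem_append_right _ hx⟩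
  rcases List.mem_append.1 hx with k | k <;> rcases List.mem_append.1 hy with k' | k'
  exacts [hp.2 x k y k', conv.1 (H x k y k'), conv.1 (H y k' x k).symm, hq.2 x k y k']

end Pool.Agent.P.MP_5a7d1f_lc.Nik
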